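import Mathlib.Algebra.CharP.Defs
import Mathlib.Tactic.LinearCombination
import Mathlib.RingTheory.SimpleRing.Principal

/-! Algebraic lemmas on cyclic sequences of squared traces. -/

set_option autoImplicit false

namespace Pool.Agent.MP_b84581_al.H49

variable {k : Type} [Field k]

lemma alg3 (h2 : (2 : k) ≠ 0) (h3 : (3 : k) ≠ 0) (e P Q M t0 t1 t2 : k) (he : e ^ 2 + e + 1 = 0)
    (hPQ : P * Q = M ^ 2) (e0 : t0 = P + Q + 2 * M) (e1 : t1 = P * e + Q * e ^ 2 + 2 * M)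
    (e2 : t2 = P * e ^ 2 + Q * e + 2 * M) (s0 : t0 * (t0 - 1) = 0) (s1 : t1 * (t1 - 1) = 0)
    (s2 : t2 * (t2 - 1) = 0) : M * (3 * M - 1) = 0 := by
  have : (2 * 3) * (M * (3 * M - 1)) = 0 := by
    have p1 : t0 + t1 + t2 = 6 * M := by
      subst e0 e1 e2; clear * - he; grind
    have p2 : t0 ^ 2 + t1 ^ 2 + t2 ^ 2 = 6 * (P * Q) + 12 * M ^ 2 := by
      subst e0 e1 e2; clear * - he; grind
    linear_combination s0 + s1 + s2 - p2 + p1 - 6 * hPQ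
  exact (mul_eq_zero.1 this).resolve_left (mul_ne_zero h2 h3)

lemma mom3 (e A B C t0 t1 t2 : k) (h3 : (3 : k) ≠ 0) (he : e ^ 2 + e + 1 = 0)
    (e0 : t0 = C + A + B) (e1 : t1 = C + A * e + B * e ^ 2)
    (e2 : t2 = C + A * e ^ 2 + B * e) (s0 : t0 * (3 * t0 - 1) = 0) (s1 : t1 * (3 * t1 - 1) = 0)
    (s2 : t2 * (3 * t2 - 1) = 0) : 3 * (C ^ 2 + 2 * (A * B)) = C := by
  have : 3 * (3 * (C ^ 2 + 2 * (A * B)) - C) = 0 := by
    have p1 : t0 + t1 + t2 = 3 * C := by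
      subst e0 e1 e2; clear * - he; grind
    have p2 : t0 ^ 2 + t1 ^ 2 + t2 ^ 2 = 3 * (C ^ 2 + 2 * (A * B)) := by
      subst e0 e1 e2; clear * - he; grind
    linear_combination s0 + s1 + s2 - 3 * p2 + p1
  exact sub_eq_zero.1 ((mul_eq_zero.1 this).resolve_left h3)

lemma enum4 : ∀ a b c d : Fin 3,
    (((a : ℕ) : ℤ) + (c : ℕ)) * (((a : ℕ) : ℤ) + (c : ℕ) - 2) = 0 ∨
      (((a : ℕ) : ℤ) + (c : ℕ) - (b : ℕ) - (d : ℕ)) ∣ 42 ^ 4 ∨
      ((((a : ℕ) : ℤ) - (c : ℕ)) ^ 2 + (((b : ℕ) : ℤ) - (d : ℕ)) ^ 2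
        - (((a : ℕ) : ℤ) + (c : ℕ)) ^ 2) ∣ 42 ^ 4 := by
  decide +kernel

lemma cast_ne_of_dvd {n m : ℤ} (h : n ∣ m) (hm : (m : k) ≠ 0) : (n : k) ≠ 0 := by
  obtain ⟨c, rfl⟩ := h
  intro h0
  apply hm
  push_cast
  rw [h0, zero_mul]

lemma exists_fin3 {t : k} (h : t * (t - 1) * (t - 2) = 0) : ∃ a : Fin 3, t = (((a : ℕ) : ℤ) : k) := by
  rcases mul_eq_zero.1 h with h | h
  · rcases mul_eq_zero.1 h with h | h
    · exact ⟨0, by simpa using h⟩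
    · exact ⟨1, by simpa using sub_eq_zero.1 h⟩
  · exact ⟨2, by simpa using sub_eq_zero.1 h⟩

lemma alg4 (h2 : (2 : k) ≠ 0) (h3 : (3 : k) ≠ 0) (h7 : (7 : k) ≠ 0) (e P Q M t0 t1 t2 t3 : k)
    (he : e ^ 2 + 1 = 0) (hPQ : P * Q = M ^ 2) (e0 : t0 = P + Q + 2 * M)
    (e1 : t1 = P * e - Q * e + 2 * M) (e2 : t2 = -P - Q + 2 * M) (e3 : t3 = -P * e + Q * e + 2 * M)
    (s0 : t0 * (t0 - 1) * (t0 - 2) = 0) (s1 : t1 * (t1 - 1) * (t1 - 2) = 0)
    (s2 : t2 * (t2 - 1) * (t2 - 2) = 0) (s3 : t3 * (t3 - 1) * (t3 - 2) = 0) :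
    M * (2 * M - 1) = 0 := by
  obtain ⟨a, ha⟩ := exists_fin3 s0
  obtain ⟨b, hb⟩ := exists_fin3 s1
  obtain ⟨c, hc⟩ := exists_fin3 s2
  obtain ⟨d, hd⟩ := exists_fin3 s3
  have h42 : (((42 : ℤ) ^ 4 : ℤ) : k) ≠ 0 := by
    push_cast
    rw [show (3111696 : k) = (2 * 3 * 7) ^ 4 by norm_num]
    exact pow_ne_zero 4 (mul_ne_zero (mul_ne_zero h2 h3) h7)
  rcases enum4 a b c d with h | h | h
  · have := congrArg (Int.cast : ℤ → k) h
    rw [Int.cast_mul, Int.cast_sub, Int.cast_add, ← ha, ← hc] at this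
    have h8 : (2 * 2 * 2) * (M * (2 * M - 1)) = 0 := by
      rw [e0, e2] at this
      push_cast at this
      linear_combination this
    exact (mul_eq_zero.1 h8).resolve_left (mul_ne_zero (mul_ne_zero h2 h2) h2)
  · exfalso
    apply cast_ne_of_dvd h h42
    rw [Int.cast_sub, Int.cast_sub, Int.cast_add, ← ha, ← hb, ← hc, ← hd, e0, e1, e2, e3]
    ring
  · exfalso
    apply cast_ne_of_dvd h h42
    rw [Int.cast_sub, Int.cast_add, Int.cast_pow, Int.cast_pow, Int.cast_pow, Int.cast_sub,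
      Int.cast_sub, Int.cast_add, ← ha, ← hb, ← hc, ← hd, e0, e1, e2, e3]
    linear_combination (4 * (P - Q) ^ 2) * he + 16 * hPQ

lemma mom4 (e A B C t0 t1 t2 t3 : k) (h2 : (2 : k) ≠ 0) (he : e ^ 2 + 1 = 0)
    (e0 : t0 = C + A + B) (e1 : t1 = C + A * e - B * e)
    (e2 : t2 = C - A - B) (e3 : t3 = C - A * e + B * e) (s0 : t0 * (2 * t0 - 1) = 0)
    (s1 : t1 * (2 * t1 - 1) = 0) (s2 : t2 * (2 * t2 - 1) = 0) (s3 : t3 * (2 * t3 - 1) = 0) :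
    2 * (C ^ 2 + 2 * (A * B)) = C := by
  have : (2 * 2) * (2 * (C ^ 2 + 2 * (A * B)) - C) = 0 := by
    subst e0 e1 e2 e3
    linear_combination s0 + s1 + s2 + s3 - (4 * (A - B) ^ 2) * he
  exact sub_eq_zero.1 ((mul_eq_zero.1 this).resolve_left (mul_ne_zero h2 h2))

/-- arithmetic in the ring of integers of the field of the golden ratio -/
def zm (a b : ℤ × ℤ) : ℤ × ℤ := (a.1 * b.1 + a.2 * b.2, a.1 * b.2 + a.2 * b.1 - a.2 * b.2)
def za (a b : ℤ × ℤ) : ℤ × ℤ := (a.1 + b.1, a.2 + b.2)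
def zs (a b : ℤ × ℤ) : ℤ × ℤ := (a.1 - b.1, a.2 - b.2)
def zn (a : ℤ × ℤ) : ℤ := a.1 * a.1 - a.1 * a.2 - a.2 * a.2
def zd (a b c : ℤ × ℤ) : ℤ × ℤ := zs (za a c) (zm (0, 1) b)

def S5 : Fin 5 → ℤ × ℤ
  | 0 => (0, 0)
  | 1 => (1, 0)
  | 2 => (2, 0)
  | 3 => (2, 1)
  | 4 => (1, -1)

def zsum (a b c d e : ℤ × ℤ) : ℤ × ℤ := za (za (za (za a b) c) d) e

def eqs (a b c d e : ℤ × ℤ) : List (ℤ × ℤ) :=
  [zs (zd a b c) (zd e a b), zs (zd b c d) (zd e a b), zs (zd c d e) (zd e a b),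
    zs (zd d e a) (zd e a b),
    zs (zm (3, 0) (zm (zsum a b c d e) (zsum a b c d e)))
      (zm (10, 0) (zsum (zm a a) (zm b b) (zm c c) (zm d d) (zm e e)))]

def gl (L : List (ℤ × ℤ)) : ℕ :=
  L.foldr (fun u g => L.foldr (fun v g' => Nat.gcd (zn (za u v)).natAbs g') g) 0

def chk (a b c d e : ℤ × ℤ) : Bool :=
  zsum a b c d e == (0, 0) || zsum a b c d e == (6, 2) || zsum a b c d e == (4, -2) ||
    (gl (eqs a b c d e) != 0 && 30 ^ 12 % gl (eqs a b c d e) == 0)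

lemma enum5 : ∀ a b c d e : Fin 5, chk (S5 a) (S5 b) (S5 c) (S5 d) (S5 e) = true := by
  decide +kernel

def ev (s : k) (a : ℤ × ℤ) : k := a.1 + a.2 * s

lemma ev_zm {s : k} (hs : s ^ 2 + s - 1 = 0) (a b : ℤ × ℤ) : ev s (zm a b) = ev s a * ev s b := by
  simp only [ev, zm]; push_cast; linear_combination (-(a.2 * b.2 : k)) * hs
lemma ev_za (s : k) (a b : ℤ × ℤ) : ev s (za a b) = ev s a + ev s b := by
  simp only [ev, za]; push_cast; ring
lemma ev_zs (s : k) (a b : ℤ × ℤ) : ev s (zs a b) = ev s a - ev s b := by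
  simp only [ev, zs]; push_cast; ring
lemma zn_zero {s : k} (hs : s ^ 2 + s - 1 = 0) {a : ℤ × ℤ} (h : ev s a = 0) : (zn a : k) = 0 := by
  simp only [ev] at h
  simp only [zn]; push_cast
  linear_combination ((a.1 : k) - a.2 - a.2 * s) * h + ((a.2 : k) ^ 2) * hs

lemma gcd_zero {m n : ℕ} (hm : (m : k) = 0) (hn : (n : k) = 0) : ((Nat.gcd m n : ℕ) : k) = 0 := by
  have := congrArg (Int.cast : ℤ → k) (Nat.gcd_eq_gcd_ab m n)
  push_cast at this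
  rw [this, hm, hn]; simp

lemma gl_zero {s : k} (hs : s ^ 2 + s - 1 = 0) (L : List (ℤ × ℤ)) (h : ∀ u ∈ L, ev s u = 0) :
    ((gl L : ℕ) : k) = 0 := by
  have inner : ∀ u, ev s u = 0 → ∀ (L' : List (ℤ × ℤ)), (∀ v ∈ L', ev s v = 0) → ∀ g : ℕ,
      (g : k) = 0 → ((L'.foldr (fun v g' => Nat.gcd (zn (za u v)).natAbs g') g : ℕ) : k) = 0 := by
    intro u hu L' hL' g hg
    induction L' with
    | nil => exact hg
    | cons v L' ih =>
      rw [List.foldr_cons]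
      apply gcd_zero
      · have : (zn (za u v) : k) = 0 :=
          zn_zero hs (by rw [ev_za, hu, hL' v List.mem_cons_self, add_zero])
        rcases Int.natAbs_eq (zn (za u v)) with e | e
        · rw [e] at this; simpa using this
        · rw [e] at this; simpa using this
      · exact ih (fun w hw => hL' w (List.mem_cons_of_mem _ hw))
  have outer : ∀ (L' : List (ℤ × ℤ)), (∀ v ∈ L', ev s v = 0) →
      ((L'.foldr (fun u g => L.foldr (fun v g' => Nat.gcd (zn (za u v)).natAbs g') g) 0 : ℕ) : k)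
        = 0 := by
    intro L' hL'
    induction L' with
    | nil => simp
    | cons v L' ih =>
      rw [List.foldr_cons]
      exact inner v (hL' v List.mem_cons_self) L h _
        (ih (fun w hw => hL' w (List.mem_cons_of_mem _ hw)))
  exact outer L h

lemma exists_fin5 {s t : k} (hs : s ^ 2 + s - 1 = 0)
    (h : t * (t - 1) * (t - 2) * (t ^ 2 - 3 * t + 1) = 0) : ∃ a : Fin 5, t = ev s (S5 a) := by
  rcases mul_eq_zero.1 h with h | h
  · rcases mul_eq_zero.1 h with h | h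
    · rcases mul_eq_zero.1 h with h | h
      · exact ⟨0, by simpa [ev, S5] using h⟩
      · exact ⟨1, by simpa [ev, S5] using sub_eq_zero.1 h⟩
    · exact ⟨2, by simpa [ev, S5] using sub_eq_zero.1 h⟩
  · have : (t - (2 + s)) * (t - (1 - s)) = 0 := by linear_combination h - hs
    rcases mul_eq_zero.1 this with h | h
    · exact ⟨3, by simp only [ev, S5]; push_cast; linear_combination h⟩
    · exact ⟨4, by simp only [ev, S5]; push_cast; linear_combination h⟩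

lemma alg5 (h2 : (2 : k) ≠ 0) (h3 : (3 : k) ≠ 0) (h5 : (5 : k) ≠ 0) (e P Q M t0 t1 t2 t3 t4 : k)
    (he : e ^ 4 + e ^ 3 + e ^ 2 + e + 1 = 0) (hPQ : P * Q = M ^ 2) (e0 : t0 = P + Q + 2 * M)
    (e1 : t1 = P * e + Q * e ^ 4 + 2 * M) (e2 : t2 = P * e ^ 2 + Q * e ^ 3 + 2 * M)
    (e3 : t3 = P * e ^ 3 + Q * e ^ 2 + 2 * M) (e4 : t4 = P * e ^ 4 + Q * e + 2 * M)
    (s0 : t0 * (t0 - 1) * (t0 - 2) * (t0 ^ 2 - 3 * t0 + 1) = 0)
    (s1 : t1 * (t1 - 1) * (t1 - 2) * (t1 ^ 2 - 3 * t1 + 1) = 0)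
    (s2 : t2 * (t2 - 1) * (t2 - 2) * (t2 ^ 2 - 3 * t2 + 1) = 0)
    (s3 : t3 * (t3 - 1) * (t3 - 2) * (t3 ^ 2 - 3 * t3 + 1) = 0)
    (s4 : t4 * (t4 - 1) * (t4 - 2) * (t4 ^ 2 - 3 * t4 + 1) = 0) :
    M * (5 * M ^ 2 - 5 * M + 1) = 0 := by
  have hs : (e + e ^ 4) ^ 2 + (e + e ^ 4) - 1 = 0 := by clear * - he; grind
  set s := e + e ^ 4 with hsdef
  obtain ⟨a, ha⟩ := exists_fin5 hs s0
  obtain ⟨b, hb⟩ := exists_fin5 hs s1
  obtain ⟨c, hc⟩ := exists_fin5 hs s2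
  obtain ⟨d, hd⟩ := exists_fin5 hs s3
  obtain ⟨f, hf⟩ := exists_fin5 hs s4
  have hsum : ev s (zsum (S5 a) (S5 b) (S5 c) (S5 d) (S5 f)) = 10 * M := by
    simp only [zsum, ev_za]
    rw [← ha, ← hb, ← hc, ← hd, ← hf, e0, e1, e2, e3, e4]
    linear_combination (P + Q) * he
  have h10 : (2 * 5 : k) ≠ 0 := mul_ne_zero h2 h5
  have := enum5 a b c d f
  simp only [chk, Bool.or_eq_true, beq_iff_eq, Bool.and_eq_true, bne_iff_ne] at this
  rcases this with ((h | h) | h) | h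
  · rw [h] at hsum
    simp only [ev] at hsum
    push_cast at hsum
    have : (2 * 5) * M = 0 := by linear_combination -hsum
    rw [(mul_eq_zero.1 this).resolve_left h10, zero_mul]
  · rw [h] at hsum
    simp only [ev] at hsum
    push_cast at hsum
    have : (2 * (2 * 5)) * (5 * M ^ 2 - 5 * M + 1) = 0 := by
      linear_combination (-(10 * M + 2 * s - 4)) * hsum + 4 * hs
    rw [(mul_eq_zero.1 this).resolve_left (mul_ne_zero h2 h10), mul_zero]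
  · rw [h] at hsum
    simp only [ev] at hsum
    push_cast at hsum
    have : (2 * (2 * 5)) * (5 * M ^ 2 - 5 * M + 1) = 0 := by
      linear_combination (-(10 * M - 2 * s - 6)) * hsum + 4 * hs
    rw [(mul_eq_zero.1 this).resolve_left (mul_ne_zero h2 h10), mul_zero]
  · exfalso
    have hz : ((gl (eqs (S5 a) (S5 b) (S5 c) (S5 d) (S5 f)) : ℕ) : k) = 0 := by
      apply gl_zero hs
      intro u hu
      simp only [eqs, List.mem_cons, List.not_mem_nil, or_false] at hu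
      have v1 : ev s (0, 1) = s := by simp [ev]
      have v3 : ev s (3, 0) = 3 := by simp [ev]
      have v10 : ev s (10, 0) = 10 := by simp [ev]
      rcases hu with rfl | rfl | rfl | rfl | rfl <;>
        simp only [zd, zsum, ev_zs, ev_za, ev_zm hs, v1, v3, v10, ← ha, ← hb, ← hc, ← hd, ← hf] <;>
        simp only [e0, e1, e2, e3, e4, hsdef] <;> clear * - he hPQ <;> grind
    obtain ⟨c, hc⟩ := Nat.dvd_of_mod_eq_zero h.2
    have := congrArg (Nat.cast : ℕ → k) hc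
    rw [Nat.cast_mul, hz, zero_mul, Nat.cast_pow] at this
    have h30 : ((30 : ℕ) : k) = 2 * 5 * 3 := by norm_num
    rw [h30] at this
    exact pow_ne_zero 12 (mul_ne_zero h10 h3) this

lemma mom5 (e A B C t0 t1 t2 t3 t4 : k) (h5 : (5 : k) ≠ 0) (he : e ^ 4 + e ^ 3 + e ^ 2 + e + 1 = 0)
    (e0 : t0 = C + A + B) (e1 : t1 = C + A * e + B * e ^ 4) (e2 : t2 = C + A * e ^ 2 + B * e ^ 3)
    (e3 : t3 = C + A * e ^ 3 + B * e ^ 2) (e4 : t4 = C + A * e ^ 4 + B * e)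
    (s0 : t0 * (5 * t0 ^ 2 - 5 * t0 + 1) = 0) (s1 : t1 * (5 * t1 ^ 2 - 5 * t1 + 1) = 0)
    (s2 : t2 * (5 * t2 ^ 2 - 5 * t2 + 1) = 0) (s3 : t3 * (5 * t3 ^ 2 - 5 * t3 + 1) = 0)
    (s4 : t4 * (5 * t4 ^ 2 - 5 * t4 + 1) = 0) :
    5 * (C ^ 3 + 6 * C * (A * B)) - 5 * (C ^ 2 + 2 * (A * B)) + C = 0 := by
  have : 5 * (5 * (C ^ 3 + 6 * C * (A * B)) - 5 * (C ^ 2 + 2 * (A * B)) + C) = 0 := by
    have p1 : t0 + t1 + t2 + t3 + t4 = 5 * C := by
      subst e0 e1 e2 e3 e4; clear * - he; grind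
    have p2 : t0 ^ 2 + t1 ^ 2 + t2 ^ 2 + t3 ^ 2 + t4 ^ 2 = 5 * (C ^ 2 + 2 * (A * B)) := by
      subst e0 e1 e2 e3 e4; clear * - he; grind
    have p3 : t0 ^ 3 + t1 ^ 3 + t2 ^ 3 + t3 ^ 3 + t4 ^ 3 = 5 * (C ^ 3 + 6 * C * (A * B)) := by
      subst e0 e1 e2 e3 e4; clear * - he; grind
    linear_combination s0 + s1 + s2 + s3 + s4 - 5 * p3 + 5 * p2 - p1
  exact (mul_eq_zero.1 this).resolve_left h5

end Pool.Agent.MP_b84581_al.H49
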