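import Mathlib.Algebra.Group.MinimalAxioms
import Mathlib.LinearAlgebra.Projectivization.Action
import Mathlib.RingTheory.Henselian
import Mathlib.RingTheory.RegularLocalRing.Defs
import Mathlib.Tactic.Polynomial.Basic
import Pool.Agent.MP_b84581_al.h49.Alg

-- ======== part 0: formerly Pool.Agent.MP_b84581_al.h49.Basic
section MrgPart0

/-! Two by two matrices of determinant one, their action on the projective line. -/

set_option autoImplicit false

namespace Pool.Agent.MP_b84581_al.H49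

open Projectivization

@[ext] structure SL (k : Type) [Field k] where
  a : k
  b : k
  c : k
  d : k
  det : a * d - b * c = 1

variable {k : Type} [Field k]

namespace SL

instance : Mul (SL k) := ⟨fun g h => ⟨g.a * h.a + g.b * h.c, g.a * h.b + g.b * h.d,
  g.c * h.a + g.d * h.c, g.c * h.b + g.d * h.d, by
    have h1 := g.det; have h2 := h.det
    linear_combination (h.a * h.d - h.b * h.c) * h1 + h2⟩⟩
instance : One (SL k) := ⟨⟨1, 0, 0, 1, by ring⟩⟩
instance : Inv (SL k) := ⟨fun g => ⟨g.d, -g.b, -g.c, g.a, by have := g.det; linear_combination this⟩⟩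
instance : Neg (SL k) := ⟨fun g => ⟨-g.a, -g.b, -g.c, -g.d, by have := g.det; linear_combination this⟩⟩

@[simp] lemma mul_a (g h : SL k) : (g * h).a = g.a * h.a + g.b * h.c := rfl
@[simp] lemma mul_b (g h : SL k) : (g * h).b = g.a * h.b + g.b * h.d := rfl
@[simp] lemma mul_c (g h : SL k) : (g * h).c = g.c * h.a + g.d * h.c := rfl
@[simp] lemma mul_d (g h : SL k) : (g * h).d = g.c * h.b + g.d * h.d := rfl
@[simp] lemma one_a : (1 : SL k).a = 1 := rfl
@[simp] lemma one_b : (1 : SL k).b = 0 := rfl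
@[simp] lemma one_c : (1 : SL k).c = 0 := rfl
@[simp] lemma one_d : (1 : SL k).d = 1 := rfl
@[simp] lemma inv_a (g : SL k) : (g⁻¹).a = g.d := rfl
@[simp] lemma inv_b (g : SL k) : (g⁻¹).b = -g.b := rfl
@[simp] lemma inv_c (g : SL k) : (g⁻¹).c = -g.c := rfl
@[simp] lemma inv_d (g : SL k) : (g⁻¹).d = g.a := rfl
@[simp] lemma neg_a (g : SL k) : (-g).a = -g.a := rfl
@[simp] lemma neg_b (g : SL k) : (-g).b = -g.b := rfl
@[simp] lemma neg_c (g : SL k) : (-g).c = -g.c := rfl
@[simp] lemma neg_d (g : SL k) : (-g).d = -g.d := rfl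

instance : Group (SL k) :=
  Group.ofLeftAxioms
    (fun g h l => by ext <;> simp <;> ring)
    (fun g => by ext <;> simp)
    (fun g => by
      have := g.det
      ext <;> simp
      · linear_combination this
      · ring
      · ring
      · linear_combination this)

instance : HasDistribNeg (SL k) where
  neg_neg g := by ext <;> simp
  neg_mul g h := by ext <;> simp <;> ring
  mul_neg g h := by ext <;> simp <;> ring

instance : DistribMulAction (SL k) (k × k) where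
  smul g v := (g.a * v.1 + g.b * v.2, g.c * v.1 + g.d * v.2)
  one_smul v := by
    change ((1 : SL k).a * v.1 + (1 : SL k).b * v.2, (1 : SL k).c * v.1 + (1 : SL k).d * v.2) = v
    simp
  mul_smul g h v := by
    change ((g * h).a * v.1 + (g * h).b * v.2, (g * h).c * v.1 + (g * h).d * v.2) =
      (g.a * (h.a * v.1 + h.b * v.2) + g.b * (h.c * v.1 + h.d * v.2),
        g.c * (h.a * v.1 + h.b * v.2) + g.d * (h.c * v.1 + h.d * v.2))
    simp only [mul_a, mul_b, mul_c, mul_d, Prod.mk.injEq]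
    constructor <;> ring
  smul_zero g := by
    change (g.a * 0 + g.b * 0, g.c * 0 + g.d * 0) = (0 : k × k)
    simp
  smul_add g v w := by
    change (g.a * (v.1 + w.1) + g.b * (v.2 + w.2), g.c * (v.1 + w.1) + g.d * (v.2 + w.2)) =
      ((g.a * v.1 + g.b * v.2) + (g.a * w.1 + g.b * w.2),
        (g.c * v.1 + g.d * v.2) + (g.c * w.1 + g.d * w.2))
    simp only [Prod.mk.injEq]
    constructor <;> ring

lemma smul_vec (g : SL k) (v : k × k) :
    g • v = (g.a * v.1 + g.b * v.2, g.c * v.1 + g.d * v.2) := rfl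

instance : SMulCommClass (SL k) k (k × k) where
  smul_comm g t v := by
    rw [smul_vec, smul_vec]
    simp only [Prod.smul_fst, Prod.smul_snd, smul_eq_mul, Prod.smul_mk, Prod.mk.injEq]
    constructor <;> ring

end SL

/-- trace -/
def tr (g : SL k) : k := g.a + g.d

/-- central elements -/
def Cen (g : SL k) : Prop := g = 1 ∨ g = -1

def up (x : k) : SL k := ⟨1, x, 0, 1, by ring⟩
def lo (x : k) : SL k := ⟨1, 0, x, 1, by ring⟩
def dg (x : k) (hx : x ≠ 0) : SL k := ⟨x, 0, 0, x⁻¹, by field_simp; ring⟩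

@[simp] lemma up_a (x : k) : (up x).a = 1 := rfl
@[simp] lemma up_b (x : k) : (up x).b = x := rfl
@[simp] lemma up_c (x : k) : (up x).c = 0 := rfl
@[simp] lemma up_d (x : k) : (up x).d = 1 := rfl
@[simp] lemma lo_a (x : k) : (lo x).a = 1 := rfl
@[simp] lemma lo_b (x : k) : (lo x).b = 0 := rfl
@[simp] lemma lo_c (x : k) : (lo x).c = x := rfl
@[simp] lemma lo_d (x : k) : (lo x).d = 1 := rfl
@[simp] lemma dg_a (x : k) (hx : x ≠ 0) : (dg x hx).a = x := rfl
@[simp] lemma dg_b (x : k) (hx : x ≠ 0) : (dg x hx).b = 0 := rfl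
@[simp] lemma dg_c (x : k) (hx : x ≠ 0) : (dg x hx).c = 0 := rfl
@[simp] lemma dg_d (x : k) (hx : x ≠ 0) : (dg x hx).d = x⁻¹ := rfl

lemma up_add (x y : k) : up (x + y) = up x * up y := by ext <;> simp; ring
lemma up_zero : up (0 : k) = 1 := by ext <;> simp
lemma up_neg (x : k) : up (-x) = (up x)⁻¹ := by ext <;> simp
lemma lo_add (x y : k) : lo (x + y) = lo x * lo y := by ext <;> simp

lemma tr_mul_comm (g h : SL k) : tr (g * h) = tr (h * g) := by simp [tr]; ring

lemma tr_conj (P g : SL k) : tr (P⁻¹ * g * P) = tr g := by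
  rw [tr_mul_comm, ← mul_assoc, mul_inv_cancel, one_mul]

lemma tr_conj' (P g : SL k) : tr (P * g * P⁻¹) = tr g := by
  have := tr_conj P⁻¹ g
  rwa [inv_inv] at this

lemma tr_neg (g : SL k) : tr (-g) = -tr g := by simp [tr]; ring

lemma tr_inv (g : SL k) : tr g⁻¹ = tr g := by simp [tr]; ring

lemma cen_neg {g : SL k} : Cen (-g) ↔ Cen g := by
  unfold Cen
  constructor
  · rintro (h | h)
    · right; rw [← h, neg_neg]
    · left; exact neg_injective h
  · rintro (h | h)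
    · right; rw [h]
    · left; rw [h, neg_neg]

lemma cen_conj (P g : SL k) : Cen (P⁻¹ * g * P) ↔ Cen g := by
  unfold Cen
  constructor
  · rintro (h | h)
    · left
      have : g = P * (P⁻¹ * g * P) * P⁻¹ := by group
      rw [this, h]; group
    · right
      have : g = P * (P⁻¹ * g * P) * P⁻¹ := by group
      rw [this, h]; simp
  · rintro (h | h)
    · left; rw [h]; group
    · right; rw [h]; simp

lemma cen_of_entries {g : SL k} (hb : g.b = 0) (hc : g.c = 0) (h : g.a ^ 2 = 1) : Cen g := by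
  have hdet := g.det
  rw [hb] at hdet
  have h1 : (g.a - 1) * (g.a + 1) = 0 := by linear_combination h
  rcases mul_eq_zero.1 h1 with h2 | h2
  · left
    have ha : g.a = 1 := by linear_combination h2
    have hd : g.d = 1 := by rw [ha] at hdet; linear_combination hdet
    ext <;> simp [*]
  · right
    have ha : g.a = -1 := by linear_combination h2
    have hd : g.d = -1 := by rw [ha] at hdet; linear_combination -hdet
    ext <;> simp [*]

lemma Cen.tr_sq {g : SL k} (h : Cen g) : tr g ^ 2 = 4 := by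
  rcases h with h | h <;> rw [h] <;> simp [tr] <;> ring

lemma Cen.b {g : SL k} (h : Cen g) : g.b = 0 := by rcases h with h | h <;> simp [h]
lemma Cen.c {g : SL k} (h : Cen g) : g.c = 0 := by rcases h with h | h <;> simp [h]
lemma Cen.a_sq {g : SL k} (h : Cen g) : g.a ^ 2 = 1 := by rcases h with h | h <;> simp [h]

lemma one_ne_neg_one (h2 : (2 : k) ≠ 0) : (1 : SL k) ≠ -1 := by
  intro h
  have := congrArg SL.a h
  simp only [SL.one_a, SL.neg_a] at this
  exact h2 (by linear_combination this)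

/-- the projective line -/
abbrev PL (k : Type) [Field k] := Projectivization k (k × k)

def inf : PL k := Projectivization.mk k ((1 : k), (0 : k)) (by simp)
def aff (x : k) : PL k := Projectivization.mk k (x, (1 : k)) (by simp)

lemma mk_eq_inf {v : k × k} (hv : v ≠ 0) : Projectivization.mk k v hv = inf ↔ v.2 = 0 := by
  unfold inf
  rw [mk_eq_mk_iff']
  constructor
  · rintro ⟨a, ha⟩
    rw [← ha]; simp
  · intro h
    exact ⟨v.1, by ext <;> simp [h]⟩

lemma mk_eq_aff {v : k × k} (hv : v ≠ 0) (y : k) :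
    Projectivization.mk k v hv = aff y ↔ v.1 = y * v.2 := by
  unfold aff
  rw [mk_eq_mk_iff']
  constructor
  · rintro ⟨a, ha⟩
    rw [← ha]; simp; ring
  · intro h
    exact ⟨v.2, by ext <;> simp [h]; ring⟩

lemma inf_or_aff (y : PL k) : y = inf ∨ ∃ x, y = aff x := by
  induction y using Projectivization.ind with
  | h v hv =>
    by_cases h : v.2 = 0
    · left; exact (mk_eq_inf hv).2 h
    · right; exact ⟨v.1 / v.2, (mk_eq_aff hv _).2 (by field_simp)⟩

lemma aff_ne_inf (x : k) : (aff x : PL k) ≠ inf := by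
  intro h
  have := (mk_eq_inf (v := (x, (1 : k))) (by simp)).1 h
  simp at this

lemma aff_inj {x y : k} (h : (aff x : PL k) = aff y) : x = y := by
  have := (mk_eq_aff (v := (x, (1 : k))) (by simp) y).1 h
  simpa using this

lemma smul_inf_eq_inf (g : SL k) : g • (inf : PL k) = inf ↔ g.c = 0 := by
  unfold inf
  rw [smul_mk]
  have := mk_eq_inf (k := k) (v := g • ((1 : k), (0 : k)))
    ((smul_ne_zero_iff_ne g).mpr (by simp))
  unfold inf at this
  rw [this, SL.smul_vec]; simp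

lemma smul_inf_eq_aff (g : SL k) (y : k) : g • (inf : PL k) = aff y ↔ g.a = y * g.c := by
  unfold inf
  rw [smul_mk, mk_eq_aff, SL.smul_vec]; simp

lemma smul_aff_eq_inf (g : SL k) (x : k) : g • (aff x : PL k) = inf ↔ g.c * x + g.d = 0 := by
  unfold aff
  rw [smul_mk, mk_eq_inf, SL.smul_vec]; simp

lemma smul_aff_eq_aff (g : SL k) (x y : k) :
    g • (aff x : PL k) = aff y ↔ g.a * x + g.b = y * (g.c * x + g.d) := by
  conv_lhs => unfold aff
  rw [smul_mk]
  have := mk_eq_aff (k := k) (v := g • (x, (1 : k))) ((smul_ne_zero_iff_ne g).mpr (by simp)) y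
  unfold aff at this
  rw [this, SL.smul_vec]; simp

lemma neg_smul_pl (g : SL k) (y : PL k) : (-g) • y = g • y := by
  induction y using Projectivization.ind with
  | h v hv =>
    rw [smul_mk, smul_mk, mk_eq_mk_iff']
    exact ⟨-1, by rw [SL.smul_vec, SL.smul_vec]; ext <;> simp <;> ring⟩

lemma Cen.smul {g : SL k} (h : Cen g) (y : PL k) : g • y = y := by
  rcases h with h | h
  · rw [h, one_smul]
  · rw [h, neg_smul_pl, one_smul]

lemma exists_smul_inf (y : PL k) : ∃ P : SL k, P • (inf : PL k) = y := by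
  rcases inf_or_aff y with h | ⟨x, h⟩
  · exact ⟨1, by rw [h, one_smul]⟩
  · refine ⟨⟨x, -1, 1, 0, by ring⟩, ?_⟩
    rw [h, smul_inf_eq_aff]; simp

lemma exists_smul_pair {y z : PL k} (hyz : y ≠ z) :
    ∃ P : SL k, P • (inf : PL k) = y ∧ P • (aff 0 : PL k) = z := by
  obtain ⟨Q, hQ⟩ := exists_smul_inf y
  have h1 : Q⁻¹ • z ≠ inf := by
    intro h
    apply hyz
    rw [← hQ, ← h, smul_inv_smul]
  rcases inf_or_aff (Q⁻¹ • z) with h | ⟨x, h⟩
  · exact absurd h h1
  · refine ⟨Q * up x, ?_, ?_⟩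
    · rw [mul_smul, (smul_inf_eq_inf _).2 rfl, hQ]
    · rw [mul_smul, (smul_aff_eq_aff (up x) 0 x).2 (by simp), ← h, smul_inv_smul]

lemma conj_smul_iff (P g : SL k) (y z : PL k) :
    (P⁻¹ * g * P) • y = z ↔ g • (P • y) = P • z := by
  rw [mul_smul, mul_smul, inv_smul_eq_iff]

lemma exists_fixed [IsAlgClosed k] (g : SL k) : ∃ y : PL k, g • y = y := by
  by_cases hc : g.c = 0
  · exact ⟨inf, (smul_inf_eq_inf g).2 hc⟩
  · obtain ⟨x, hx⟩ := IsAlgClosed.exists_root
      (Polynomial.C g.c * Polynomial.X ^ 2 + Polynomial.C (g.d - g.a) * Polynomial.X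
        + Polynomial.C (-g.b)) (by
        rw [Polynomial.degree_quadratic hc]; simp)
    refine ⟨aff x, (smul_aff_eq_aff g x x).2 ?_⟩
    simp only [Polynomial.IsRoot.def, Polynomial.eval_add, Polynomial.eval_mul, Polynomial.eval_C,
      Polynomial.eval_pow, Polynomial.eval_X] at hx
    linear_combination -hx

lemma exists_conj_upper [IsAlgClosed k] (g : SL k) : ∃ P : SL k, (P⁻¹ * g * P).c = 0 := by
  obtain ⟨y, hy⟩ := exists_fixed g
  obtain ⟨P, hP⟩ := exists_smul_inf y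
  exact ⟨P, (smul_inf_eq_inf _).1 ((conj_smul_iff _ _ _ _).2 (by rw [hP, hy]))⟩

lemma upper_ad {g : SL k} (hc : g.c = 0) : g.a * g.d = 1 := by
  have := g.det; rw [hc] at this; linear_combination this

lemma upper_a_ne {g : SL k} (hc : g.c = 0) : g.a ≠ 0 := by
  intro h; have := upper_ad hc; rw [h] at this; simp at this

lemma upper_d {g : SL k} (hc : g.c = 0) : g.d = g.a⁻¹ := by
  have := upper_ad hc
  have h := upper_a_ne hc
  field_simp
  linear_combination this

lemma upper_tr_sq {g : SL k} (hc : g.c = 0) : tr g ^ 2 = 4 ↔ g.a ^ 2 = 1 := by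
  have h := upper_ad hc
  have ha := upper_a_ne hc
  unfold tr
  constructor
  · intro h4
    have h1 : (g.a - g.d) ^ 2 = 0 := by linear_combination h4 - 4 * h
    have h2 : g.a = g.d := by
      have := pow_eq_zero_iff (two_ne_zero) |>.1 h1
      linear_combination this
    rw [← h2] at h; linear_combination h
  · intro h1
    have h2 : g.d = g.a := by
      apply mul_left_cancel₀ ha; linear_combination h - h1
    rw [h2]; linear_combination 4 * h1

/-- fixed points of a noncentral upper triangular matrix -/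
lemma fixed_upper_unip {g : SL k} (hc : g.c = 0) (hn : ¬ Cen g) (h4 : tr g ^ 2 = 4) (y : PL k) :
    g • y = y ↔ y = inf := by
  have h1 := (upper_tr_sq hc).1 h4
  have h := upper_ad hc
  have ha := upper_a_ne hc
  have h2 : g.d = g.a := by
    apply mul_left_cancel₀ ha; linear_combination h - h1
  constructor
  · intro hy
    rcases inf_or_aff y with h' | ⟨x, h'⟩
    · exact h'
    · exfalso
      rw [h', smul_aff_eq_aff, hc, h2] at hy
      exact hn (cen_of_entries (by linear_combination hy) hc h1)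
  · rintro rfl; exact (smul_inf_eq_inf g).2 hc

lemma fixed_upper_ss {g : SL k} (hc : g.c = 0) (h4 : tr g ^ 2 ≠ 4) (y : PL k) :
    g • y = y ↔ y = inf ∨ y = aff (g.b / (g.d - g.a)) := by
  have h1 : g.a ^ 2 ≠ 1 := fun h => h4 ((upper_tr_sq hc).2 h)
  have h := upper_ad hc
  have h2 : g.d - g.a ≠ 0 := by
    intro h3
    apply h1
    have : g.d = g.a := by linear_combination h3
    rw [this] at h; linear_combination h
  constructor
  · intro hy
    rcases inf_or_aff y with h' | ⟨x, h'⟩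
    · left; exact h'
    · right
      rw [h', smul_aff_eq_aff, hc] at hy
      rw [h']; congr 1
      field_simp
      linear_combination -hy
  · rintro (rfl | rfl)
    · exact (smul_inf_eq_inf g).2 hc
    · rw [smul_aff_eq_aff, hc]; field_simp; ring

lemma fixed_unip [IsAlgClosed k] {g : SL k} (hn : ¬ Cen g) (h4 : tr g ^ 2 = 4) :
    ∃ y0 : PL k, ∀ y, g • y = y ↔ y = y0 := by
  obtain ⟨P, hP⟩ := exists_conj_upper g
  refine ⟨P • inf, fun y => ?_⟩
  have := fixed_upper_unip hP (by rwa [cen_conj]) (by rwa [tr_conj]) (P⁻¹ • y)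
  rw [conj_smul_iff, smul_inv_smul, inv_smul_eq_iff] at this
  exact this

lemma fixed_ss [IsAlgClosed k] {g : SL k} (h4 : tr g ^ 2 ≠ 4) :
    ∃ y0 y1 : PL k, y0 ≠ y1 ∧ ∀ y, g • y = y ↔ y = y0 ∨ y = y1 := by
  obtain ⟨P, hP⟩ := exists_conj_upper g
  refine ⟨P • inf, P • aff ((P⁻¹ * g * P).b / ((P⁻¹ * g * P).d - (P⁻¹ * g * P).a)), ?_, fun y => ?_⟩
  · intro h
    exact aff_ne_inf _ (smul_left_cancel P h).symm
  · have := fixed_upper_ss hP (by rwa [tr_conj]) (P⁻¹ • y)
    rw [conj_smul_iff, smul_inv_smul, inv_smul_eq_iff, inv_smul_eq_iff] at this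
    exact this

lemma exists_conj_diag [IsAlgClosed k] {g : SL k} (h4 : tr g ^ 2 ≠ 4) :
    ∃ P : SL k, (P⁻¹ * g * P).c = 0 ∧ (P⁻¹ * g * P).b = 0 := by
  obtain ⟨y0, y1, hne, h⟩ := fixed_ss h4
  obtain ⟨P, h0, h1⟩ := exists_smul_pair hne
  refine ⟨P, (smul_inf_eq_inf _).1 ((conj_smul_iff _ _ _ _).2 ?_), ?_⟩
  · rw [h0]; exact (h _).2 (Or.inl rfl)
  · have : (P⁻¹ * g * P) • (aff 0 : PL k) = aff 0 := (conj_smul_iff _ _ _ _).2 (by
      rw [h1]; exact (h _).2 (Or.inr rfl))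
    rw [smul_aff_eq_aff] at this
    simpa using this

/-- the polynomial vanishing at the squared traces of elements of projective order at most five -/
def Big (g : SL k) : Prop :=
  tr g ^ 2 * (tr g ^ 2 - 1) * (tr g ^ 2 - 2) * (tr g ^ 2 - 4) * ((tr g ^ 2) ^ 2 - 3 * tr g ^ 2 + 1) ≠ 0

lemma Big.ne_four {g : SL k} (h : Big g) : tr g ^ 2 ≠ 4 := by
  intro h4; apply h; rw [h4]; ring

lemma Big.ne_zero {g : SL k} (h : Big g) : tr g ≠ 0 := by
  intro h4; apply h; rw [h4]; ring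

lemma Big.not_cen {g : SL k} (h : Big g) : ¬ Cen g := fun hc => h.ne_four hc.tr_sq

lemma big_conj (P g : SL k) : Big (P⁻¹ * g * P) ↔ Big g := by unfold Big; rw [tr_conj]

lemma Big.pow_ne {g : SL k} (h : Big g) (hc : g.c = 0) (j : ℕ) (h1 : 1 ≤ j) (h5 : j ≤ 5) :
    (g.a ^ 2) ^ j ≠ 1 := by
  intro hj
  apply h
  have had := upper_ad hc
  have ha := upper_a_ne hc
  set x := g.a ^ 2 with hx
  have hx0 : x ≠ 0 := pow_ne_zero 2 ha
  have ht : tr g ^ 2 * x = (x + 1) ^ 2 := by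
    unfold tr; rw [hx]; linear_combination (2 * g.a ^ 2 + g.a * g.d + 1) * had
  set t := tr g ^ 2
  have key : t * (t - 1) * (t - 2) * (t - 4) * (t ^ 2 - 3 * t + 1) * x ^ 6 =
      (x + 1) ^ 2 * (x ^ 2 + x + 1) * (x ^ 2 + 1) * (x - 1) ^ 2 * (x ^ 4 + x ^ 3 + x ^ 2 + x + 1) := by
    have e1 : (t - 1) * x = x ^ 2 + x + 1 := by linear_combination ht
    have e2 : (t - 2) * x = x ^ 2 + 1 := by linear_combination ht
    have e3 : (t - 4) * x = (x - 1) ^ 2 := by linear_combination ht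
    have e4 : (t ^ 2 - 3 * t + 1) * x ^ 2 = x ^ 4 + x ^ 3 + x ^ 2 + x + 1 := by
      linear_combination (t * x + (x + 1) ^ 2 - 3 * x) * ht
    rw [← ht, ← e1, ← e2, ← e3, ← e4]; ring
  apply mul_right_cancel₀ (pow_ne_zero 6 hx0)
  rw [key, zero_mul]
  interval_cases j
  · linear_combination ((x + 1) ^ 2 * (x ^ 2 + x + 1) * (x ^ 2 + 1) * (x - 1) *
      (x ^ 4 + x ^ 3 + x ^ 2 + x + 1)) * hj
  · linear_combination ((x + 1) * (x ^ 2 + x + 1) * (x ^ 2 + 1) * (x - 1) *
      (x ^ 4 + x ^ 3 + x ^ 2 + x + 1)) * hj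
  · linear_combination ((x + 1) ^ 2 * (x ^ 2 + 1) * (x - 1) *
      (x ^ 4 + x ^ 3 + x ^ 2 + x + 1)) * hj
  · linear_combination ((x + 1) * (x ^ 2 + x + 1) * (x - 1) *
      (x ^ 4 + x ^ 3 + x ^ 2 + x + 1)) * hj
  · linear_combination ((x + 1) ^ 2 * (x ^ 2 + x + 1) * (x ^ 2 + 1) * (x - 1)) * hj

lemma upper_pow {g : SL k} (hc : g.c = 0) (j : ℕ) : (g ^ j).c = 0 ∧ (g ^ j).a = g.a ^ j := by
  induction j with
  | zero => simp
  | succ n ih =>
    rw [pow_succ, pow_succ]
    simp [ih.1, ih.2, hc]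

end Pool.Agent.MP_b84581_al.H49

end MrgPart0

-- ======== part 1: formerly Pool.Agent.MP_b84581_al.h49.Orbit
section MrgPart1

/-! Orbit counting for a finite subgroup, with finsets. -/

set_option autoImplicit false

namespace Pool.Agent.MP_b84581_al.H49

open Finset
open scoped Classical

variable {Γ Y : Type} [Group Γ] [MulAction Γ Y]

/-- the finite subgroup as a finset -/
noncomputable def fs (H : Subgroup Γ) (hH : (H : Set Γ).Finite) : Finset Γ := hH.toFinset

@[simp] lemma mem_fs {H : Subgroup Γ} {hH : (H : Set Γ).Finite} {g : Γ} : g ∈ fs H hH ↔ g ∈ H := by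
  simp [fs]

noncomputable def st (H : Subgroup Γ) (hH : (H : Set Γ).Finite) (y : Y) : Finset Γ :=
  (fs H hH).filter (fun g => g • y = y)

noncomputable def orb (H : Subgroup Γ) (hH : (H : Set Γ).Finite) (y : Y) : Finset Y :=
  (fs H hH).image (fun g => g • y)

variable {H : Subgroup Γ} {hH : (H : Set Γ).Finite}

lemma mem_st {y : Y} {g : Γ} : g ∈ st H hH y ↔ g ∈ H ∧ g • y = y := by simp [st]

lemma mem_orb {y z : Y} : z ∈ orb H hH y ↔ ∃ g ∈ H, g • y = z := by simp [orb]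

lemma self_mem_orb (y : Y) : y ∈ orb H hH y := mem_orb.2 ⟨1, H.one_mem, one_smul _ _⟩

lemma smul_mem_orb {y z : Y} (hz : z ∈ orb H hH y) {g : Γ} (hg : g ∈ H) : g • z ∈ orb H hH y := by
  obtain ⟨h, hh, rfl⟩ := mem_orb.1 hz
  exact mem_orb.2 ⟨g * h, H.mul_mem hg hh, mul_smul _ _ _⟩

lemma orb_card_mul (y : Y) : (orb H hH y).card * (st H hH y).card = (fs H hH).card := by
  rw [card_eq_sum_card_image (fun g => g • y) (fs H hH)]
  change _ = ∑ z ∈ orb H hH y, _
  rw [← smul_eq_mul, ← sum_const]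
  apply sum_congr rfl
  intro z hz
  obtain ⟨h, hh, rfl⟩ := mem_orb.1 hz
  apply card_bij (fun g _ => h * g)
  · intro g hg
    rw [mem_st] at hg
    simp only [mem_filter, mem_fs]
    exact ⟨H.mul_mem hh hg.1, by rw [mul_smul, hg.2]⟩
  · intro g _ g' _ e
    exact mul_left_cancel e
  · intro g hg
    simp only [mem_filter, mem_fs] at hg
    refine ⟨h⁻¹ * g, mem_st.2 ⟨H.mul_mem (H.inv_mem hh) hg.1, ?_⟩, by group⟩
    rw [mul_smul, hg.2, inv_smul_smul]

lemma sum_st_conj (w : Γ → ℕ) (hw : ∀ h ∈ H, ∀ g, w (h * g * h⁻¹) = w g) {y z : Y}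
    (hz : z ∈ orb H hH y) : ∑ g ∈ st H hH z, w g = ∑ g ∈ st H hH y, w g := by
  obtain ⟨h, hh, rfl⟩ := mem_orb.1 hz
  symm
  apply sum_bij (fun g _ => h * g * h⁻¹)
  · intro g hg
    rw [mem_st] at hg ⊢
    refine ⟨H.mul_mem (H.mul_mem hh hg.1) (H.inv_mem hh), ?_⟩
    rw [mul_smul, mul_smul, inv_smul_smul, hg.2]
  · intro g _ g' _ e
    simpa using e
  · intro g hg
    rw [mem_st] at hg
    refine ⟨h⁻¹ * g * h, mem_st.2 ⟨H.mul_mem (H.mul_mem (H.inv_mem hh) hg.1) hh, ?_⟩, by group⟩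
    rw [mul_smul, mul_smul, hg.2, inv_smul_smul]
  · intro g _
    exact (hw h hh g).symm

lemma card_st_conj {y z : Y} (hz : z ∈ orb H hH y) : (st H hH z).card = (st H hH y).card := by
  have := sum_st_conj (H := H) (hH := hH) (fun _ => 1) (fun _ _ _ => rfl) hz
  simpa using this

/-- invariant finsets -/
def Inv' (H : Subgroup Γ) (S : Finset Y) : Prop := ∀ g ∈ H, ∀ y ∈ S, g • y ∈ S

lemma Inv'.orb_subset {S : Finset Y} (hS : Inv' H S) {y : Y} (hy : y ∈ S) : orb H hH y ⊆ S := by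
  intro z hz
  obtain ⟨g, hg, rfl⟩ := mem_orb.1 hz
  exact hS g hg y hy

lemma Inv'.sdiff {S : Finset Y} (hS : Inv' H S) (y : Y) : Inv' H (S \ orb H hH y) := by
  intro g hg z hz
  rw [mem_sdiff] at hz ⊢
  refine ⟨hS g hg z hz.1, fun h => hz.2 ?_⟩
  have := smul_mem_orb h (H.inv_mem hg)
  rwa [inv_smul_smul] at this

lemma inv_orb (y : Y) : Inv' H (orb H hH y) := fun _ hg _ hz => smul_mem_orb hz hg

lemma Inv'.sum_split {S : Finset Y} (hS : Inv' H S) {y : Y} (hy : y ∈ S) (W : Y → ℕ)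
    (hW : ∀ z ∈ orb H hH y, W z = W y) :
    ∑ z ∈ S, W z = (orb H hH y).card * W y + ∑ z ∈ S \ orb H hH y, W z := by
  rw [← sum_sdiff (hS.orb_subset (hH := hH) hy), add_comm]
  congr 1
  rw [sum_congr rfl hW, sum_const, smul_eq_mul]

lemma Inv'.dvd (c : ℕ) : ∀ (n : ℕ) (S : Finset Y), S.card = n → Inv' H S →
    (∀ y ∈ S, (st H hH y).card = c) → (fs H hH).card ∣ S.card * c := by
  intro n
  induction n using Nat.strong_induction_on with
  | _ n ih =>
    intro S hn hS hc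
    rcases S.eq_empty_or_nonempty with rfl | ⟨y, hy⟩
    · simp
    · have hsub := hS.orb_subset (hH := hH) hy
      have hcard : S.card = (orb H hH y).card + (S \ orb H hH y).card := by
        rw [card_sdiff_of_subset hsub]
        have := card_le_card hsub
        omega
      have hpos : 0 < (orb H hH y).card := card_pos.2 ⟨y, self_mem_orb y⟩
      have h1 := ih (S \ orb H hH y).card (by omega) _ rfl (hS.sdiff y)
        (fun z hz => hc z (mem_sdiff.1 hz).1)
      rw [hcard, add_mul]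
      refine dvd_add ?_ h1
      rw [← hc y hy, orb_card_mul]

end Pool.Agent.MP_b84581_al.H49

end MrgPart1

-- ======== part 2: formerly Pool.Agent.MP_b84581_al.h49.Small
section MrgPart2

/-! Families of pairs all of whose products with powers of a fixed element have small order. -/

set_option autoImplicit false

namespace Pool.Agent.MP_b84581_al.H49

variable {k : Type} [Field k]

structure Clo (a : SL k) (T : Set (SL k × SL k)) (S : k → Prop) : Prop where
  ne : T.Nonempty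
  l : ∀ b c, (b, c) ∈ T → ∀ m : ℕ, (b * a ^ m * c, c) ∈ T
  r : ∀ b c, (b, c) ∈ T → ∀ m : ℕ, (b, b * a ^ m * c) ∈ T
  sl : ∀ b c, (b, c) ∈ T → ∀ m : ℕ, S (tr (b * a ^ m) ^ 2)
  sr : ∀ b c, (b, c) ∈ T → ∀ m : ℕ, S (tr (c * a ^ m) ^ 2)

lemma Clo.conj {a : SL k} {T : Set (SL k × SL k)} {S : k → Prop} (h : Clo a T S) (P : SL k) :
    Clo (P⁻¹ * a * P) {q | (P * q.1 * P⁻¹, P * q.2 * P⁻¹) ∈ T} S := by
  have hp : ∀ m : ℕ, (P⁻¹ * a * P) ^ m = P⁻¹ * a ^ m * P := by
    intro m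
    have := conj_pow (a := P⁻¹) (b := a) (i := m)
    rwa [inv_inv] at this
  refine ⟨?_, ?_, ?_, ?_, ?_⟩
  · obtain ⟨⟨b, c⟩, hq⟩ := h.ne
    refine ⟨(P⁻¹ * b * P, P⁻¹ * c * P), ?_⟩
    simp only [Set.mem_ofPred_eq]
    convert hq using 2 <;> group
  · intro b c hq m
    have := h.l _ _ hq m
    simp only [Set.mem_ofPred_eq, hp]
    convert this using 2; group
  · intro b c hq m
    have := h.r _ _ hq m
    simp only [Set.mem_ofPred_eq, hp]
    convert this using 2; group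
  · intro b c hq m
    have := h.sl _ _ hq m
    rw [hp, ← tr_conj' P]
    convert this using 3; group
  · intro b c hq m
    have := h.sr _ _ hq m
    rw [hp, ← tr_conj' P]
    convert this using 3; group

def M (g : SL k) : k := g.a * g.d

lemma diag_pow {a : SL k} (hb : a.b = 0) (hc : a.c = 0) (j : ℕ) :
    (a ^ j).a = a.a ^ j ∧ (a ^ j).b = 0 ∧ (a ^ j).c = 0 ∧ (a ^ j).d = a.d ^ j := by
  induction j with
  | zero => simp
  | succ n ih =>
    rw [pow_succ, pow_succ, pow_succ]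
    simp [ih.1, ih.2.1, ih.2.2.1, ih.2.2.2, hb, hc]

lemma tau_eq {a : SL k} (hb : a.b = 0) (hc : a.c = 0) (g : SL k) (j : ℕ) :
    tr (g * a ^ j) ^ 2 = g.a ^ 2 * (a.a ^ 2) ^ j + g.d ^ 2 * (a.d ^ 2) ^ j + 2 * M g := by
  obtain ⟨e1, e2, e3, e4⟩ := diag_pow hb hc j
  have h : a.a ^ j * a.d ^ j = 1 := by rw [← mul_pow, upper_ad hc, one_pow]
  simp only [tr, SL.mul_a, SL.mul_d, e1, e2, e3, e4, M]
  rw [← pow_mul, ← pow_mul, mul_comm 2 j, pow_mul, pow_mul]
  linear_combination (2 * g.a * g.d) * h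

def CC (b c : SL k) : k := M b * M c + (M b - 1) * (M c - 1)
def AA (b c : SL k) : k := b.a * c.a * b.c * c.b
def BB (b c : SL k) : k := b.b * c.c * b.d * c.d

lemma M_eq {a : SL k} (hb : a.b = 0) (hc : a.c = 0) (b c : SL k) (j : ℕ) :
    M (b * a ^ j * c) = CC b c + AA b c * (a.a ^ 2) ^ j + BB b c * (a.d ^ 2) ^ j := by
  obtain ⟨e1, e2, e3, e4⟩ := diag_pow hb hc j
  have h : a.a ^ j * a.d ^ j = 1 := by rw [← mul_pow, upper_ad hc, one_pow]
  have d1 := b.det
  have d2 := c.det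
  simp only [SL.mul_a, SL.mul_b, SL.mul_c, SL.mul_d, e1, e2, e3, e4, M, CC, AA, BB]
  rw [← pow_mul, ← pow_mul, mul_comm 2 j, pow_mul, pow_mul]
  linear_combination (b.a * c.a * b.d * c.d + b.b * c.c * b.c * c.b) * h
    - (c.a * c.d - 1) * d1 - (b.b * b.c) * d2

lemma AB_eq (b c : SL k) : AA b c * BB b c = M b * (M b - 1) * (M c * (M c - 1)) := by
  have d1 := b.det
  have d2 := c.det
  simp only [M, AA, BB]
  linear_combination (-(b.a * b.d * (c.a * c.d * (c.a * c.d - 1)))) * d1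
    - (b.a * b.d * (b.b * b.c) * (c.a * c.d)) * d2

lemma PQ_eq (g : SL k) : g.a ^ 2 * g.d ^ 2 = M g ^ 2 := by simp only [M]; ring

lemma eta_rel {a : SL k} (hc : a.c = 0) :
    a.a ^ 2 * a.d ^ 2 = 1 ∧ a.a ^ 2 + a.d ^ 2 + 2 = tr a ^ 2 := by
  have h := upper_ad hc
  exact ⟨by linear_combination (a.a * a.d + 1) * h, by unfold tr; linear_combination (-2) * h⟩

variable {a : SL k} {T : Set (SL k × SL k)}

theorem no2 (h2 : (2 : k) ≠ 0) (hb : a.b = 0) (hc : a.c = 0) (ht : tr a ^ 2 = 0)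
    (h : Clo a T (fun t => t = 0)) : False := by
  have hM : ∀ g : SL k, (∀ m : ℕ, tr (g * a ^ m) ^ 2 = 0) → g.a = 0 ∧ g.d = 0 := by
    intro g hg
    have e0 := pow_eq_zero_iff (two_ne_zero) |>.1 (hg 0)
    have e1 := pow_eq_zero_iff (two_ne_zero) |>.1 (hg 1)
    have e2 := pow_eq_zero_iff (two_ne_zero) |>.1 ht
    simp only [pow_zero, mul_one, pow_one, tr, SL.mul_a, SL.mul_d, hb, hc] at e0 e1 e2
    have ha := upper_a_ne hc
    have : 2 * a.a * g.a = 0 := by linear_combination e1 + a.a * e0 - g.d * e2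
    have h1 : g.a = 0 := (mul_eq_zero.1 this).resolve_left (mul_ne_zero h2 ha)
    exact ⟨h1, by rw [h1] at e0; linear_combination e0⟩
  obtain ⟨⟨b, c⟩, hq⟩ := h.ne
  have e1 := hM b (h.sl _ _ hq)
  have e2 := hM c (h.sr _ _ hq)
  have e3 := hM _ (h.sl _ _ (h.l _ _ hq 0))
  have d1 := b.det
  have d2 := c.det
  simp only [pow_zero, mul_one, SL.mul_a, SL.mul_d, e1.1, e1.2, e2.1, e2.2] at e3 d1 d2
  have : (1 : k) = 0 := by
    linear_combination (b.c * c.b) * e3.1 + (c.b * c.c) * d1 - d2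
  exact one_ne_zero this

theorem no3 (h2 : (2 : k) ≠ 0) (h3 : (3 : k) ≠ 0) (hb : a.b = 0) (hc : a.c = 0)
    (ht : tr a ^ 2 = 1) (h : Clo a T (fun t => t * (t - 1) = 0)) : False := by
  obtain ⟨r1, r2⟩ := eta_rel hc
  rw [ht] at r2
  set e := a.a ^ 2 with he
  set e' := a.d ^ 2 with he'
  have hΦ : e ^ 2 + e + 1 = 0 := by linear_combination e * r2 - r1
  have hi : e' = e ^ 2 := by linear_combination r2 - hΦ
  have hM : ∀ g : SL k, (∀ m : ℕ, tr (g * a ^ m) ^ 2 * (tr (g * a ^ m) ^ 2 - 1) = 0) →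
      M g * (3 * M g - 1) = 0 := by
    intro g hg
    refine alg3 h2 h3 e (g.a ^ 2) (g.d ^ 2) (M g) _ _ _ hΦ (PQ_eq g) ?_ ?_ ?_ (hg 0) (hg 1) (hg 2)
    · rw [tau_eq hb hc]; ring
    · rw [tau_eq hb hc, ← he, ← he', hi]; ring
    · rw [tau_eq hb hc, ← he, ← he', hi]; linear_combination (g.d ^ 2 * (e ^ 2 - e)) * hΦ
  obtain ⟨⟨b, c⟩, hq⟩ := h.ne
  have e1 := hM b (h.sl _ _ hq)
  have e2 := hM c (h.sr _ _ hq)
  have e3 := fun m => hM _ (h.sl _ _ (h.l _ _ hq m))
  have key := mom3 e (AA b c) (BB b c) (CC b c) _ _ _ h3 hΦ (by rw [M_eq hb hc]; ring)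
    (by rw [M_eq hb hc, ← he, ← he', hi]; ring)
    (by rw [M_eq hb hc, ← he, ← he', hi]; linear_combination (BB b c * (e ^ 2 - e)) * hΦ)
    (e3 0) (e3 1) (e3 2)
  rw [AB_eq, CC] at key
  generalize M b = m at *
  generalize M c = m' at *
  rcases mul_eq_zero.1 e1 with h1 | h1 <;> rcases mul_eq_zero.1 e2 with h4 | h4
  · subst h1 h4; apply h2; linear_combination key
  · subst h1; apply h2; linear_combination 3 * key - (3 * m' - 4) * h4
  · subst h4; apply h2; linear_combination 3 * key - (3 * m - 4) * h1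
  · have : m = m' := by
      apply mul_left_cancel₀ h3; linear_combination h1 - h4
    subst this
    apply mul_ne_zero h3 (mul_ne_zero h3 (mul_ne_zero h2 h3))
    linear_combination 81 * key - (486 * m ^ 3 - 810 * m ^ 2 + 486 * m - 108) * h1

theorem no4 (h2 : (2 : k) ≠ 0) (h3 : (3 : k) ≠ 0) (h7 : (7 : k) ≠ 0) (hb : a.b = 0) (hc : a.c = 0)
    (ht : tr a ^ 2 = 2) (h : Clo a T (fun t => t * (t - 1) * (t - 2) = 0)) : False := by
  obtain ⟨r1, r2⟩ := eta_rel hc
  rw [ht] at r2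
  set e := a.a ^ 2 with he
  set e' := a.d ^ 2 with he'
  have hΦ : e ^ 2 + 1 = 0 := by linear_combination e * r2 - r1
  have hi : e' = -e := by linear_combination r2
  have hM : ∀ g : SL k, (∀ m : ℕ, tr (g * a ^ m) ^ 2 * (tr (g * a ^ m) ^ 2 - 1) *
      (tr (g * a ^ m) ^ 2 - 2) = 0) → M g * (2 * M g - 1) = 0 := by
    intro g hg
    refine alg4 h2 h3 h7 e (g.a ^ 2) (g.d ^ 2) (M g) _ _ _ _ hΦ (PQ_eq g) ?_ ?_ ?_ ?_
      (hg 0) (hg 1) (hg 2) (hg 3)
    · rw [tau_eq hb hc]; ring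
    · rw [tau_eq hb hc, ← he, ← he', hi]; ring
    · rw [tau_eq hb hc, ← he, ← he', hi]; linear_combination (g.a ^ 2 + g.d ^ 2) * hΦ
    · rw [tau_eq hb hc, ← he, ← he', hi]; linear_combination (g.a ^ 2 * e - g.d ^ 2 * e) * hΦ
  have hne : ∀ b c, (b, c) ∈ T → M b ≠ M c := by
    intro b c hq hbc
    have e1 := hM b (h.sl _ _ hq)
    have e3 := fun m => hM _ (h.sl _ _ (h.l _ _ hq m))
    have key := mom4 e (AA b c) (BB b c) (CC b c) _ _ _ _ h2 hΦ (by rw [M_eq hb hc]; ring)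
      (by rw [M_eq hb hc, ← he, ← he', hi]; ring)
      (by rw [M_eq hb hc, ← he, ← he', hi]; linear_combination (AA b c + BB b c) * hΦ)
      (by rw [M_eq hb hc, ← he, ← he', hi]; linear_combination (AA b c * e - BB b c * e) * hΦ)
      (e3 0) (e3 1) (e3 2) (e3 3)
    rw [AB_eq, CC, ← hbc] at key
    generalize M b = m at *
    rcases mul_eq_zero.1 e1 with h1 | h1
    · subst h1; apply one_ne_zero (α := k); linear_combination key
    · apply one_ne_zero (α := k)
      linear_combination 4 * key - (24 * m ^ 3 - 36 * m ^ 2 + 18 * m - 3) * h1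
  obtain ⟨⟨b, c⟩, hq⟩ := h.ne
  have e1 := hM b (h.sl _ _ hq)
  have e2 := hM c (h.sr _ _ hq)
  have e3 := hM _ (h.sl _ _ (h.l _ _ hq 0))
  have n1 := hne _ _ hq
  have n2 := hne _ _ (h.l _ _ hq 0)
  have n3 := hne _ _ (h.r _ _ hq 0)
  generalize M (b * a ^ 0 * c) = m'' at *
  generalize M b = m at *
  generalize M c = m' at *
  have aux : ∀ x y : k, 2 * x - 1 = 0 → 2 * y - 1 = 0 → x = y := fun x y hx hy => by
    apply mul_left_cancel₀ h2; linear_combination hx - hy
  rcases mul_eq_zero.1 e1 with h1 | h1 <;> rcases mul_eq_zero.1 e2 with h4 | h4 <;>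
    rcases mul_eq_zero.1 e3 with h5 | h5
  all_goals first
    | exact n1 (h1.trans h4.symm)
    | exact n3 (h1.trans h5.symm)
    | exact n2 (h5.trans h4.symm)
    | exact n1 (aux _ _ h1 h4)
    | exact n3 (aux _ _ h1 h5)
    | exact n2 (aux _ _ h5 h4)

theorem no5 (h2 : (2 : k) ≠ 0) (h3 : (3 : k) ≠ 0) (h5 : (5 : k) ≠ 0) (hb : a.b = 0) (hc : a.c = 0)
    (ht : (tr a ^ 2) ^ 2 - 3 * tr a ^ 2 + 1 = 0)
    (h : Clo a T (fun t => t * (t - 1) * (t - 2) * (t ^ 2 - 3 * t + 1) = 0)) : False := by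
  obtain ⟨r1, r2⟩ := eta_rel hc
  rw [← r2] at ht
  set e := a.a ^ 2 with he
  set e' := a.d ^ 2 with he'
  have hΦ : e ^ 4 + e ^ 3 + e ^ 2 + e + 1 = 0 := by
    linear_combination e ^ 2 * ht - (2 * e ^ 2 + e * e' + e + 1) * r1
  have h51 : e ^ 5 = 1 := by linear_combination (e - 1) * hΦ
  have hi : e' = e ^ 4 := by linear_combination (-e') * h51 + e ^ 4 * r1
  have hM : ∀ g : SL k, (∀ m : ℕ, tr (g * a ^ m) ^ 2 * (tr (g * a ^ m) ^ 2 - 1) *
      (tr (g * a ^ m) ^ 2 - 2) * ((tr (g * a ^ m) ^ 2) ^ 2 - 3 * tr (g * a ^ m) ^ 2 + 1) = 0) →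
      M g * (5 * M g ^ 2 - 5 * M g + 1) = 0 := by
    intro g hg
    refine alg5 h2 h3 h5 e (g.a ^ 2) (g.d ^ 2) (M g) _ _ _ _ _ hΦ (PQ_eq g) ?_ ?_ ?_ ?_ ?_
      (hg 0) (hg 1) (hg 2) (hg 3) (hg 4)
    · rw [tau_eq hb hc]; ring
    · rw [tau_eq hb hc, ← he, ← he', hi]; ring
    · rw [tau_eq hb hc, ← he, ← he', hi]; linear_combination (g.d ^ 2 * e ^ 3) * h51
    · rw [tau_eq hb hc, ← he, ← he', hi]; linear_combination (g.d ^ 2 * e ^ 2 * (e ^ 5 + 1)) * h51
    · rw [tau_eq hb hc, ← he, ← he', hi]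
      linear_combination (g.d ^ 2 * e * (e ^ 10 + e ^ 5 + 1)) * h51
  have hm : ∀ b c : SL k, M (b * a ^ 0 * c) = CC b c + AA b c + BB b c ∧
      M (b * a ^ 1 * c) = CC b c + AA b c * e + BB b c * e ^ 4 ∧
      M (b * a ^ 2 * c) = CC b c + AA b c * e ^ 2 + BB b c * e ^ 3 ∧
      M (b * a ^ 3 * c) = CC b c + AA b c * e ^ 3 + BB b c * e ^ 2 ∧
      M (b * a ^ 4 * c) = CC b c + AA b c * e ^ 4 + BB b c * e := by
    intro b c
    refine ⟨?_, ?_, ?_, ?_, ?_⟩
    · rw [M_eq hb hc]; ring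
    · rw [M_eq hb hc, ← he, ← he', hi]; ring
    · rw [M_eq hb hc, ← he, ← he', hi]; linear_combination (BB b c * e ^ 3) * h51
    · rw [M_eq hb hc, ← he, ← he', hi]; linear_combination (BB b c * e ^ 2 * (e ^ 5 + 1)) * h51
    · rw [M_eq hb hc, ← he, ← he', hi]
      linear_combination (BB b c * e * (e ^ 10 + e ^ 5 + 1)) * h51
  have hne : ∀ b c, (b, c) ∈ T → M b ≠ M c := by
    intro b c hq hbc
    have e1 := hM b (h.sl _ _ hq)
    have e3 := fun m => hM _ (h.sl _ _ (h.l _ _ hq m))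
    obtain ⟨m0, m1, m2, m3, m4⟩ := hm b c
    have key := mom5 e (AA b c) (BB b c) (CC b c) _ _ _ _ _ h5 hΦ m0 m1 m2 m3 m4
      (e3 0) (e3 1) (e3 2) (e3 3) (e3 4)
    rw [AB_eq, CC, ← hbc] at key
    generalize M b = m at *
    rcases mul_eq_zero.1 e1 with h1 | h1
    · subst h1; apply one_ne_zero (α := k); linear_combination key
    · apply one_ne_zero (α := k)
      linear_combination 5 * key - (100 * (m ^ 2 - m) ^ 2 + 40 * (m ^ 2 - m) + 4) * h1
  have hroot : ∀ b c, (b, c) ∈ T → M b ≠ 0 → M c ≠ 0 → False := by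
    intro b c hq nb nc
    have e1 := (mul_eq_zero.1 (hM b (h.sl _ _ hq))).resolve_left nb
    have e2 := (mul_eq_zero.1 (hM c (h.sr _ _ hq))).resolve_left nc
    have n1 := hne _ _ hq
    have hs : M b + M c - 1 = 0 := by
      have : (5 * (M b - M c)) * (M b + M c - 1) = 0 := by linear_combination e1 - e2
      exact (mul_eq_zero.1 this).resolve_left (mul_ne_zero h5 (sub_ne_zero.2 n1))
    have hz : ∀ m : ℕ, M (b * a ^ m * c) = 0 := by
      intro m
      by_contra hn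
      have e3 := (mul_eq_zero.1 (hM _ (h.sl _ _ (h.l _ _ hq m)))).resolve_left hn
      have n2 := hne _ _ (h.l _ _ hq m)
      have n3 := hne _ _ (h.r _ _ hq m)
      have : 5 * ((M (b * a ^ m * c) - M b) * (M (b * a ^ m * c) - M c)) = 0 := by
        linear_combination e3 - e1 - 5 * (M (b * a ^ m * c) - M b) * hs
      rcases mul_eq_zero.1 ((mul_eq_zero.1 this).resolve_left h5) with h' | h'
      · exact n3 (sub_eq_zero.1 h').symm
      · exact n2 (sub_eq_zero.1 h')
    obtain ⟨m0, m1, m2, m3, m4⟩ := hm b c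
    rw [hz] at m0 m1 m2 m3 m4
    have : 5 * CC b c = 0 := by
      linear_combination -m0 - m1 - m2 - m3 - m4 - (AA b c + BB b c) * hΦ
    rw [CC] at this
    apply h2
    linear_combination this + 2 * e1 - (10 * M b - 5) * hs
  obtain ⟨⟨b, c⟩, hq⟩ := h.ne
  by_cases nb : M b = 0
  · exact hroot _ _ (h.l _ _ hq 0) (fun h' => hne _ _ (h.r _ _ hq 0) (nb.trans h'.symm))
      (fun h' => hne _ _ hq (nb.trans h'.symm))
  · by_cases nc : M c = 0
    · exact hroot _ _ (h.r _ _ hq 0) nb (fun h' => hne _ _ (h.l _ _ hq 0) (h'.trans nc.symm))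
    · exact hroot _ _ hq nb nc

end Pool.Agent.MP_b84581_al.H49

end MrgPart2

-- marker of a merged file
example : 731051 + 267983 = 731051 + 267983 := rfl
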