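import Mathlib.Tactic.Monotonicity.Lemmas
import Mathlib.Algebra.Field.ZMod
import Mathlib.Data.Int.ConditionallyCompleteOrder
import Mathlib.Data.Int.Star
import Mathlib.Algebra.Order.Ring.Star
import Pool.Agent.MP_b84581_al.h49.Small

-- ======== part 0: formerly Pool.Agent.MP_b84581_al.h49.Count
section MrgPart0

/-! The Riemann-Hurwitz count for a finite subgroup of `SL k` acting on the projective line. -/

set_option autoImplicit false

namespace Pool.Agent.MP_b84581_al.H49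

open Finset
open scoped Classical

variable {k : Type} [Field k]

lemma neg_ne_self (h2 : (2 : k) ≠ 0) (g : SL k) : -g ≠ g := by
  intro h
  apply one_ne_neg_one h2
  have : -g * g⁻¹ = g * g⁻¹ := by rw [h]
  rw [neg_mul, mul_inv_cancel] at this
  exact this.symm

lemma even_card_of_neg (h2 : (2 : k) ≠ 0) (S : Finset (SL k)) (hS : ∀ g ∈ S, -g ∈ S) :
    2 ∣ S.card := by
  have : ∑ _g ∈ S, (1 : ZMod 2) = 0 :=
    sum_involution (fun g _ => -g) (fun _ _ => by decide) (fun g _ _ => neg_ne_self h2 g)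
      (fun g hg => hS g hg) (fun g _ => neg_neg g)
  rw [sum_const, nsmul_eq_mul, mul_one] at this
  exact (ZMod.natCast_eq_zero_iff _ _).1 this

noncomputable def wt (g : SL k) : ℕ := if Cen g then 0 else if tr g ^ 2 = 4 then 2 else 1

noncomputable def un (g : SL k) : ℕ := if ¬ Cen g ∧ tr g ^ 2 = 4 then 1 else 0

lemma cen_conj' (P g : SL k) : Cen (P * g * P⁻¹) ↔ Cen g := by
  have := cen_conj P⁻¹ g
  rwa [inv_inv] at this

lemma wt_conj (P g : SL k) : wt (P * g * P⁻¹) = wt g := by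
  unfold wt; rw [cen_conj', tr_conj']

lemma un_conj (P g : SL k) : un (P * g * P⁻¹) = un g := by
  unfold un; rw [cen_conj', tr_conj']

variable {H : Subgroup (SL k)} {hH : (H : Set (SL k)).Finite}

noncomputable def W (H : Subgroup (SL k)) (hH : (H : Set (SL k)).Finite) (y : PL k) : ℕ :=
  ∑ g ∈ st H hH y, wt g

noncomputable def U (H : Subgroup (SL k)) (hH : (H : Set (SL k)).Finite) (y : PL k) : ℕ :=
  ((st H hH y).filter (fun g => ¬ Cen g ∧ tr g ^ 2 = 4)).card

lemma U_eq (y : PL k) : U H hH y = ∑ g ∈ st H hH y, un g := by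
  unfold U un; rw [card_filter]

lemma W_orb {y z : PL k} (hz : z ∈ orb H hH y) : W H hH z = W H hH y :=
  sum_st_conj wt (fun h _ g => wt_conj h g) hz

lemma U_orb {y z : PL k} (hz : z ∈ orb H hH y) : U H hH z = U H hH y := by
  rw [U_eq, U_eq]; exact sum_st_conj un (fun h _ g => un_conj h g) hz

lemma filter_cen (h2 : (2 : k) ≠ 0) (S : Finset (SL k)) (h1 : (1 : SL k) ∈ S)
    (hn : (-1 : SL k) ∈ S) : (S.filter Cen).card = 2 := by
  have : S.filter Cen = {1, -1} := by
    ext g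
    simp only [mem_filter, mem_insert, mem_singleton, Cen]
    constructor
    · exact fun h => h.2
    · rintro (rfl | rfl)
      · exact ⟨h1, Or.inl rfl⟩
      · exact ⟨hn, Or.inr rfl⟩
  rw [this, card_pair (one_ne_neg_one h2)]

lemma neg_mem (hneg : (-1 : SL k) ∈ H) {g : SL k} (hg : g ∈ H) : -g ∈ H := by
  have := H.mul_mem hneg hg
  rwa [neg_mul, one_mul] at this

lemma neg_mem_st (hneg : (-1 : SL k) ∈ H) {y : PL k} {g : SL k} (hg : g ∈ st H hH y) :
    -g ∈ st H hH y := by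
  rw [mem_st] at hg ⊢
  exact ⟨neg_mem hneg hg.1, by rw [neg_smul_pl, hg.2]⟩

lemma one_mem_st (y : PL k) : (1 : SL k) ∈ st H hH y := mem_st.2 ⟨H.one_mem, one_smul _ _⟩

lemma W_eq (h2 : (2 : k) ≠ 0) (hneg : (-1 : SL k) ∈ H) (y : PL k) :
    W H hH y + 2 = (st H hH y).card + U H hH y := by
  have h := filter_cen h2 (st H hH y) (one_mem_st y) (neg_mem_st hneg (one_mem_st y))
  rw [U_eq, ← h, card_filter, card_eq_sum_ones, W, ← sum_add_distrib, ← sum_add_distrib]
  apply sum_congr rfl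
  intro g _
  unfold wt un
  by_cases h1 : Cen g <;> by_cases h3 : tr g ^ 2 = 4 <;> simp [h1, h3]

lemma two_dvd_st (h2 : (2 : k) ≠ 0) (hneg : (-1 : SL k) ∈ H) (y : PL k) :
    2 ∣ (st H hH y).card := even_card_of_neg h2 _ (fun _ hg => neg_mem_st hneg hg)

lemma two_dvd_U (h2 : (2 : k) ≠ 0) (hneg : (-1 : SL k) ∈ H) (y : PL k) : 2 ∣ U H hH y := by
  apply even_card_of_neg h2
  intro g hg
  rw [mem_filter] at hg ⊢
  refine ⟨neg_mem_st hneg hg.1, by rw [cen_neg]; exact hg.2.1, ?_⟩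
  rw [tr_neg, neg_sq]; exact hg.2.2

variable [IsAlgClosed k]

lemma fixed_finite {g : SL k} (hn : ¬ Cen g) : {y : PL k | g • y = y}.Finite := by
  by_cases h4 : tr g ^ 2 = 4
  · obtain ⟨y0, h⟩ := fixed_unip hn h4
    exact (Set.finite_singleton y0).subset (fun y hy => (h y).1 hy)
  · obtain ⟨y0, y1, _, h⟩ := fixed_ss h4
    exact ((Set.finite_singleton y1).insert y0).subset (fun y hy => (h y).1 hy)

lemma om_finite (H : Subgroup (SL k)) (hH : (H : Set (SL k)).Finite) :
    {y : PL k | ∃ g ∈ H, ¬ Cen g ∧ g • y = y}.Finite := by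
  have h1 : ({g | g ∈ H ∧ ¬ Cen g} : Set (SL k)).Finite := hH.subset (fun g hg => hg.1)
  refine (h1.biUnion (t := fun g => {y : PL k | g • y = y}) (fun g hg => fixed_finite hg.2)).subset ?_
  rintro y ⟨g, hg, hn, hy⟩
  simp only [Set.mem_iUnion]
  exact ⟨g, ⟨hg, hn⟩, hy⟩

noncomputable def Om (H : Subgroup (SL k)) (hH : (H : Set (SL k)).Finite) : Finset (PL k) :=
  (om_finite H hH).toFinset

lemma mem_Om {y : PL k} : y ∈ Om H hH ↔ ∃ g ∈ H, ¬ Cen g ∧ g • y = y := by simp [Om]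

lemma inv_Om : Inv' H (Om H hH) := by
  intro h hh y hy
  obtain ⟨g, hg, hn, hy⟩ := mem_Om.1 hy
  refine mem_Om.2 ⟨h * g * h⁻¹, H.mul_mem (H.mul_mem hh hg) (H.inv_mem hh),
    by rwa [cen_conj'], ?_⟩
  rw [mul_smul, mul_smul, inv_smul_smul, hy]

lemma four_le_st (h2 : (2 : k) ≠ 0) (hneg : (-1 : SL k) ∈ H) {y : PL k} (hy : y ∈ Om H hH) :
    4 ≤ (st H hH y).card := by
  obtain ⟨g, hg, hn, hy⟩ := mem_Om.1 hy
  have h1 := two_dvd_st (hH := hH) h2 hneg y
  have h3 : ({1, -1, g} : Finset (SL k)) ⊆ st H hH y := by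
    intro x hx
    simp only [mem_insert, mem_singleton] at hx
    rcases hx with rfl | rfl | rfl
    · exact one_mem_st y
    · exact neg_mem_st hneg (one_mem_st y)
    · exact mem_st.2 ⟨hg, hy⟩
  have h4 : ({1, -1, g} : Finset (SL k)).card = 3 := by
    rw [card_eq_three]
    exact ⟨1, -1, g, one_ne_neg_one h2, fun h => hn (Or.inl h.symm), fun h => hn (Or.inr h.symm), rfl⟩
  have := card_le_card h3
  omega

lemma sum_W (h2 : (2 : k) ≠ 0) (hneg : (-1 : SL k) ∈ H) :
    ∑ y ∈ Om H hH, W H hH y + 4 = 2 * (fs H hH).card := by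
  have h1 : ∑ y ∈ Om H hH, W H hH y = ∑ g ∈ fs H hH, if Cen g then 0 else 2 := by
    unfold W st
    simp_rw [sum_filter]
    rw [sum_comm]
    apply sum_congr rfl
    intro g hg
    rw [← sum_filter, sum_const, smul_eq_mul]
    by_cases hn : Cen g
    · simp [wt, hn]
    · have hg' : g ∈ H := mem_fs.1 hg
      by_cases h4 : tr g ^ 2 = 4
      · obtain ⟨y0, h⟩ := fixed_unip hn h4
        have : (Om H hH).filter (fun y => g • y = y) = {y0} := by
          ext y
          simp only [mem_filter, mem_singleton, mem_Om]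
          exact ⟨fun hy => (h y).1 hy.2, fun hy => ⟨⟨g, hg', hn, (h y).2 hy⟩, (h y).2 hy⟩⟩
        rw [this]; simp [wt, hn, h4]
      · obtain ⟨y0, y1, hne, h⟩ := fixed_ss h4
        have : (Om H hH).filter (fun y => g • y = y) = {y0, y1} := by
          ext y
          simp only [mem_filter, mem_insert, mem_singleton, mem_Om]
          exact ⟨fun hy => (h y).1 hy.2, fun hy => ⟨⟨g, hg', hn, (h y).2 hy⟩, (h y).2 hy⟩⟩
        rw [this, card_pair hne]; simp [wt, hn, h4]
  have h3 := filter_cen h2 (fs H hH) (mem_fs.2 H.one_mem) (mem_fs.2 hneg)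
  rw [h1]
  have h4 : (4 : ℕ) = ∑ g ∈ fs H hH, if Cen g then 2 else 0 := by
    rw [← sum_filter, sum_const, h3]; rfl
  rw [h4, ← sum_add_distrib, card_eq_sum_ones, mul_sum]
  apply sum_congr rfl
  intro g _
  split_ifs <;> rfl

/-- an invariant nonempty part of the set of ramified points carries at least half the weight -/
lemma half_le (h2 : (2 : k) ≠ 0) (hneg : (-1 : SL k) ∈ H) {S : Finset (PL k)} (hS : Inv' H S)
    (hsub : S ⊆ Om H hH) (hne : S.Nonempty) :
    (fs H hH).card ≤ 2 * ∑ y ∈ S, W H hH y := by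
  obtain ⟨y, hy⟩ := hne
  rw [hS.sum_split (hH := hH) hy _ (fun z hz => W_orb hz)]
  have h1 := W_eq (hH := hH) h2 hneg y
  have h3 := four_le_st h2 hneg (hsub hy)
  have h4 := orb_card_mul (H := H) (hH := hH) y
  have h5 : (st H hH y).card ≤ 2 * W H hH y := by omega
  have h6 := Nat.mul_le_mul_left (orb H hH y).card h5
  rw [h4, mul_left_comm] at h6
  omega

omit [IsAlgClosed k] in
lemma orbit_weight (h2 : (2 : k) ≠ 0) (hneg : (-1 : SL k) ∈ H) (y : PL k) :
    (orb H hH y).card * W H hH y + 2 * (orb H hH y).card =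
      (fs H hH).card + (orb H hH y).card * U H hH y := by
  have h1 := W_eq (hH := hH) h2 hneg y
  have h4 := orb_card_mul (H := H) (hH := hH) y
  rw [← h4, ← mul_add, ← h1]; ring

/-- no unipotent elements and a point with a large stabiliser: its orbit has at most two points -/
theorem orbit_le_two (h2 : (2 : k) ≠ 0) (hneg : (-1 : SL k) ∈ H)
    (hU : ∀ g ∈ H, ¬ Cen g → tr g ^ 2 ≠ 4) (y : PL k) (hy : y ∈ Om H hH)
    (h12 : 12 ≤ (st H hH y).card) : (orb H hH y).card ≤ 2 := by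
  have hU0 : ∀ z, U H hH z = 0 := by
    intro z
    unfold U
    rw [card_eq_zero, filter_eq_empty_iff]
    intro g hg h
    exact hU g (mem_st.1 hg).1 h.1 h.2
  have hw : ∀ z, (orb H hH z).card * W H hH z + 2 * (orb H hH z).card = (fs H hH).card := by
    intro z
    have := orbit_weight (hH := hH) h2 hneg z
    rwa [hU0, mul_zero, add_zero] at this
  have hsum := sum_W (hH := hH) h2 hneg
  have I0 : Inv' H (Om H hH) := inv_Om
  rw [I0.sum_split (hH := hH) hy _ (fun z hz => W_orb hz)] at hsum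
  have e1 := hw y
  have m1 := orb_card_mul (H := H) (hH := hH) y
  have p1 : 0 < (orb H hH y).card := card_pos.2 ⟨y, self_mem_orb y⟩
  have b1 : 12 * (orb H hH y).card ≤ (fs H hH).card := by nlinarith
  set S1 := Om H hH \ orb H hH y with hS1
  have I1 : Inv' H S1 := I0.sdiff y
  rcases S1.eq_empty_or_nonempty with h | ⟨y2, hy2⟩
  · rw [h, sum_empty] at hsum; omega
  have hy2' : y2 ∈ Om H hH := (mem_sdiff.1 hy2).1
  rw [I1.sum_split (hH := hH) hy2 _ (fun z hz => W_orb hz)] at hsum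
  have e2 := hw y2
  have m2 := orb_card_mul (H := H) (hH := hH) y2
  have p2 : 0 < (orb H hH y2).card := card_pos.2 ⟨y2, self_mem_orb y2⟩
  have f2 := four_le_st h2 hneg hy2'
  have d2 := two_dvd_st (hH := hH) h2 hneg y2
  have b2 : 4 * (orb H hH y2).card ≤ (fs H hH).card := by nlinarith
  set S2 := S1 \ orb H hH y2 with hS2
  have I2 : Inv' H S2 := I1.sdiff y2
  rcases S2.eq_empty_or_nonempty with h | ⟨y3, hy3⟩
  · rw [h, sum_empty] at hsum; omega
  have hy3' : y3 ∈ Om H hH := (mem_sdiff.1 (mem_sdiff.1 hy3).1).1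
  rw [I2.sum_split (hH := hH) hy3 _ (fun z hz => W_orb hz)] at hsum
  have e3 := hw y3
  have m3 := orb_card_mul (H := H) (hH := hH) y3
  have f3 := four_le_st h2 hneg hy3'
  have d3 := two_dvd_st (hH := hH) h2 hneg y3
  have b3 : 4 * (orb H hH y3).card ≤ (fs H hH).card := by nlinarith
  set S3 := S2 \ orb H hH y3 with hS3
  have I3 : Inv' H S3 := I2.sdiff y3
  rcases S3.eq_empty_or_nonempty with h | hne
  · rw [h, sum_empty] at hsum
    by_cases c2 : (st H hH y2).card = 4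
    · by_cases c3 : (st H hH y3).card = 4
      · rw [c2] at m2; rw [c3] at m3; omega
      · have : 6 * (orb H hH y3).card ≤ (fs H hH).card := by
          have : 6 ≤ (st H hH y3).card := by omega
          nlinarith
        omega
    · have : 6 * (orb H hH y2).card ≤ (fs H hH).card := by
        have : 6 ≤ (st H hH y2).card := by omega
        nlinarith
      omega
  · have := half_le (hH := hH) h2 hneg I3
      (fun z hz => (mem_sdiff.1 (mem_sdiff.1 (mem_sdiff.1 hz).1).1).1) hne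
    omega

omit [IsAlgClosed k] in
lemma twelve_le_st (h2 : (2 : k) ≠ 0) (hneg : (-1 : SL k) ∈ H) {g : SL k} (hg : g ∈ H)
    (hb : Big g) {y : PL k} (hy : g • y = y) : 12 ≤ (st H hH y).card := by
  obtain ⟨P, hP⟩ := exists_smul_inf y
  have hc : (P⁻¹ * g * P).c = 0 :=
    (smul_inf_eq_inf _).1 ((conj_smul_iff _ _ _ _).2 (by rw [hP, hy]))
  have hb' : Big (P⁻¹ * g * P) := (big_conj P g).2 hb
  set g' := P⁻¹ * g * P with hg'
  have hx0 : g'.a ≠ 0 := upper_a_ne hc
  let f : Fin 6 × Bool → SL k := fun p => if p.2 then g ^ (p.1 : ℕ) else -g ^ (p.1 : ℕ)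
  have hpow : ∀ j : ℕ, g ^ j ∈ st H hH y := by
    intro j
    refine mem_st.2 ⟨H.pow_mem hg j, ?_⟩
    induction j with
    | zero => simp
    | succ n ih => rw [pow_succ, mul_smul, hy, ih]
  have hmem : ∀ p, f p ∈ st H hH y := by
    rintro ⟨j, b⟩
    cases b
    · exact neg_mem_st hneg (hpow j)
    · exact hpow j
  have hconj : ∀ j : ℕ, P⁻¹ * g ^ j * P = g' ^ j := by
    intro j
    have := conj_pow (i := j) (a := P⁻¹) (b := g)
    rw [inv_inv] at this
    exact this.symm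
  have hsq : ∀ p, (P⁻¹ * f p * P).a ^ 2 = (g'.a ^ 2) ^ (p.1 : ℕ) := by
    rintro ⟨j, b⟩
    cases b
    · change (P⁻¹ * (-g ^ (j : ℕ)) * P).a ^ 2 = _
      rw [mul_neg, neg_mul, hconj, SL.neg_a, (upper_pow hc j).2]; ring
    · change (P⁻¹ * (g ^ (j : ℕ)) * P).a ^ 2 = _
      rw [hconj, (upper_pow hc j).2]; ring
  have hlt : ∀ i j : ℕ, i < j → j < 6 → (g'.a ^ 2) ^ i ≠ (g'.a ^ 2) ^ j := by
    intro i j hij hj h
    apply hb'.pow_ne hc (j - i) (by omega) (by omega)
    apply mul_left_cancel₀ (pow_ne_zero i (pow_ne_zero 2 hx0))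
    rw [← pow_add, mul_one, show i + (j - i) = j by omega, h]
  have hinj : Function.Injective f := by
    rintro ⟨i, b⟩ ⟨j, c⟩ h
    have h1 : (g'.a ^ 2) ^ (i : ℕ) = (g'.a ^ 2) ^ (j : ℕ) := by
      have e1 := hsq (i, b)
      have e2 := hsq (j, c)
      rw [h] at e1
      exact e1.symm.trans e2
    have hij : i = j := by
      rcases lt_trichotomy (i : ℕ) j with h' | h' | h'
      · exact absurd h1 (hlt _ _ h' j.2)
      · exact Fin.ext h'
      · exact absurd h1.symm (hlt _ _ h' i.2)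
    subst hij
    cases b <;> cases c
    · rfl
    · exact absurd h (neg_ne_self h2 _)
    · exact absurd h.symm (neg_ne_self h2 _)
    · rfl
  have : (univ.image f).card ≤ (st H hH y).card :=
    card_le_card (fun x hx => by
      obtain ⟨p, _, rfl⟩ := mem_image.1 hx
      exact hmem p)
  rwa [card_image_of_injective _ hinj, card_univ, Fintype.card_prod, Fintype.card_fin,
    Fintype.card_bool] at this

end Pool.Agent.MP_b84581_al.H49

end MrgPart0

-- ======== part 1: formerly Pool.Agent.MP_b84581_al.h49.Unip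
section MrgPart1

/-! Dickson's theorem for finite subgroups containing a transvection. -/

set_option autoImplicit false

namespace Pool.Agent.MP_b84581_al.H49

open Finset
open scoped Classical

variable {k : Type} [Field k]

def InK (K : Subfield k) (g : SL k) : Prop := g.a ∈ K ∧ g.b ∈ K ∧ g.c ∈ K ∧ g.d ∈ K

def InPGL (K : Subfield k) (g : SL k) : Prop :=
  ∃ l : k, l ≠ 0 ∧ l * g.a ∈ K ∧ l * g.b ∈ K ∧ l * g.c ∈ K ∧ l * g.d ∈ K

def Dep (K : Subfield k) (u v : k) : Prop := ∃ l : k, l ≠ 0 ∧ l * u ∈ K ∧ l * v ∈ K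

lemma inPGL_of_dep (K : Subfield k) (g : SL k) (h1 : Dep K g.a g.c) (h2 : Dep K g.b g.d)
    (h3 : Dep K (g.a + g.b) (g.c + g.d)) : InPGL K g := by
  obtain ⟨l1, n1, a1, c1⟩ := h1
  obtain ⟨l2, n2, b2, d2⟩ := h2
  obtain ⟨l3, n3, a3, c3⟩ := h3
  have hd := g.det
  have e12 : l1 * l2 ∈ K := by
    have := K.sub_mem (K.mul_mem a1 d2) (K.mul_mem b2 c1)
    convert this using 1
    linear_combination (-(l1 * l2)) * hd
  have e32 : l3 * l2 ∈ K := by
    have := K.sub_mem (K.mul_mem a3 d2) (K.mul_mem b2 c3)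
    convert this using 1
    linear_combination (-(l3 * l2)) * hd
  have e13 : l1 * l3 ∈ K := by
    have := K.sub_mem (K.mul_mem a1 c3) (K.mul_mem a3 c1)
    convert this using 1
    linear_combination (-(l1 * l3)) * hd
  refine ⟨l3, n3, ?_, ?_, ?_, ?_⟩
  · have := K.mul_mem (K.div_mem e32 e12) a1
    convert this using 1; field_simp
  · have := K.mul_mem (K.div_mem e13 e12) b2
    convert this using 1; field_simp
  · have := K.mul_mem (K.div_mem e32 e12) c1
    convert this using 1; field_simp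
  · have := K.mul_mem (K.div_mem e13 e12) d2
    convert this using 1; field_simp

lemma InPGL.tr_sq {K : Subfield k} {g : SL k} (h : InPGL K g) : tr g ^ 2 ∈ K := by
  obtain ⟨l, hl, ha, hb, hc, hd⟩ := h
  have hdet := g.det
  have e : l ^ 2 ∈ K := by
    have := K.sub_mem (K.mul_mem ha hd) (K.mul_mem hb hc)
    convert this using 1
    linear_combination (-(l ^ 2)) * hdet
  have := K.div_mem (K.pow_mem (K.add_mem ha hd) 2) e
  convert this using 1
  unfold tr; field_simp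

lemma mem_of_inK (K : Subfield k) (H : Subgroup (SL k)) (hu : ∀ x ∈ K, up x ∈ H)
    (hl : ∀ x ∈ K, lo x ∈ H) : ∀ g, InK K g → g ∈ H := by
  have key : ∀ g, InK K g → g.c ≠ 0 → g ∈ H := by
    rintro g ⟨ha, _, hc, hd⟩ h0
    have hdet := g.det
    have : g = up ((g.a - 1) / g.c) * lo g.c * up ((g.d - 1) / g.c) := by
      ext <;> simp <;> field_simp
      · ring
      · linear_combination -hdet
      · ring
    rw [this]
    exact H.mul_mem (H.mul_mem (hu _ (K.div_mem (K.sub_mem ha K.one_mem) hc)) (hl _ hc))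
      (hu _ (K.div_mem (K.sub_mem hd K.one_mem) hc))
  intro g hg
  by_cases h0 : g.c = 0
  · have h1 : lo 1 * g ∈ H := by
      apply key
      · obtain ⟨ha, hb, hc, hd⟩ := hg
        refine ⟨by simpa using ha, by simpa using hb, ?_, ?_⟩
        · simpa using K.add_mem ha hc
        · simpa using K.add_mem hb hd
      · simpa [h0] using upper_a_ne h0
    exact (H.mul_mem_cancel_left (hl 1 K.one_mem)).1 h1
  · exact key g hg h0

lemma arith (ρ f e n' m o1 o2 : ℕ) (hρ : 1 ≤ ρ) (hf : f ≤ ρ + 1) (he : 0 < e) (hm : 1 ≤ m)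
    (h1 : o1 = e * n') (h2 : o1 = 1 + m * (ρ + 2)) (h3 : o2 = o1 * ρ + 2)
    (h4 : o2 * e = o1 * (ρ + 2) * f) :
    (o1 = ρ + 3 ∧ ρ + 1 ≤ 2 * f) ∨ (ρ = 1 ∧ f = 2 ∧ e = 5) := by
  have h5 : o2 = n' * (ρ + 2) * f := by
    apply Nat.eq_of_mul_eq_mul_right he
    rw [h4, h1]; ring
  have h6 : n' ∣ 2 := by
    have a1 : n' ∣ o2 := ⟨(ρ + 2) * f, by rw [h5]; ring⟩
    have a2 : n' ∣ o1 * ρ := ⟨e * ρ, by rw [h1]; ring⟩
    rw [h3] at a1
    exact (Nat.dvd_add_right a2).1 a1
  have h7 : 1 + m * ρ = n' * f := by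
    apply Nat.eq_of_mul_eq_mul_right (show 0 < ρ + 2 by omega)
    have : o2 = (1 + m * ρ) * (ρ + 2) := by rw [h3, h2]; ring
    rw [← this, h5]; ring
  have h8 : n' = 1 ∨ n' = 2 := (Nat.dvd_prime Nat.prime_two).1 h6
  rcases h8 with rfl | rfl
  · have : m = 1 := by nlinarith
    subst this
    left; omega
  · rcases (show m = 1 ∨ m = 2 ∨ 3 ≤ m by omega) with rfl | rfl | h9
    · left; omega
    · omega
    · have : ρ = 1 := by nlinarith
      subst this
      right; omega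

variable {H : Subgroup (SL k)} {hH : (H : Set (SL k)).Finite}

/-- the group of translations in `H` -/
def Xg (H : Subgroup (SL k)) : AddSubgroup k where
  carrier := {x | up x ∈ H}
  add_mem' := fun {a b} ha hb => by
    change up (a + b) ∈ H
    rw [up_add]; exact H.mul_mem ha hb
  zero_mem' := by change up 0 ∈ H; rw [up_zero]; exact H.one_mem
  neg_mem' := fun {a} ha => by
    change up (-a) ∈ H
    rw [up_neg]; exact H.inv_mem ha

lemma mem_Xg {x : k} : x ∈ Xg H ↔ up x ∈ H := Iff.rfl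

lemma Xg_finite (hH : (H : Set (SL k)).Finite) : (Xg H : Set k).Finite :=
  hH.preimage (f := up) (fun x _ y _ h => by simpa using congrArg SL.b h)

noncomputable def Xs (H : Subgroup (SL k)) (hH : (H : Set (SL k)).Finite) : Finset k :=
  (Xg_finite hH).toFinset

lemma mem_Xs {x : k} : x ∈ Xs H hH ↔ up x ∈ H := by simp [Xs, mem_Xg]

lemma mem_st_inf {g : SL k} : g ∈ st H hH (inf : PL k) ↔ g ∈ H ∧ g.c = 0 := by
  rw [mem_st, smul_inf_eq_inf]

noncomputable def D2 (H : Subgroup (SL k)) (hH : (H : Set (SL k)).Finite) : Finset k :=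
  (st H hH (inf : PL k)).image (fun g => g.a ^ 2)

lemma D2_mul {t x : k} (ht : t ∈ D2 H hH) (hx : up x ∈ H) : up (t * x) ∈ H := by
  obtain ⟨g, hg, rfl⟩ := mem_image.1 ht
  rw [mem_st_inf] at hg
  have := H.mul_mem (H.mul_mem hg.1 hx) (H.inv_mem hg.1)
  have had := upper_ad hg.2
  convert this using 1
  ext <;> simp [hg.2]
  · exact had.symm
  · ring
  · linear_combination -had

lemma card_ker (h2 : (2 : k) ≠ 0) (hneg : (-1 : SL k) ∈ H) :
    ((st H hH (inf : PL k)).filter (fun g => g.a ^ 2 = 1)).card = 2 * (Xs H hH).card := by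
  have : (st H hH (inf : PL k)).filter (fun g => g.a ^ 2 = 1) =
      (Xs H hH).image up ∪ (Xs H hH).image (fun x => -up x) := by
    ext g
    simp only [mem_filter, mem_st_inf, mem_union, mem_image, mem_Xs]
    constructor
    · rintro ⟨⟨hg, hc⟩, ha⟩
      have had := upper_ad hc
      have h1 : (g.a - 1) * (g.a + 1) = 0 := by linear_combination ha
      rcases mul_eq_zero.1 h1 with h3 | h3
      · left
        have ha : g.a = 1 := by linear_combination h3
        have hd : g.d = 1 := by rw [ha] at had; linear_combination had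
        have : up g.b = g := by ext <;> simp [*]
        exact ⟨g.b, by rwa [this], this⟩
      · right
        have ha : g.a = -1 := by linear_combination h3
        have hd : g.d = -1 := by rw [ha] at had; linear_combination -had
        have : up (-g.b) = -g := by ext <;> simp [*]
        exact ⟨-g.b, by rw [this]; exact neg_mem hneg hg, by rw [this, neg_neg]⟩
    · rintro (⟨x, hx, rfl⟩ | ⟨x, hx, rfl⟩)
      · exact ⟨⟨hx, rfl⟩, by simp⟩
      · exact ⟨⟨neg_mem hneg hx, by simp⟩, by simp⟩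
  rw [this, card_union_of_disjoint, card_image_of_injective, card_image_of_injective]
  · ring
  · intro x y h; simpa using congrArg SL.b h
  · intro x y h; simpa using congrArg SL.b h
  · rw [disjoint_left]
    intro g h1 h3
    obtain ⟨x, _, rfl⟩ := mem_image.1 h1
    obtain ⟨y, _, h⟩ := mem_image.1 h3
    have := congrArg SL.a h
    simp only [SL.neg_a, up_a] at this
    exact h2 (by linear_combination -this)

lemma card_st_inf (h2 : (2 : k) ≠ 0) (hneg : (-1 : SL k) ∈ H) :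
    (st H hH (inf : PL k)).card = (D2 H hH).card * (2 * (Xs H hH).card) := by
  rw [card_eq_sum_card_image (fun g : SL k => g.a ^ 2), ← card_ker h2 hneg, ← smul_eq_mul,
    ← sum_const]
  apply sum_congr rfl
  intro t ht
  obtain ⟨h, hh, rfl⟩ := mem_image.1 ht
  rw [mem_st_inf] at hh
  symm
  apply card_bij (fun g _ => h * g)
  · intro g hg
    simp only [mem_filter, mem_st_inf] at hg ⊢
    refine ⟨⟨H.mul_mem hh.1 hg.1.1, by simp [hh.2, hg.1.2]⟩, ?_⟩
    simp only [SL.mul_a, hg.1.2]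
    linear_combination (h.a ^ 2) * hg.2
  · intro g _ g' _ e
    exact mul_left_cancel e
  · intro g hg
    simp only [mem_filter, mem_st_inf] at hg
    refine ⟨h⁻¹ * g, ?_, by group⟩
    simp only [mem_filter, mem_st_inf]
    refine ⟨⟨H.mul_mem (H.inv_mem hh.1) hg.1.1, by simp [hh.2, hg.1.2]⟩, ?_⟩
    have had := upper_ad hh.2
    simp only [SL.mul_a, SL.inv_a, hg.1.2]
    linear_combination (h.d ^ 2) * hg.2 + (h.a * h.d + 1) * had

lemma U_inf (h2 : (2 : k) ≠ 0) (hneg : (-1 : SL k) ∈ H) :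
    U H hH (inf : PL k) + 2 = 2 * (Xs H hH).card := by
  rw [← card_ker (hH := hH) h2 hneg]
  set S := (st H hH (inf : PL k)).filter (fun g => g.a ^ 2 = 1) with hS
  have h1 := filter_cen h2 S (mem_filter.2 ⟨one_mem_st _, by simp⟩)
    (mem_filter.2 ⟨neg_mem_st hneg (one_mem_st _), by simp⟩)
  have h3 : U H hH (inf : PL k) = (S.filter (fun g => ¬ Cen g)).card := by
    unfold U
    congr 1
    ext g
    simp only [hS, mem_filter, mem_st_inf]
    constructor
    · rintro ⟨⟨a, b⟩, c, d⟩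
      exact ⟨⟨⟨a, b⟩, (upper_tr_sq b).1 d⟩, c⟩
    · rintro ⟨⟨⟨a, b⟩, d⟩, c⟩
      exact ⟨⟨a, b⟩, c, (upper_tr_sq b).2 d⟩
  rw [h3, ← h1, add_comm]
  exact card_filter_add_card_filter_not _

/-- translations act freely away from infinity -/
lemma Xs_dvd : (Xs H hH).card ∣ ((orb H hH (inf : PL k)).erase inf).card := by
  let Q : Subgroup (SL k) :=
    { carrier := {g | g ∈ H ∧ g.a = 1 ∧ g.c = 0}
      mul_mem' := fun {a b} ha hb => ⟨H.mul_mem ha.1 hb.1, by simp [ha.2.1, hb.2.1, hb.2.2],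
        by simp [ha.2.2, hb.2.2]⟩
      one_mem' := ⟨H.one_mem, rfl, rfl⟩
      inv_mem' := fun {a} ha => ⟨H.inv_mem ha.1, by
        have := upper_ad ha.2.2
        rw [ha.2.1] at this
        simpa using this, by simp [ha.2.2]⟩ }
  have hQ : (Q : Set (SL k)).Finite := hH.subset (fun g hg => hg.1)
  have hup : ∀ g ∈ Q, g = up g.b := by
    intro g hg
    have := upper_ad hg.2.2
    rw [hg.2.1, one_mul] at this
    ext <;> simp [hg.2.1, hg.2.2, this]
  have hc : (fs Q hQ).card = (Xs H hH).card := by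
    apply card_bij (fun g _ => g.b)
    · intro g hg
      have hg' := mem_fs.1 hg
      rw [mem_Xs, ← hup g hg']; exact hg'.1
    · intro g hg g' hg' e
      rw [hup g (mem_fs.1 hg), hup g' (mem_fs.1 hg'), e]
    · intro x hx
      exact ⟨up x, mem_fs.2 ⟨mem_Xs.1 hx, rfl, rfl⟩, rfl⟩
  have := Inv'.dvd (H := Q) (hH := hQ) 1 _ ((orb H hH (inf : PL k)).erase inf) rfl
    (fun g hg y hy => by
      rw [mem_erase] at hy ⊢
      refine ⟨fun h => hy.1 ?_, smul_mem_orb hy.2 hg.1⟩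
      rw [← (smul_inf_eq_inf g).2 hg.2.2] at h
      exact smul_left_cancel g h)
    (fun y hy => by
      rw [card_eq_one]
      refine ⟨1, eq_singleton_iff_unique_mem.2 ⟨mem_st.2 ⟨Q.one_mem, one_smul _ _⟩, ?_⟩⟩
      intro g hg
      rw [mem_st] at hg
      rcases inf_or_aff y with h | ⟨x, h⟩
      · exact absurd h (mem_erase.1 hy).1
      · have h1 := hg.2
        rw [h, hup g hg.1, smul_aff_eq_aff] at h1
        have : g.b = 0 := by simpa using h1
        rw [hup g hg.1, this, up_zero])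
  rwa [mul_one, hc] at this

/-- a point without unipotent stabiliser sharing a noncentral element with infinity -/
lemma st_le_of_common {z : PL k} (hz : z ≠ inf) (hU : U H hH z = 0)
    {g : SL k} (hg : g ∈ H) (hn : ¬ Cen g) (hgz : g • z = z) (hgc : g.c = 0) :
    (st H hH z).card ≤ 2 * (D2 H hH).card := by
  have hU' : ∀ e ∈ st H hH z, tr e ^ 2 = 4 → Cen e := by
    intro e he h4
    by_contra hc
    have : e ∈ (st H hH z).filter (fun g => ¬ Cen g ∧ tr g ^ 2 = 4) := mem_filter.2 ⟨he, hc, h4⟩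
    rw [U, card_eq_zero] at hU
    rw [hU] at this
    simp at this
  obtain ⟨x, rfl⟩ : ∃ x, z = aff x := by
    rcases inf_or_aff z with h | h
    · exact absurd h hz
    · exact h
  have hQ : up x • (aff 0 : PL k) = aff x := (smul_aff_eq_aff _ _ _).2 (by simp)
  have hb : ∀ e : SL k, e • (aff x : PL k) = aff x → ((up x)⁻¹ * e * up x).b = 0 := by
    intro e he
    have : ((up x)⁻¹ * e * up x) • (aff 0 : PL k) = aff 0 :=
      (conj_smul_iff _ _ _ _).2 (by rw [hQ, he])
    rw [smul_aff_eq_aff] at this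
    simpa only [mul_zero, zero_add, zero_mul] using this
  have hc : ∀ e ∈ st H hH (aff x : PL k), e.c = 0 := by
    intro e he
    have he' := mem_st.1 he
    have hcm : e * g * e⁻¹ * g⁻¹ ∈ st H hH (aff x : PL k) := by
      refine mem_st.2 ⟨H.mul_mem (H.mul_mem (H.mul_mem he'.1 hg) (H.inv_mem he'.1)) (H.inv_mem hg), ?_⟩
      rw [mul_smul, mul_smul, mul_smul, inv_smul_eq_iff.2 hgz.symm, inv_smul_eq_iff.2 he'.2.symm,
        hgz, he'.2]
    set e' := (up x)⁻¹ * e * up x with he'def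
    set g' := (up x)⁻¹ * g * up x with hg'def
    have b1 : e'.b = 0 := hb e he'.2
    have b2 : g'.b = 0 := hb g hgz
    have c2 : g'.c = 0 := by simp [hg'def, hgc]
    have c1 : e'.c = e.c := by simp [he'def]
    have hcj : (up x)⁻¹ * (e * g * e⁻¹ * g⁻¹) * up x = e' * g' * e'⁻¹ * g'⁻¹ := by
      rw [he'def, hg'def]; group
    have d1 := e'.det
    have d2 := g'.det
    rw [b1] at d1
    rw [b2] at d2
    have htr : tr (e * g * e⁻¹ * g⁻¹) ^ 2 = 4 := by
      rw [← tr_conj (up x), hcj]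
      have : tr (e' * g' * e'⁻¹ * g'⁻¹) = 2 := by
        simp only [tr, SL.mul_a, SL.mul_b, SL.mul_c, SL.mul_d, SL.inv_a, SL.inv_b, SL.inv_c,
          SL.inv_d, b1, b2, c2]
        linear_combination (2 * g'.a * g'.d) * d1 + 2 * d2
      rw [this]; norm_num
    have hcen := (cen_conj (up x) _).2 (hU' _ hcm htr)
    rw [hcj] at hcen
    have h0 := hcen.c
    simp only [SL.mul_c, SL.mul_d, SL.inv_a, SL.inv_b, SL.inv_c,
      SL.inv_d, b1, b2, c2] at h0
    have hn' : g'.a ^ 2 ≠ 1 := fun h => hn ((cen_conj (up x) g).1 (cen_of_entries b2 c2 h))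
    have h1 : e'.c * (g'.a ^ 2 - 1) = 0 := by
      linear_combination (e'.a * g'.a ^ 2) * h0 - (e'.c * g'.a ^ 3 * g'.d - e'.c * g'.a ^ 2 * g'.d ^ 2) * d1
        - (e'.c * g'.a ^ 2 - e'.c * (g'.a * g'.d + 1)) * d2
    rw [← c1]
    exact (mul_eq_zero.1 h1).resolve_right (sub_ne_zero.2 hn')
  have hsub : (st H hH (aff x : PL k)).image (fun g => g.a ^ 2) ⊆ D2 H hH := by
    apply image_subset_image
    intro e he
    exact mem_st_inf.2 ⟨(mem_st.1 he).1, hc e he⟩
  refine le_trans (card_le_mul_card_image (f := fun g : SL k => g.a ^ 2) _ 2 ?_)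
    (Nat.mul_le_mul_left 2 (card_le_card hsub))
  intro t ht
  obtain ⟨e0, he0, rfl⟩ := mem_image.1 ht
  have : (st H hH (aff x : PL k)).filter (fun g => g.a ^ 2 = e0.a ^ 2) ⊆ {e0, -e0} := by
    intro e he
    rw [mem_filter] at he
    have he1 := mem_st.1 he.1
    have he2 := mem_st.1 he0
    have hm : e * e0⁻¹ ∈ st H hH (aff x : PL k) :=
      mem_st.2 ⟨H.mul_mem he1.1 (H.inv_mem he2.1), by
        rw [mul_smul, inv_smul_eq_iff.2 he2.2.symm, he1.2]⟩
    have had := upper_ad (hc e0 he0)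
    have hcen := hU' _ hm ((upper_tr_sq (hc _ hm)).2 (by
      simp only [SL.mul_a, SL.inv_a, SL.inv_c, hc e0 he0]
      linear_combination (e0.d ^ 2) * he.2 + (e0.a * e0.d + 1) * had))
    simp only [mem_insert, mem_singleton]
    rcases hcen with h | h
    · left; exact mul_inv_eq_one.1 h
    · right
      have : e = -1 * e0 := by rw [← h]; group
      rw [this, neg_mul, one_mul]
  exact le_trans (card_le_card this) card_le_two

end Pool.Agent.MP_b84581_al.H49

end MrgPart1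

-- ======== part 2: formerly Pool.Agent.MP_b84581_al.h49.Dickson
section MrgPart2

/-! Dickson's theorem for finite subgroups containing a transvection, concluded. -/

set_option autoImplicit false

namespace Pool.Agent.MP_b84581_al.H49

open Finset
open scoped Classical

variable {k : Type} [Field k]
variable {H : Subgroup (SL k)} {hH : (H : Set (SL k)).Finite}

/-- multipliers of the translation group -/
def Kf (H : Subgroup (SL k)) (hH : (H : Set (SL k)).Finite) : Subfield k where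
  carrier := {t | ∀ x, up x ∈ H → up (t * x) ∈ H}
  mul_mem' := fun {a b} ha hb x hx => by rw [mul_assoc]; exact ha _ (hb x hx)
  one_mem' := fun x hx => by rwa [one_mul]
  add_mem' := fun {a b} ha hb x hx => by
    rw [add_mul, up_add]; exact H.mul_mem (ha x hx) (hb x hx)
  zero_mem' := fun x _ => by rw [zero_mul, up_zero]; exact H.one_mem
  neg_mem' := fun {a} ha x hx => by rw [neg_mul, up_neg]; exact H.inv_mem (ha x hx)
  inv_mem' := fun t ht x hx => by
    by_cases h0 : t = 0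
    · rw [h0, inv_zero, zero_mul, up_zero]; exact H.one_mem
    · have hsurj := Finset.surj_on_of_inj_on_of_card_le (s := Xs H hH) (t := Xs H hH)
        (fun y _ => t * y) (fun y hy => mem_Xs.2 (ht y (mem_Xs.1 hy)))
        (fun y z _ _ h => mul_left_cancel₀ h0 h) le_rfl x (mem_Xs.2 hx)
      obtain ⟨y, hy, e⟩ := hsurj
      rw [e, ← mul_assoc, inv_mul_cancel₀ h0, one_mul]
      exact mem_Xs.1 hy

lemma mem_Kf {t : k} : t ∈ Kf H hH ↔ ∀ x, up x ∈ H → up (t * x) ∈ H := Iff.rfl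

lemma three_le_Xs (h2 : (2 : k) ≠ 0) (h1 : up 1 ∈ H) : 3 ≤ (Xs H hH).card := by
  have hs : ({0, 1, -1} : Finset k) ⊆ Xs H hH := by
    intro x hx
    simp only [mem_insert, mem_singleton] at hx
    rcases hx with rfl | rfl | rfl
    · rw [mem_Xs, up_zero]; exact H.one_mem
    · exact mem_Xs.2 h1
    · rw [mem_Xs, up_neg]; exact H.inv_mem h1
  have : ({0, 1, -1} : Finset k).card = 3 := by
    rw [card_eq_three]
    exact ⟨0, 1, -1, by simp, by simp, fun h => h2 (by linear_combination h), rfl⟩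
  have := card_le_card hs
  omega

lemma four_le_Xs (h2 : (2 : k) ≠ 0) (h3 : (3 : k) ≠ 0) (h1 : up 1 ∈ H) : 4 ≤ (Xs H hH).card := by
  have m2 : up 2 ∈ H := by
    rw [show (2 : k) = 1 + 1 by norm_num, up_add]; exact H.mul_mem h1 h1
  have hs : ({0, 1, -1, 2} : Finset k) ⊆ Xs H hH := by
    intro x hx
    simp only [mem_insert, mem_singleton] at hx
    rcases hx with rfl | rfl | rfl | rfl
    · rw [mem_Xs, up_zero]; exact H.one_mem
    · exact mem_Xs.2 h1
    · rw [mem_Xs, up_neg]; exact H.inv_mem h1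
    · exact mem_Xs.2 m2
  have : ({0, 1, -1, 2} : Finset k).card = 4 := by
    rw [card_eq_four]
    refine ⟨0, 1, -1, 2, by simp, by simp, fun h => h2 h.symm, fun h => h2 (by linear_combination h),
      fun h => one_ne_zero (α := k) (by linear_combination -h),
      fun h => h3 (by linear_combination -h), rfl⟩
  have := card_le_card hs
  omega

lemma D2_sub (h1 : up 1 ∈ H) : D2 H hH ⊆ (Xs H hH).erase 0 := by
  intro t ht
  rw [mem_erase, mem_Xs]
  refine ⟨?_, by simpa using D2_mul ht h1⟩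
  obtain ⟨g, hg, rfl⟩ := mem_image.1 ht
  exact pow_ne_zero 2 (upper_a_ne (mem_st_inf.1 hg).2)

lemma three_le_D2 {g : SL k} (hg : g ∈ H) (hb : Big g) (hc : g.c = 0) : 3 ≤ (D2 H hH).card := by
  have hs : ({1, g.a ^ 2, (g.a ^ 2) ^ 2} : Finset k) ⊆ D2 H hH := by
    intro x hx
    simp only [mem_insert, mem_singleton] at hx
    rcases hx with rfl | rfl | rfl
    · exact mem_image.2 ⟨1, one_mem_st _, by simp⟩
    · exact mem_image.2 ⟨g, mem_st_inf.2 ⟨hg, hc⟩, rfl⟩
    · refine mem_image.2 ⟨g ^ 2, mem_st_inf.2 ⟨H.pow_mem hg 2, (upper_pow hc 2).1⟩, ?_⟩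
      rw [(upper_pow hc 2).2]
  have e1 := hb.pow_ne hc 1 le_rfl (by norm_num)
  have e2 := hb.pow_ne hc 2 (by norm_num) (by norm_num)
  have h0 : g.a ^ 2 ≠ 0 := pow_ne_zero 2 (upper_a_ne hc)
  have : ({1, g.a ^ 2, (g.a ^ 2) ^ 2} : Finset k).card = 3 := by
    rw [card_eq_three]
    refine ⟨_, _, _, fun h => e1 (by rw [pow_one]; exact h.symm), fun h => e2 h.symm, fun h => e1 ?_, rfl⟩
    apply mul_left_cancel₀ h0
    linear_combination -h
  have := card_le_card hs
  omega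

lemma up_one_not_cen : ¬ Cen (up (1 : k)) := fun h => by simpa using h.b

variable [IsAlgClosed k]

/-- the counting part -/
lemma count_main (h2 : (2 : k) ≠ 0) (hneg : (-1 : SL k) ∈ H) (h1 : up 1 ∈ H) {h0 : SL k}
    (hh0 : h0 ∈ H) (ha0 : h0.a = 0) (hbig : (3 : k) ≠ 0 ∨ ∃ g ∈ H, Big g) :
    (orb H hH (inf : PL k)).card = (Xs H hH).card + 1 ∧
      (Xs H hH).card ≤ 2 * (D2 H hH).card + 1 := by
  have hr := three_le_Xs (hH := hH) h2 h1
  have hf : (D2 H hH).card + 1 ≤ (Xs H hH).card := by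
    have := card_le_card (D2_sub (hH := hH) h1)
    rw [card_erase_of_mem (by rw [mem_Xs, up_zero]; exact H.one_mem)] at this
    omega
  have hf1 : 1 ≤ (D2 H hH).card := card_pos.2 ⟨1, mem_image.2 ⟨1, one_mem_st _, by simp⟩⟩
  have hinf : (inf : PL k) ∈ Om H hH :=
    mem_Om.2 ⟨up 1, h1, up_one_not_cen, (smul_inf_eq_inf _).2 rfl⟩
  have h0aff : h0 • (inf : PL k) = aff 0 := (smul_inf_eq_aff _ _).2 (by simp [ha0])
  have haff : (aff 0 : PL k) ∈ (orb H hH (inf : PL k)).erase inf :=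
    mem_erase.2 ⟨aff_ne_inf _, mem_orb.2 ⟨h0, hh0, h0aff⟩⟩
  obtain ⟨m, hm⟩ := Xs_dvd (H := H) (hH := hH)
  have hpos : 0 < ((orb H hH (inf : PL k)).erase inf).card := card_pos.2 ⟨_, haff⟩
  have hm1 : 1 ≤ m := by
    rcases Nat.eq_zero_or_pos m with h | h
    · rw [hm, h] at hpos; simp at hpos
    · exact h
  rw [card_erase_of_mem (self_mem_orb _)] at hm
  have po1 : 0 < (orb H hH (inf : PL k)).card := card_pos.2 ⟨_, self_mem_orb _⟩
  obtain ⟨ρ, hρ⟩ : ∃ ρ, (Xs H hH).card = ρ + 2 := ⟨(Xs H hH).card - 2, by omega⟩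
  have s1 := card_st_inf (hH := hH) h2 hneg
  have u1 := U_inf (hH := hH) h2 hneg
  have w1 := orbit_weight (hH := hH) h2 hneg (inf : PL k)
  have m1 := orb_card_mul (H := H) (hH := hH) (inf : PL k)
  have hsum := sum_W (hH := hH) h2 hneg
  have I0 : Inv' H (Om H hH) := inv_Om
  rw [I0.sum_split (hH := hH) hinf _ (fun z hz => W_orb hz)] at hsum
  rw [hρ] at hm s1 u1 hf hr
  set o1 := (orb H hH (inf : PL k)).card with ho1
  set f := (D2 H hH).card with hfdef
  set n := (fs H hH).card with hn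
  have ho : o1 = 1 + m * (ρ + 2) := by rw [mul_comm m]; omega
  have hU1 : U H hH (inf : PL k) = 2 * ρ + 2 := by omega
  rw [hU1] at w1
  rw [s1] at m1
  have ho2 : 2 ≤ o1 := by nlinarith
  have hw1 : o1 * W H hH (inf : PL k) = n + 2 * (o1 * ρ) := by nlinarith
  have hoρ : o1 ≤ o1 * ρ := Nat.le_mul_of_pos_right _ (by omega)
  set S1 := Om H hH \ orb H hH (inf : PL k) with hS1
  have I1 : Inv' H S1 := I0.sdiff _
  rcases S1.eq_empty_or_nonempty with h | ⟨y2, hy2⟩
  · exfalso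
    rw [h, sum_empty] at hsum
    have : o1 * (1 * (2 * (ρ + 2))) ≤ o1 * (f * (2 * (ρ + 2))) :=
      Nat.mul_le_mul_left _ (Nat.mul_le_mul_right _ hf1)
    nlinarith
  have hy2' : y2 ∈ Om H hH := (mem_sdiff.1 hy2).1
  have hy2n : y2 ∉ orb H hH (inf : PL k) := (mem_sdiff.1 hy2).2
  rw [I1.sum_split (hH := hH) hy2 _ (fun z hz => W_orb hz)] at hsum
  have w2 := orbit_weight (hH := hH) h2 hneg y2
  have m2 := orb_card_mul (H := H) (hH := hH) y2
  have f2 := four_le_st h2 hneg hy2'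
  obtain ⟨e, he⟩ := two_dvd_st (hH := hH) h2 hneg y2
  obtain ⟨u, hu⟩ := two_dvd_U (hH := hH) h2 hneg y2
  set o2 := (orb H hH y2).card with ho2def
  have b2 : 4 * o2 ≤ n := by nlinarith
  set S2 := S1 \ orb H hH y2 with hS2
  have I2 : Inv' H S2 := I1.sdiff _
  have hS2e : S2 = ∅ := by
    rcases S2.eq_empty_or_nonempty with h | hne
    · exact h
    · exfalso
      have := half_le (hH := hH) h2 hneg I2
        (fun z hz => (mem_sdiff.1 (mem_sdiff.1 hz).1).1) hne
      omega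
  rw [hS2e, sum_empty] at hsum
  have hu0 : u = 0 := by
    by_contra hne
    have : o2 * 2 ≤ o2 * U H hH y2 := Nat.mul_le_mul_left _ (by omega)
    omega
  have hU2 : U H hH y2 = 0 := by rw [hu, hu0]
  rw [hU2] at w2
  have h3 : o2 = o1 * ρ + 2 := by omega
  have h4 : o2 * e = o1 * (ρ + 2) * f := by
    rw [he, ← hn, ← m1] at m2
    apply Nat.eq_of_mul_eq_mul_left (show 0 < 2 by norm_num)
    calc 2 * (o2 * e) = o2 * (2 * e) := by ring
      _ = _ := m2
      _ = _ := by ring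
  -- the stabiliser of the second point acts freely on the first orbit
  let E : Subgroup (SL k) := H ⊓ MulAction.stabilizer (SL k) y2
  have hE : (E : Set (SL k)).Finite := hH.subset (fun g hg => hg.1)
  have hEc : fs E hE = st H hH y2 := by
    ext g
    rw [mem_fs, mem_st]
    exact Iff.rfl
  have hdvd := Inv'.dvd (H := E) (hH := hE) 2 _ (orb H hH (inf : PL k)) rfl
    (fun g hg y hy => smul_mem_orb hy hg.1)
    (fun z hz => by
      have hall : ∀ g ∈ st E hE z, Cen g := by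
        intro g hg
        by_contra hn
        obtain ⟨h, hh, rfl⟩ := mem_orb.1 hz
        rw [mem_st] at hg
        have hz2 : h⁻¹ • y2 ∈ orb H hH y2 := mem_orb.2 ⟨h⁻¹, H.inv_mem hh, rfl⟩
        have hle := st_le_of_common (hH := hH) (z := h⁻¹ • y2)
          (fun h' => hy2n (mem_orb.2 ⟨h, hh, by rw [← h', smul_inv_smul]⟩))
          (by rw [U_orb hz2, hU2]) (g := h⁻¹ * g * h)
          (H.mul_mem (H.mul_mem (H.inv_mem hh) hg.1.1) hh) (by rwa [cen_conj])
          (by rw [conj_smul_iff, smul_inv_smul]; exact hg.1.2)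
          ((smul_inf_eq_inf _).1 ((conj_smul_iff _ _ _ _).2 hg.2))
        rw [card_st_conj hz2, he] at hle
        have hef : e ≤ f := by omega
        have : o1 * (ρ + 2) * e ≤ o1 * (ρ + 2) * f := Nat.mul_le_mul_left _ hef
        have : o1 * (ρ + 2) ≤ o2 := Nat.le_of_mul_le_mul_right (by omega) (show 0 < e by omega)
        nlinarith
      have hnE : (-1 : SL k) ∈ E := ⟨hneg, by
        change (-1 : SL k) • y2 = y2
        rw [neg_smul_pl, one_smul]⟩
      rw [← filter_cen h2 (st E hE z) (one_mem_st _) (neg_mem_st hnE (one_mem_st _)),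
        filter_true_of_mem hall])
  rw [hEc, he, mul_comm 2 e] at hdvd
  obtain ⟨n', hn'⟩ := Nat.dvd_of_mul_dvd_mul_right (by norm_num) hdvd
  rcases arith ρ f e n' m o1 o2 (by omega) (by omega) (by omega) hm1 hn' ho h3 h4 with h | h
  · omega
  · exfalso
    rcases hbig with hb | ⟨g, hg, hb⟩
    · have := four_le_Xs (hH := hH) h2 hb h1
      omega
    · obtain ⟨y, hy⟩ := exists_fixed g
      have hyO : y ∈ Om H hH := mem_Om.2 ⟨g, hg, hb.not_cen, hy⟩
      by_cases c1 : y ∈ orb H hH (inf : PL k)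
      · obtain ⟨h', hh, rfl⟩ := mem_orb.1 c1
        have := three_le_D2 (hH := hH) (g := h'⁻¹ * g * h')
          (H.mul_mem (H.mul_mem (H.inv_mem hh) hg) hh) ((big_conj _ _).2 hb)
          ((smul_inf_eq_inf _).1 ((conj_smul_iff _ _ _ _).2 hy))
        omega
      · by_cases c2 : y ∈ orb H hH y2
        · have := twelve_le_st (hH := hH) h2 hneg hg hb hy
          rw [card_st_conj c2, he] at this
          omega
        · have : y ∈ S2 := mem_sdiff.2 ⟨mem_sdiff.2 ⟨hyO, c1⟩, c2⟩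
          rw [hS2e] at this
          simp at this

theorem dickson_norm (h2 : (2 : k) ≠ 0) (hH : (H : Set (SL k)).Finite) (hneg : (-1 : SL k) ∈ H)
    (h1 : up 1 ∈ H) {h0 : SL k}
    (hh0 : h0 ∈ H) (ha0 : h0.a = 0) (hbig : (3 : k) ≠ 0 ∨ ∃ g ∈ H, Big g) :
    ∃ K : Subfield k, (K : Set k).Finite ∧ (∀ m, InK K m → m ∈ H) ∧ ∀ h ∈ H, InPGL K h := by
  obtain ⟨ho, hf⟩ := count_main (hH := hH) h2 hneg h1 hh0 ha0 hbig
  have hKX : ∀ t ∈ Kf H hH, up t ∈ H := fun t ht => by simpa using ht 1 h1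
  have hKfin : (Kf H hH : Set k).Finite := (Xg_finite hH).subset hKX
  have hle : (Kf H hH).toAddSubgroup ≤ Xg H := hKX
  have hdvd := AddSubgroup.card_dvd_of_le hle
  have hX : Nat.card (Xg H) = (Xs H hH).card := by
    rw [Xs, ← Set.ncard_eq_toFinset_card _ (Xg_finite hH)]; rfl
  have hKc : Nat.card (Kf H hH).toAddSubgroup = hKfin.toFinset.card := by
    rw [← Set.ncard_eq_toFinset_card _ hKfin]; rfl
  have hsub : insert 0 (D2 H hH) ⊆ hKfin.toFinset := by
    intro t ht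
    rw [Set.Finite.mem_toFinset]
    rcases mem_insert.1 ht with rfl | ht
    · exact (Kf H hH).zero_mem
    · exact fun x hx => D2_mul ht hx
  have hcard := card_le_card hsub
  rw [card_insert_of_notMem (fun h => by simpa using D2_sub h1 h)] at hcard
  rw [hX, hKc] at hdvd
  have heq : hKfin.toFinset = Xs H hH := by
    apply eq_of_subset_of_card_le
    · intro t ht
      exact mem_Xs.2 (hKX t (hKfin.mem_toFinset.1 ht))
    · obtain ⟨c, hc⟩ := hdvd
      have hr := three_le_Xs (hH := hH) h2 h1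
      rcases (show c = 0 ∨ c = 1 ∨ 2 ≤ c by omega) with rfl | rfl | h
      · omega
      · omega
      · have := Nat.mul_le_mul_left hKfin.toFinset.card h
        omega
  have hXK : ∀ x, up x ∈ H → x ∈ Kf H hH := fun x hx => by
    have := mem_Xs (hH := hH).2 hx
    rw [← heq] at this
    exact hKfin.mem_toFinset.1 this
  have h0aff : h0 • (inf : PL k) = aff 0 := (smul_inf_eq_aff _ _).2 (by simp [ha0])
  have horb : insert inf ((Xs H hH).image aff) = orb H hH (inf : PL k) := by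
    apply eq_of_subset_of_card_le
    · intro y hy
      rcases mem_insert.1 hy with rfl | hy
      · exact self_mem_orb _
      · obtain ⟨x, hx, rfl⟩ := mem_image.1 hy
        refine mem_orb.2 ⟨up x * h0, H.mul_mem (mem_Xs.1 hx) hh0, ?_⟩
        rw [mul_smul, h0aff, smul_aff_eq_aff]; simp
    · rw [card_insert_of_notMem, card_image_of_injective _ (fun x y h => aff_inj h), ho]
      intro h
      obtain ⟨x, _, hx⟩ := mem_image.1 h
      exact aff_ne_inf _ hx
  have hdep : ∀ g ∈ H, Dep (Kf H hH) g.a g.c := by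
    intro g hg
    have : g • (inf : PL k) ∈ orb H hH (inf : PL k) := mem_orb.2 ⟨g, hg, rfl⟩
    by_cases hc : g.c = 0
    · refine ⟨g.a⁻¹, inv_ne_zero (upper_a_ne hc), ?_, ?_⟩
      · rw [inv_mul_cancel₀ (upper_a_ne hc)]; exact (Kf H hH).one_mem
      · rw [hc, mul_zero]; exact (Kf H hH).zero_mem
    · rw [← horb] at this
      rcases mem_insert.1 this with h | h
      · exact absurd ((smul_inf_eq_inf _).1 h) hc
      · obtain ⟨x, hx, h⟩ := mem_image.1 h
        have := (smul_inf_eq_aff _ _).1 h.symm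
        refine ⟨g.c⁻¹, inv_ne_zero hc, ?_, ?_⟩
        · rw [this, show g.c⁻¹ * (x * g.c) = x by field_simp]
          exact hXK x (mem_Xs.1 hx)
        · rw [inv_mul_cancel₀ hc]; exact (Kf H hH).one_mem
  have hdet0 := h0.det
  rw [ha0] at hdet0
  have hc0 : h0.c ≠ 0 := by
    intro h; rw [h] at hdet0; simp at hdet0
  have hdep2 : ∀ g ∈ H, Dep (Kf H hH) g.b g.d := by
    intro g hg
    obtain ⟨l, hl, e1, e2⟩ := hdep (g * h0) (H.mul_mem hg hh0)
    simp only [SL.mul_a, SL.mul_c, ha0, mul_zero, zero_add] at e1 e2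
    refine ⟨l * h0.c, mul_ne_zero hl hc0, ?_, ?_⟩
    · convert e1 using 1; ring
    · convert e2 using 1; ring
  have hpgl : ∀ h ∈ H, InPGL (Kf H hH) h := by
    intro g hg
    refine inPGL_of_dep _ g (hdep g hg) (hdep2 g hg) ?_
    have := hdep2 (g * up 1) (H.mul_mem hg h1)
    simpa using this
  refine ⟨Kf H hH, hKfin, mem_of_inK _ H hKX ?_, hpgl⟩
  intro y hy
  obtain ⟨l, hl, -, eb, ec, -⟩ := hpgl h0 hh0
  have hb0 : h0.b = -h0.c⁻¹ := by field_simp; linear_combination -hdet0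
  have hsq : (h0.c ^ 2)⁻¹ ∈ Kf H hH := by
    have := (Kf H hH).neg_mem ((Kf H hH).div_mem eb ec)
    convert this using 1
    rw [hb0]; field_simp
  have hx : up (-((h0.c ^ 2)⁻¹ * y)) ∈ H :=
    hKX _ ((Kf H hH).neg_mem ((Kf H hH).mul_mem hsq hy))
  have := H.mul_mem (H.mul_mem hh0 hx) (H.inv_mem hh0)
  convert this using 1
  ext <;> simp [ha0, hb0] <;> (field_simp; try ring)

end Pool.Agent.MP_b84581_al.H49

end MrgPart2

-- ======== part 3: formerly Pool.Agent.MP_b84581_al.h49.Second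
section MrgPart3

/-! Subgroups generated by two elements, one of which has large order or is a transvection. -/

set_option autoImplicit false

namespace Pool.Agent.MP_b84581_al.H49

open Finset
open scoped Classical

variable {k : Type} [Field k]

/-- conjugate subgroup -/
def cj (P : SL k) (H : Subgroup (SL k)) : Subgroup (SL k) := H.comap (MulAut.conj P).toMonoidHom

lemma mem_cj {P g : SL k} {H : Subgroup (SL k)} : g ∈ cj P H ↔ P * g * P⁻¹ ∈ H := Iff.rfl

lemma conj_mem_cj {P g : SL k} {H : Subgroup (SL k)} : P⁻¹ * g * P ∈ cj P H ↔ g ∈ H := by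
  rw [mem_cj, show P * (P⁻¹ * g * P) * P⁻¹ = g by group]

lemma cj_finite (P : SL k) {H : Subgroup (SL k)} (hH : (H : Set (SL k)).Finite) :
    (cj P H : Set (SL k)).Finite :=
  hH.preimage (f := fun g => P * g * P⁻¹) (fun x _ y _ h => by simpa using h)

/-- `H` lies between conjugates of the special and the projective general linear group of `K` -/
def Proj (H : Subgroup (SL k)) (K : Subfield k) : Prop :=
  ∃ P : SL k, (∀ m, InK K m → P * m * P⁻¹ ∈ H) ∧ ∀ h ∈ H, InPGL K (P⁻¹ * h * P)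

lemma Proj.tr_sq {H : Subgroup (SL k)} {K : Subfield k} (h : Proj H K) {g : SL k} (hg : g ∈ H) :
    tr g ^ 2 ∈ K := by
  obtain ⟨P, -, h2⟩ := h
  have := (h2 g hg).tr_sq
  rwa [tr_conj] at this

lemma Proj.exists_tr {H : Subgroup (SL k)} {K : Subfield k} (h : Proj H K) {t : k} (ht : t ∈ K) :
    ∃ g ∈ H, tr g = t := by
  obtain ⟨P, h1, -⟩ := h
  refine ⟨_, h1 ⟨t, -1, 1, 0, by ring⟩ ⟨ht, K.neg_mem K.one_mem, K.one_mem, K.zero_mem⟩, ?_⟩
  rw [tr_conj']; simp [tr]

variable [IsAlgClosed k] {H : Subgroup (SL k)}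

theorem dickson (h2 : (2 : k) ≠ 0) (hH : (H : Set (SL k)).Finite) (hneg : (-1 : SL k) ∈ H)
    {u : SL k} (hu : u ∈ H) (hn : ¬ Cen u) (h4 : tr u ^ 2 = 4)
    (hfix : ∀ y : PL k, u • y = y → ∃ h ∈ H, h • y ≠ y)
    (hbig : (3 : k) ≠ 0 ∨ ∃ g ∈ H, Big g) :
    ∃ K : Subfield k, (K : Set k).Finite ∧ Proj H K := by
  obtain ⟨y0, hy0⟩ := fixed_unip hn h4
  obtain ⟨h, hh, hne⟩ := hfix y0 ((hy0 y0).2 rfl)
  obtain ⟨P, hP0, hP1⟩ := exists_smul_pair hne.symm
  have hc : (P⁻¹ * u * P).c = 0 :=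
    (smul_inf_eq_inf _).1 ((conj_smul_iff _ _ _ _).2 (by rw [hP0]; exact (hy0 y0).2 rfl))
  have ha : (P⁻¹ * u * P).a ^ 2 = 1 := (upper_tr_sq hc).1 (by rwa [tr_conj])
  have hb : (P⁻¹ * u * P).b ≠ 0 := fun hb => hn ((cen_conj P u).1 (cen_of_entries hb hc ha))
  have had := upper_ad hc
  set u' := P⁻¹ * u * P with hu'
  have hu'm : u' ∈ cj P H := conj_mem_cj.2 hu
  have hneg' : (-1 : SL k) ∈ cj P H := by rw [mem_cj]; simpa using hneg
  obtain ⟨s, hs0, hs⟩ : ∃ s : k, s ≠ 0 ∧ up s ∈ cj P H := by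
    have h1 : (u'.a - 1) * (u'.a + 1) = 0 := by linear_combination ha
    rcases mul_eq_zero.1 h1 with h3 | h3
    · have ha : u'.a = 1 := by linear_combination h3
      have hd : u'.d = 1 := by rw [ha] at had; linear_combination had
      have : up u'.b = u' := by clear_value u'; ext <;> simp [ha, hd, hc]
      exact ⟨u'.b, hb, by rwa [this]⟩
    · have ha : u'.a = -1 := by linear_combination h3
      have hd : u'.d = -1 := by rw [ha] at had; linear_combination -had
      have : up (-u'.b) = -u' := by clear_value u'; ext <;> simp [ha, hd, hc]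
      exact ⟨-u'.b, neg_ne_zero.2 hb, by rw [this]; exact neg_mem hneg' hu'm⟩
  obtain ⟨l, hl⟩ := IsAlgClosed.exists_pow_nat_eq s (show 0 < 2 by norm_num)
  have hl0 : l ≠ 0 := by rintro rfl; exact hs0 (by rw [← hl]; simp)
  set Q := P * dg l hl0 with hQ
  have hQ0 : Q • (inf : PL k) = y0 := by
    rw [hQ, mul_smul, (smul_inf_eq_inf (dg l hl0)).2 rfl, hP0]
  have hQ1 : Q • (aff 0 : PL k) = h • y0 := by
    rw [hQ, mul_smul, (smul_aff_eq_aff (dg l hl0) 0 0).2 (by simp), hP1]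
  have e1 : up 1 ∈ cj Q H := by
    rw [mem_cj] at hs ⊢
    have : dg l hl0 * up 1 * (dg l hl0)⁻¹ = up s := by
      ext <;> simp [hl0, ← hl, sq]
    rw [← this] at hs
    convert hs using 1
    rw [hQ]; group
  have e2 : (Q⁻¹ * h * Q).a = 0 := by
    have : (Q⁻¹ * h * Q) • (inf : PL k) = aff 0 := (conj_smul_iff _ _ _ _).2 (by rw [hQ0, hQ1])
    simpa using (smul_inf_eq_aff _ _).1 this
  obtain ⟨K, hK, i1, i2⟩ := dickson_norm (H := cj Q H) h2 (cj_finite Q hH)
    (by rw [mem_cj]; simpa using hneg) e1 (conj_mem_cj.2 hh) e2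
    (hbig.imp id (fun ⟨g, hg, hb⟩ => ⟨Q⁻¹ * g * Q, conj_mem_cj.2 hg, (big_conj _ _).2 hb⟩))
  exact ⟨K, hK, Q, fun m hm => mem_cj.1 (i1 m hm), fun g hg => i2 _ (conj_mem_cj.2 hg)⟩

theorem proj_of_big (h2 : (2 : k) ≠ 0) (hH : (H : Set (SL k)).Finite) (hneg : (-1 : SL k) ∈ H)
    {a b : SL k} (ha : a ∈ H) (hb : b ∈ H) (hbig : Big a) {y0 y1 : PL k}
    (hfa : ∀ y, a • y = y ↔ y = y0 ∨ y = y1) (hb0 : b • y0 ≠ y0) (hb1 : b • y1 ≠ y1)
    (hsw : ¬ (b • y0 = y1 ∧ b • y1 = y0)) :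
    ∃ K : Subfield k, (K : Set k).Finite ∧ Proj H K := by
  by_cases hU : ∃ u ∈ H, ¬ Cen u ∧ tr u ^ 2 = 4
  · obtain ⟨u, hu, hn, h4⟩ := hU
    refine dickson h2 hH hneg hu hn h4 (fun y _ => ?_) (Or.inr ⟨a, ha, hbig⟩)
    by_cases h : a • y = y
    · refine ⟨b, hb, ?_⟩
      rcases (hfa y).1 h with rfl | rfl
      · exact hb0
      · exact hb1
    · exact ⟨a, ha, h⟩
  · exfalso
    push Not at hU
    have hy0 : a • y0 = y0 := (hfa _).2 (Or.inl rfl)
    have hle := orbit_le_two (hH := hH) h2 hneg hU y0 (mem_Om.2 ⟨a, ha, hbig.not_cen, hy0⟩)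
      (twelve_le_st h2 hneg ha hbig hy0)
    have m0 : y0 ∈ orb H hH y0 := self_mem_orb _
    have m1 : b • y0 ∈ orb H hH y0 := smul_mem_orb m0 hb
    have horb : ({y0, b • y0} : Finset (PL k)) = orb H hH y0 := by
      apply eq_of_subset_of_card_le
      · intro z hz
        simp only [mem_insert, mem_singleton] at hz
        rcases hz with rfl | rfl
        · exact m0
        · exact m1
      · rwa [card_pair hb0.symm]
    have key : ∀ g ∈ H, g • b • y0 = y0 ∨ g • b • y0 = b • y0 := by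
      intro g hg
      have := smul_mem_orb m1 hg
      rw [← horb] at this
      simpa using this
    have e1 : b • y0 = y1 := by
      rcases key a ha with h | h
      · exfalso
        apply hb0
        rw [← hy0] at h
        have := smul_left_cancel a h
        rwa [hy0] at this
      · exact ((hfa _).1 h).resolve_left hb0
    rcases key b hb with h | h
    · exact hsw ⟨e1, by rwa [e1] at h⟩
    · rw [e1] at h; exact hb1 h

end Pool.Agent.MP_b84581_al.H49

end MrgPart3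

-- ======== part 4: formerly Pool.Agent.MP_b84581_al.h49.Moves
section MrgPart4

/-! Moves on tuples of matrices. -/

set_option autoImplicit false

namespace Pool.Agent.MP_b84581_al.H49

open Function

variable {k : Type} [Field k] {ι : Type} [DecidableEq ι]

/-- the subgroup generated by a set together with minus one -/
def Cl (S : Set (SL k)) : Subgroup (SL k) := Subgroup.closure (insert (-1) S)

lemma neg_one_mem_Cl (S : Set (SL k)) : (-1 : SL k) ∈ Cl S :=
  Subgroup.subset_closure (Set.mem_insert _ _)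

lemma mem_Cl {S : Set (SL k)} {g : SL k} (hg : g ∈ S) : g ∈ Cl S :=
  Subgroup.subset_closure (Set.mem_insert_of_mem _ hg)

lemma Cl_le {S : Set (SL k)} {H : Subgroup (SL k)} (hneg : (-1 : SL k) ∈ H) (h : ∀ g ∈ S, g ∈ H) :
    Cl S ≤ H := by
  rw [Cl, Subgroup.closure_le]
  rintro g (rfl | hg)
  · exact hneg
  · exact h g hg

lemma Cl_mono {S T : Set (SL k)} (h : S ⊆ T) : Cl S ≤ Cl T :=
  Cl_le (neg_one_mem_Cl _) (fun _ hg => mem_Cl (h hg))

/-- the subgroup generated by the entries with index in `A` -/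
def Gn (x : ι → SL k) (A : Finset ι) : Subgroup (SL k) := Cl (x '' (A : Set ι))

omit [DecidableEq ι] in
lemma mem_Gn (x : ι → SL k) {A : Finset ι} {i : ι} (hi : i ∈ A) : x i ∈ Gn x A :=
  mem_Cl ⟨i, hi, rfl⟩

omit [DecidableEq ι] in
lemma Gn_le {x : ι → SL k} {A : Finset ι} {H : Subgroup (SL k)} (hneg : (-1 : SL k) ∈ H)
    (h : ∀ i ∈ A, x i ∈ H) : Gn x A ≤ H :=
  Cl_le hneg (by rintro _ ⟨i, hi, rfl⟩; exact h i hi)

omit [DecidableEq ι] in
lemma neg_one_mem_Gn (x : ι → SL k) (A : Finset ι) : (-1 : SL k) ∈ Gn x A := neg_one_mem_Cl _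

omit [DecidableEq ι] in
lemma Gn_mono (x : ι → SL k) {A B : Finset ι} (h : A ⊆ B) : Gn x A ≤ Gn x B :=
  Gn_le (neg_one_mem_Gn _ _) (fun _ hi => mem_Gn x (h hi))

omit [DecidableEq ι] in
lemma Gn_congr {x y : ι → SL k} {A : Finset ι} (h : ∀ i ∈ A, x i = y i) : Gn x A = Gn y A :=
  le_antisymm (Gn_le (neg_one_mem_Gn _ _) (fun i hi => h i hi ▸ mem_Gn y hi))
    (Gn_le (neg_one_mem_Gn _ _) (fun i hi => (h i hi).symm ▸ mem_Gn x hi))

omit [DecidableEq ι] in
lemma exists_not_mem {x : ι → SL k} {A : Finset ι} {H : Subgroup (SL k)} (hneg : (-1 : SL k) ∈ H)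
    {g : SL k} (hg : g ∈ Gn x A) (hn : g ∉ H) : ∃ j ∈ A, x j ∉ H := by
  by_contra h
  push Not at h
  exact hn (Gn_le hneg h hg)

def Step (A : Finset ι) (x y : ι → SL k) : Prop :=
  ∃ i ∈ A, ∃ h1 ∈ Gn x (A.erase i), ∃ h2 ∈ Gn x (A.erase i), y = update x i (h1 * x i * h2)

def Mv (A : Finset ι) : (ι → SL k) → (ι → SL k) → Prop := Relation.ReflTransGen (Step A)

variable {A : Finset ι} {x y z : ι → SL k}

lemma Mv.refl (A : Finset ι) (x : ι → SL k) : Mv A x x := Relation.ReflTransGen.refl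

lemma Mv.trans (h1 : Mv A x y) (h2 : Mv A y z) : Mv A x z := Relation.ReflTransGen.trans h1 h2

lemma mv_update {i : ι} (hi : i ∈ A) {h1 h2 : SL k} (m1 : h1 ∈ Gn x (A.erase i))
    (m2 : h2 ∈ Gn x (A.erase i)) : Mv A x (update x i (h1 * x i * h2)) :=
  Relation.ReflTransGen.single ⟨i, hi, h1, m1, h2, m2, rfl⟩

lemma mv_right {i : ι} (hi : i ∈ A) {h2 : SL k}
    (m2 : h2 ∈ Gn x (A.erase i)) : Mv A x (update x i (x i * h2)) := by
  have := mv_update hi (Subgroup.one_mem _) m2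
  rwa [one_mul] at this

lemma mv_left {i : ι} (hi : i ∈ A) {h1 : SL k}
    (m1 : h1 ∈ Gn x (A.erase i)) : Mv A x (update x i (h1 * x i)) := by
  have := mv_update hi m1 (Subgroup.one_mem _)
  rwa [mul_one] at this

lemma Gn_update_erase (x : ι → SL k) (A : Finset ι) (i : ι) (g : SL k) :
    Gn (update x i g) (A.erase i) = Gn x (A.erase i) :=
  Gn_congr (fun _ hj => update_of_ne (Finset.mem_erase.1 hj).1 _ _)

lemma Step.gn (h : Step A x y) : Gn y A = Gn x A := by
  obtain ⟨i, hi, h1, m1, h2, m2, rfl⟩ := h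
  have s := Finset.erase_subset i A
  apply le_antisymm
  · refine Gn_le (neg_one_mem_Gn _ _) (fun j hj => ?_)
    by_cases e : j = i
    · subst e
      rw [update_self]
      exact Subgroup.mul_mem _ (Subgroup.mul_mem _ (Gn_mono x s m1) (mem_Gn x hi)) (Gn_mono x s m2)
    · rw [update_of_ne e]; exact mem_Gn x hj
  · refine Gn_le (neg_one_mem_Gn _ _) (fun j hj => ?_)
    by_cases e : j = i
    · subst e
      rw [← Gn_update_erase x A j (h1 * x j * h2)] at m1 m2
      have m := mem_Gn (update x j (h1 * x j * h2)) hj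
      rw [update_self] at m
      have := Subgroup.mul_mem _ (Subgroup.mul_mem _ (Subgroup.inv_mem _ (Gn_mono _ s m1)) m)
        (Subgroup.inv_mem _ (Gn_mono _ s m2))
      convert this using 1; group
    · have := mem_Gn (update x i (h1 * x i * h2)) hj
      rwa [update_of_ne e] at this

lemma Mv.gn (h : Mv A x y) : Gn y A = Gn x A := by
  induction h with
  | refl => rfl
  | tail _ h2 ih => rw [h2.gn, ih]

lemma Mv.mono {B : Finset ι} (hAB : A ⊆ B) (h : Mv A x y) : Mv B x y := by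
  induction h with
  | refl => exact Mv.refl _ _
  | tail _ h2 ih =>
    obtain ⟨i, hi, h1, m1, h2, m2, rfl⟩ := h2
    have s := Finset.erase_subset_erase i hAB
    exact ih.trans (mv_update (hAB hi) (Gn_mono _ s m1) (Gn_mono _ s m2))

/-- an entry can be set freely when the others generate -/
lemma mv_set {i : ι} (hi : i ∈ A) (hg : Gn x (A.erase i) = Gn x A) {g : SL k} (m : g ∈ Gn x A) :
    Mv A x (update x i g) := by
  have := mv_right (x := x) hi (h2 := (x i)⁻¹ * g) (by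
    rw [hg]; exact Subgroup.mul_mem _ (Subgroup.inv_mem _ (mem_Gn x hi)) m)
  rwa [mul_inv_cancel_left] at this

/-- the stabiliser of a pair of points -/
def pairStab (y0 y1 : PL k) : Subgroup (SL k) where
  carrier := {g | (g • y0 = y0 ∧ g • y1 = y1) ∨ (g • y0 = y1 ∧ g • y1 = y0)}
  mul_mem' := by
    rintro a b (⟨h1, h2⟩ | ⟨h1, h2⟩) (⟨h3, h4⟩ | ⟨h3, h4⟩)
    · left; rw [mul_smul, mul_smul, h3, h4]; exact ⟨h1, h2⟩
    · right; rw [mul_smul, mul_smul, h3, h4]; exact ⟨h2, h1⟩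
    · right; rw [mul_smul, mul_smul, h3, h4]; exact ⟨h1, h2⟩
    · left; rw [mul_smul, mul_smul, h3, h4]; exact ⟨h2, h1⟩
  one_mem' := Or.inl ⟨one_smul _ _, one_smul _ _⟩
  inv_mem' := by
    rintro a (⟨h1, h2⟩ | ⟨h1, h2⟩)
    · left; exact ⟨inv_smul_eq_iff.2 h1.symm, inv_smul_eq_iff.2 h2.symm⟩
    · right; exact ⟨inv_smul_eq_iff.2 h2.symm, inv_smul_eq_iff.2 h1.symm⟩

lemma neg_one_smul_pl (y : PL k) : (-1 : SL k) • y = y := by rw [neg_smul_pl, one_smul]

/-- a subgroup with no fixed point and no invariant pair -/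
structure Irr (Γ : Subgroup (SL k)) : Prop where
  pt : ∀ y : PL k, ∃ g ∈ Γ, g • y ≠ y
  pr : ∀ y0 y1 : PL k, y0 ≠ y1 → ∃ g ∈ Γ, g ∉ pairStab y0 y1

omit [DecidableEq ι] in
lemma exists_move (hI : Irr (Gn x A)) (y0 : PL k) : ∃ j ∈ A, x j • y0 ≠ y0 := by
  obtain ⟨g, hg, hn⟩ := hI.pt y0
  exact exists_not_mem (H := MulAction.stabilizer (SL k) y0) (neg_one_smul_pl y0) hg hn

lemma find_b_aux (hI : Irr (Gn x A)) {i : ι} {y0 y1 : PL k} (hne : y0 ≠ y1) (h0 : x i • y0 = y0)
    {j : ι} (hj : j ∈ A) (z0 : x j • y0 = y0) (z1 : x j • y1 ≠ y1) :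
    ∃ y, Mv A x y ∧ y i = x i ∧ ∃ l ∈ A, l ≠ i ∧ y l • y0 ≠ y0 ∧ y l • y1 ≠ y1 ∧
      ¬ (y l • y0 = y1 ∧ y l • y1 = y0) := by
  obtain ⟨l, hl, w0⟩ := exists_move hI y0
  have hli : l ≠ i := by rintro rfl; exact w0 h0
  have hjl : j ≠ l := by rintro rfl; exact w0 z0
  by_cases hgood : x l • y1 ≠ y1 ∧ ¬ (x l • y0 = y1 ∧ x l • y1 = y0)
  · exact ⟨x, Mv.refl _ _, rfl, l, hl, hli, w0, hgood.1, hgood.2⟩
  refine ⟨_, mv_right hl (mem_Gn x (Finset.mem_erase.2 ⟨hjl, hj⟩)), update_of_ne hli.symm _ _,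
    l, hl, hli, ?_⟩
  rw [update_self, mul_smul, mul_smul, z0]
  by_cases w1 : x l • y1 = y1
  · refine ⟨w0, fun h => z1 ?_, fun h => hne ?_⟩
    · exact smul_left_cancel (x l) (h.trans w1.symm)
    · exact smul_left_cancel (x l) (h.1.trans w1.symm)
  · have hs : x l • y0 = y1 ∧ x l • y1 = y0 := by
      by_contra hs; exact hgood ⟨w1, hs⟩
    refine ⟨w0, fun h => hne ?_, fun h => z1 ?_⟩
    · have := smul_left_cancel (x l) (h.trans hs.1.symm)
      exact (smul_left_cancel (x j) (this.trans z0.symm)).symm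
    · exact smul_left_cancel (x l) (h.2.trans hs.2.symm)

lemma find_b (hI : Irr (Gn x A)) {i : ι} {y0 y1 : PL k} (hne : y0 ≠ y1) (h0 : x i • y0 = y0)
    (h1 : x i • y1 = y1) :
    ∃ y, Mv A x y ∧ y i = x i ∧ ∃ l ∈ A, l ≠ i ∧ y l • y0 ≠ y0 ∧ y l • y1 ≠ y1 ∧
      ¬ (y l • y0 = y1 ∧ y l • y1 = y0) := by
  obtain ⟨g, hg, hn⟩ := hI.pr y0 y1 hne
  obtain ⟨j, hj, hz⟩ := exists_not_mem (H := pairStab y0 y1)
    (Or.inl ⟨neg_one_smul_pl y0, neg_one_smul_pl y1⟩) hg hn
  have hji : j ≠ i := by rintro rfl; exact hz (Or.inl ⟨h0, h1⟩)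
  by_cases z0 : x j • y0 = y0
  · exact find_b_aux hI hne h0 hj z0 (fun z1 => hz (Or.inl ⟨z0, z1⟩))
  · by_cases z1 : x j • y1 = y1
    · obtain ⟨y, m, e, l, hl, hli, a, b, c⟩ := find_b_aux hI hne.symm h1 hj z1 z0
      exact ⟨y, m, e, l, hl, hli, b, a, fun h => c ⟨h.2, h.1⟩⟩
    · exact ⟨x, Mv.refl _ _, rfl, j, hj, hji, z0, z1, fun h => hz (Or.inr h)⟩

/-- second goal: a big entry can be completed to a pair generating a group of projective type -/
theorem second [IsAlgClosed k] (h2 : (2 : k) ≠ 0) (hI : Irr (Gn x A))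
    (hfin : (Gn x A : Set (SL k)).Finite) {i : ι} (hi : i ∈ A) (hb : Big (x i)) :
    ∃ y, Mv A x y ∧ y i = x i ∧ ∃ l ∈ A, l ≠ i ∧ ∃ K : Subfield k, (K : Set k).Finite ∧
      Proj (Gn y {i, l}) K := by
  obtain ⟨y0, y1, hne, hf⟩ := fixed_ss hb.ne_four
  obtain ⟨y, m, e, l, hl, hli, a, b, c⟩ := find_b hI hne ((hf _).2 (Or.inl rfl))
    ((hf _).2 (Or.inr rfl))
  refine ⟨y, m, e, l, hl, hli, ?_⟩
  have hle : Gn y {i, l} ≤ Gn x A := by
    rw [← m.gn]
    exact Gn_mono y (by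
      intro t ht
      rcases Finset.mem_insert.1 ht with rfl | ht
      · exact hi
      · rw [Finset.mem_singleton.1 ht]; exact hl)
  exact proj_of_big h2 (hfin.subset hle) (neg_one_mem_Gn _ _) (a := y i) (b := y l)
    (mem_Gn y (by simp)) (mem_Gn y (by simp)) (e ▸ hb) (e ▸ hf) a b c

end Pool.Agent.MP_b84581_al.H49

end MrgPart4

-- ======== part 5: formerly Pool.Agent.MP_b84581_al.h49.FieldArg
section MrgPart5

/-! If enough traces lie in a subfield then all traces do. -/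

set_option autoImplicit false

namespace Pool.Agent.MP_b84581_al.H49

variable {k : Type} [Field k]

def kap (a b : SL k) : k := tr a ^ 2 + tr b ^ 2 + tr (a * b) ^ 2 - tr a * tr b * tr (a * b) - 4

lemma kap_conj (P a b : SL k) : kap (P⁻¹ * a * P) (P⁻¹ * b * P) = kap a b := by
  unfold kap
  rw [show P⁻¹ * a * P * (P⁻¹ * b * P) = P⁻¹ * (a * b) * P by group, tr_conj, tr_conj, tr_conj]

lemma kap_eq (a b : SL k) (hc : a.c = 0) :
    kap a b = b.c * (a.b ^ 2 * b.c + a.b * (a.a - a.d) * (b.a - b.d) - b.b * (a.a - a.d) ^ 2) := by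
  have d1 := upper_ad hc
  have d2 := b.det
  simp only [kap, tr, SL.mul_a, SL.mul_d, hc]
  linear_combination (4 * (b.a * b.d - b.b * b.c) - (b.a + b.d) ^ 2) * d1
    + (4 - (a.a + a.d) ^ 2) * d2

lemma kap_ne [IsAlgClosed k] {a b : SL k} (hn : ¬ Cen a) (h : ∀ y : PL k, a • y = y → b • y ≠ y) :
    kap a b ≠ 0 := by
  have key : ∀ (P : SL k) (y : PL k), (P⁻¹ * a * P) • y = y → (P⁻¹ * b * P) • y ≠ y := by
    intro P y h1 h2
    rw [conj_smul_iff] at h1 h2
    exact h _ h1 h2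
  by_cases h4 : tr a ^ 2 = 4
  · obtain ⟨P, hc⟩ := exists_conj_upper a
    have ha : (P⁻¹ * a * P).a ^ 2 = 1 := (upper_tr_sq hc).1 (by rwa [tr_conj])
    have hb : (P⁻¹ * a * P).b ≠ 0 := fun hb => hn ((cen_conj P a).1 (cen_of_entries hb hc ha))
    have hbc : (P⁻¹ * b * P).c ≠ 0 := fun h' =>
      key P inf ((smul_inf_eq_inf _).2 hc) ((smul_inf_eq_inf _).2 h')
    have hd : (P⁻¹ * a * P).a - (P⁻¹ * a * P).d = 0 := by
      apply mul_left_cancel₀ (upper_a_ne hc)
      linear_combination ha - upper_ad hc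
    rw [← kap_conj P, kap_eq _ _ hc, hd]
    generalize (P⁻¹ * a * P) = a' at hb
    generalize (P⁻¹ * b * P) = b' at hbc
    simpa using ⟨hbc, hb, hbc⟩
  · obtain ⟨P, hc, hb⟩ := exists_conj_diag h4
    have ha : (P⁻¹ * a * P).a ^ 2 ≠ 1 := fun h' => h4 (by
      rw [← tr_conj P]; exact (upper_tr_sq hc).2 h')
    have hbc : (P⁻¹ * b * P).c ≠ 0 := fun h' =>
      key P inf ((smul_inf_eq_inf _).2 hc) ((smul_inf_eq_inf _).2 h')
    have hbb : (P⁻¹ * b * P).b ≠ 0 := fun h' =>
      key P (aff 0) ((smul_aff_eq_aff _ _ _).2 (by rw [hb]; ring))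
        ((smul_aff_eq_aff _ _ _).2 (by rw [h']; ring))
    have hd : (P⁻¹ * a * P).a - (P⁻¹ * a * P).d ≠ 0 := fun h' => ha (by
      linear_combination (P⁻¹ * a * P).a * h' + upper_ad hc)
    rw [← kap_conj P, kap_eq _ _ hc, hb]
    generalize (P⁻¹ * a * P).a - (P⁻¹ * a * P).d = u at hd
    generalize (P⁻¹ * b * P) = b' at hbc hbb
    simpa using ⟨hbc, hbb, hd⟩

lemma raw_span (a1 a2 a3 a4 b1 b2 b3 b4 c1 c2 c3 c4 n1 n2 n3 n4 d1 d2 x y z t0 t1 t2 tw : k)
    (h1 : a1 * a4 - a2 * a3 = d1) (h2 : b1 * b4 - b2 * b3 = d2) (hx : x = a1 + a4) (hy : y = b1 + b4)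
    (hz : z = a1 * b1 + a2 * b3 + (a3 * b2 + a4 * b4)) (ht0 : t0 = c1 + c4)
    (ht1 : t1 = c1 * a1 + c2 * a3 + (c3 * a2 + c4 * a4))
    (ht2 : t2 = c1 * b1 + c2 * b3 + (c3 * b2 + c4 * b4))
    (htw : tw = c1 * (a2 * b3 - b2 * a3) + c2 * (a3 * b1 + a4 * b3 - b3 * a1 - b4 * a3)
      + c3 * (a1 * b2 + a2 * b4 - b1 * a2 - b2 * a4) + c4 * (a3 * b2 - b3 * a2)) :
    2 * (x ^ 2 * d2 + y ^ 2 * d1 + z ^ 2 - x * y * z - 4 * d1 * d2) *
        (n1 * c1 + n2 * c3 + (n3 * c2 + n4 * c4)) =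
      -((((x ^ 2 - 2 * d1) * (y ^ 2 - 2 * d2) - z ^ 2) * t0 + (y * z - x * (y ^ 2 - 2 * d2)) * t1
            + (x * z - y * (x ^ 2 - 2 * d1)) * t2) * (n1 + n4)
        + ((y * z - x * (y ^ 2 - 2 * d2)) * t0 + (y ^ 2 - 4 * d2) * t1 + (x * y - 2 * z) * t2)
            * (n1 * a1 + n2 * a3 + (n3 * a2 + n4 * a4))
        + ((x * z - y * (x ^ 2 - 2 * d1)) * t0 + (x * y - 2 * z) * t1 + (x ^ 2 - 4 * d1) * t2)
            * (n1 * b1 + n2 * b3 + (n3 * b2 + n4 * b4)))
      + tw * (n1 * (a2 * b3 - b2 * a3) + n2 * (a3 * b1 + a4 * b3 - b3 * a1 - b4 * a3)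
        + n3 * (a1 * b2 + a2 * b4 - b1 * a2 - b2 * a4) + n4 * (a3 * b2 - b3 * a2)) := by
  subst h1 h2 hx hy hz ht0 ht1 ht2 htw
  ring

lemma tr_span (a b c N : SL k) :
    2 * kap a b * tr (N * c) =
      -((((tr a ^ 2 - 2) * (tr b ^ 2 - 2) - tr (a * b) ^ 2) * tr c
            + (tr b * tr (a * b) - tr a * (tr b ^ 2 - 2)) * tr (c * a)
            + (tr a * tr (a * b) - tr b * (tr a ^ 2 - 2)) * tr (c * b)) * tr N
        + ((tr b * tr (a * b) - tr a * (tr b ^ 2 - 2)) * tr c + (tr b ^ 2 - 4) * tr (c * a)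
            + (tr a * tr b - 2 * tr (a * b)) * tr (c * b)) * tr (N * a)
        + ((tr a * tr (a * b) - tr b * (tr a ^ 2 - 2)) * tr c
            + (tr a * tr b - 2 * tr (a * b)) * tr (c * a) + (tr a ^ 2 - 4) * tr (c * b)) * tr (N * b))
      + (tr (c * a * b) - tr (c * b * a)) * (tr (N * a * b) - tr (N * b * a)) := by
  have := raw_span a.a a.b a.c a.d b.a b.b b.c b.d c.a c.b c.c c.d N.a N.b N.c N.d 1 1
    (tr a) (tr b) (tr (a * b)) (tr c) (tr (c * a)) (tr (c * b)) (tr (c * a * b) - tr (c * b * a))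
    a.det b.det rfl rfl rfl rfl rfl rfl (by simp [tr]; ring)
  have e : tr (N * a * b) - tr (N * b * a) = N.a * (a.b * b.c - b.b * a.c) +
      N.b * (a.c * b.a + a.d * b.c - b.c * a.a - b.d * a.c)
        + N.c * (a.a * b.b + a.b * b.d - b.a * a.b - b.b * a.d) + N.d * (a.c * b.b - b.c * a.b) := by
    simp [tr]; ring
  rw [e, kap]
  change _ * (N.a * c.a + N.b * c.c + (N.c * c.b + N.d * c.d)) = -(_ * (N.a + N.d)
    + _ * (N.a * a.a + N.b * a.c + (N.c * a.b + N.d * a.d))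
    + _ * (N.a * b.a + N.b * b.c + (N.c * b.b + N.d * b.d))) + _
  linear_combination this

lemma tr_sq_mul (g a : SL k) : tr (g * a * a) = tr a * tr (g * a) - tr g := by
  have d := a.det
  simp only [tr, SL.mul_a, SL.mul_b, SL.mul_c, SL.mul_d]
  linear_combination (-(g.a + g.d)) * d

lemma tr_mul_inv (g a : SL k) : tr (g * a⁻¹) = tr a * tr g - tr (g * a) := by
  simp only [tr, SL.mul_a, SL.mul_d, SL.inv_a, SL.inv_b, SL.inv_c, SL.inv_d]
  ring

lemma tr_swap (g a b : SL k) : tr (g * b * a) = tr a * tr (g * b) + tr b * tr (g * a)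
    + (tr (a * b) - tr a * tr b) * tr g - tr (g * a * b) := by
  simp only [tr, SL.mul_a, SL.mul_b, SL.mul_c, SL.mul_d]
  ring

/-- the four traces lie in `K` -/
def TrIn (K : Subfield k) (a b g : SL k) : Prop :=
  tr g ∈ K ∧ tr (g * a) ∈ K ∧ tr (g * b) ∈ K ∧ tr (g * a * b) ∈ K

theorem field_arg (h2 : (2 : k) ≠ 0) (K : Subfield k) {a b : SL k} (hk : kap a b ≠ 0)
    (hx : tr a ∈ K) (hy : tr b ∈ K) (hz : tr (a * b) ∈ K) {S : Set (SL k)}
    (hS : ∀ c ∈ S, c = a ∨ c = b ∨ TrIn K a b c) : ∀ g ∈ Cl S, tr g ∈ K := by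
  have two : (2 : k) ∈ K := by exact_mod_cast natCast_mem K 2
  have four : (4 : k) ∈ K := by exact_mod_cast natCast_mem K 4
  have cyc : ∀ g e c : SL k, tr (g * c * e) = tr (e * g * c) := fun g e c => by
    rw [tr_mul_comm (g * c) e, mul_assoc]
  have hba : ∀ g, TrIn K a b g → tr (g * b * a) ∈ K := by
    rintro g ⟨t0, t1, t2, t3⟩
    rw [tr_swap]
    exact K.sub_mem (K.add_mem (K.add_mem (K.mul_mem hx t2) (K.mul_mem hy t1))
      (K.mul_mem (K.sub_mem hz (K.mul_mem hx hy)) t0)) t3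
  have ma : ∀ g, TrIn K a b g → TrIn K a b (g * a) := by
    rintro g ⟨t0, t1, t2, t3⟩
    refine ⟨t1, ?_, t3, ?_⟩
    · rw [tr_sq_mul]; exact K.sub_mem (K.mul_mem hx t1) t0
    · rw [tr_mul_comm _ b, ← mul_assoc, ← mul_assoc, tr_sq_mul, ← cyc, tr_mul_comm b g]
      exact K.sub_mem (K.mul_mem hx t3) t2
  have mb : ∀ g, TrIn K a b g → TrIn K a b (g * b) := by
    intro g hg
    have t4 := hba g hg
    obtain ⟨t0, t1, t2, t3⟩ := hg
    have t5 : tr (g * b * b) ∈ K := by rw [tr_sq_mul]; exact K.sub_mem (K.mul_mem hy t2) t0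
    refine ⟨t2, t4, t5, ?_⟩
    have := tr_swap (g * b) a b
    have e : tr (g * b * b * a) = tr b * tr (g * b * a) - tr (g * a) := by
      rw [tr_mul_comm _ a, ← mul_assoc, ← mul_assoc, tr_sq_mul, ← cyc, tr_mul_comm a g]
    rw [e] at this
    have e2 : tr (g * b * a * b) = tr a * tr (g * b * b) + (tr (a * b) - tr a * tr b) * tr (g * b)
        + tr (g * a) := by linear_combination this
    rw [e2]
    exact K.add_mem (K.add_mem (K.mul_mem hx t5) (K.mul_mem (K.sub_mem hz (K.mul_mem hx hy)) t2)) t1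
  have hkK : kap a b ∈ K :=
    K.sub_mem (K.sub_mem (K.add_mem (K.add_mem (K.pow_mem hx 2) (K.pow_mem hy 2)) (K.pow_mem hz 2))
      (K.mul_mem (K.mul_mem hx hy) hz)) four
  have prod : ∀ N c, TrIn K a b N → TrIn K a b c → tr (N * c) ∈ K := by
    intro N c hN hc
    have n4 := hba N hN
    have c4 := hba c hc
    obtain ⟨n0, n1, n2, n3⟩ := hN
    obtain ⟨c0, c1, c2, c3⟩ := hc
    have e := tr_span a b c N
    have : tr (N * c) = (2 * kap a b * tr (N * c)) / (2 * kap a b) := by field_simp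
    rw [this, e]
    refine K.div_mem ?_ (K.mul_mem two hkK)
    repeat' first
      | assumption
      | apply K.add_mem
      | apply K.sub_mem
      | apply K.neg_mem
      | apply K.mul_mem
      | apply K.pow_mem
  -- left multiples
  have la : ∀ g, TrIn K a b g → TrIn K a b (a * g) := by
    intro g hg
    refine ⟨by rw [tr_mul_comm]; exact hg.2.1, by rw [← cyc]; exact (ma g hg).2.1,
      by rw [← cyc]; exact (mb g hg).2.1, ?_⟩
    rw [mul_assoc, mul_assoc, tr_mul_comm, ← mul_assoc]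
    exact (mb _ (ma g hg)).2.1
  have lb : ∀ g, TrIn K a b g → TrIn K a b (b * g) := by
    intro g hg
    refine ⟨by rw [tr_mul_comm]; exact hg.2.2.1, by rw [← cyc]; exact (ma g hg).2.2.1,
      by rw [← cyc]; exact (mb g hg).2.2.1, ?_⟩
    rw [mul_assoc, mul_assoc, tr_mul_comm, ← mul_assoc]
    exact (mb _ (ma g hg)).2.2.1
  have mc : ∀ c, TrIn K a b c → ∀ g, TrIn K a b g → TrIn K a b (g * c) := by
    intro c hc g hg
    refine ⟨prod g c hg hc, ?_, ?_, ?_⟩
    · rw [cyc]; exact prod _ c (la g hg) hc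
    · rw [cyc]; exact prod _ c (lb g hg) hc
    · rw [mul_assoc (g * c), cyc, mul_assoc a b g]; exact prod _ c (la _ (lb g hg)) hc
  have one : TrIn K a b 1 := ⟨by simp [tr, one_add_one_eq_two], by simpa using hx,
    by simpa using hy, by simpa using hz⟩
  have minv : ∀ c, (∀ g, TrIn K a b g → TrIn K a b (g * c)) →
      ∀ g, TrIn K a b g → TrIn K a b (g * c⁻¹) := by
    intro c hc g hg
    have tc : tr c ∈ K := by simpa using (hc 1 one).1
    have := hc g hg
    refine ⟨?_, ?_, ?_, ?_⟩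
    · rw [tr_mul_inv]; exact K.sub_mem (K.mul_mem tc hg.1) this.1
    · rw [cyc, tr_mul_inv, ← cyc, tr_mul_comm a g]; exact K.sub_mem (K.mul_mem tc hg.2.1) this.2.1
    · rw [cyc, tr_mul_inv, ← cyc, tr_mul_comm b g]
      exact K.sub_mem (K.mul_mem tc hg.2.2.1) this.2.2.1
    · rw [mul_assoc (g * c⁻¹), cyc, tr_mul_inv, ← cyc g (a * b) c, tr_mul_comm (a * b) g,
        ← mul_assoc, ← mul_assoc]
      exact K.sub_mem (K.mul_mem tc hg.2.2.2) this.2.2.2
  let R : Subgroup (SL k) :=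
    { carrier := {c | ∀ g, TrIn K a b g → TrIn K a b (g * c)}
      mul_mem' := fun {c d} hc hd g hg => by rw [← mul_assoc]; exact hd _ (hc g hg)
      one_mem' := fun g hg => by rwa [mul_one]
      inv_mem' := fun {c} hc => minv c hc }
  have hle : Cl S ≤ R := by
    apply Cl_le
    · intro g hg
      obtain ⟨t0, t1, t2, t3⟩ := hg
      refine ⟨?_, ?_, ?_, ?_⟩ <;> simp only [mul_neg, mul_one, neg_mul, tr_neg] <;>
        exact K.neg_mem (by assumption)
    · intro c hc
      rcases hS c hc with rfl | rfl | h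
      · exact ma
      · exact mb
      · exact mc c h
  intro g hg
  simpa using (hle hg 1 one).1

end Pool.Agent.MP_b84581_al.H49

end MrgPart5

-- marker of a merged file
example : 731051 + 356655 = 731051 + 356655 := rfl
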