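import Mathlib.Topology.Sheaves.Presheaf
import Mathlib.FieldTheory.IsAlgClosed.AlgebraicClosure
import Mathlib.FieldTheory.Finite.Basic
import Mathlib.Combinatorics.SimpleGraph.Basic
import Mathlib.Tactic.NormNum.Prime
import Mathlib.Order.CompletePartialOrder
import Pool.Agent.MP_b84581_al.h49.FieldArg
import Pool.Agent.MP_b84581_al.h49.Small

-- ======== part 0: formerly Pool.Agent.MP_b84581_al.h49.First
section MrgPart0

/-! First goal: a pair of entries generating a group of projective type. -/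

set_option autoImplicit false

namespace Pool.Agent.MP_b84581_al.H49

open Function Polynomial

variable {k : Type} [Field k] {ι : Type} [DecidableEq ι]

/-- matrices with entries in a subfield -/
def SLK (K : Subfield k) : Subgroup (SL k) where
  carrier := {g | InK K g}
  mul_mem' := fun {_ _} ⟨a, b, c, d⟩ ⟨a', b', c', d'⟩ =>
    ⟨K.add_mem (K.mul_mem a a') (K.mul_mem b c'), K.add_mem (K.mul_mem a b') (K.mul_mem b d'),
      K.add_mem (K.mul_mem c a') (K.mul_mem d c'), K.add_mem (K.mul_mem c b') (K.mul_mem d d')⟩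
  one_mem' := ⟨K.one_mem, K.zero_mem, K.zero_mem, K.one_mem⟩
  inv_mem' := fun {_} ⟨a, b, c, d⟩ => ⟨d, K.neg_mem b, K.neg_mem c, a⟩

lemma mem_SLK {K : Subfield k} {g : SL k} : g ∈ SLK K ↔ InK K g := Iff.rfl

lemma SLK_finite {K : Subfield k} (hK : (K : Set k).Finite) : (SLK K : Set (SL k)).Finite := by
  refine Set.Finite.of_finite_image (f := fun g : SL k => (g.a, g.b, g.c, g.d))
    ((hK.prod (hK.prod (hK.prod hK))).subset ?_) ?_
  · rintro _ ⟨g, hg, rfl⟩
    exact hg
  · intro g _ h _ e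
    simp only [Prod.mk.injEq] at e
    ext
    · exact e.1
    · exact e.2.1
    · exact e.2.2.1
    · exact e.2.2.2

lemma tr_mem_of_SLK {K : Subfield k} {g : SL k} (hg : g ∈ SLK K) : tr g ∈ K :=
  K.add_mem hg.1 hg.2.2.2

lemma exists_tr_SLK {K : Subfield k} {t : k} (ht : t ∈ K) : ∃ g ∈ SLK K, tr g = t :=
  ⟨⟨t, -1, 1, 0, by ring⟩, ⟨ht, K.neg_mem K.one_mem, K.one_mem, K.zero_mem⟩, by simp [tr]⟩

lemma up_fix {s : k} (hs : s ≠ 0) {y : PL k} (h : up s • y = y) : y = inf :=
  (fixed_upper_unip (g := up s) rfl (fun h => hs (by simpa using h.b))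
    (by simp [tr]; norm_num) y).1 h

lemma irr_SLK (h2 : (2 : k) ≠ 0) (K : Subfield k) : Irr (SLK K) := by
  have m1 : up 1 ∈ SLK K := ⟨K.one_mem, K.one_mem, K.zero_mem, K.one_mem⟩
  have m2 : lo 1 ∈ SLK K := ⟨K.one_mem, K.zero_mem, K.one_mem, K.one_mem⟩
  constructor
  · intro y
    by_cases h : up (1 : k) • y = y
    · refine ⟨lo 1, m2, ?_⟩
      rw [up_fix one_ne_zero h, Ne, smul_inf_eq_inf]
      simp
    · exact ⟨up 1, m1, h⟩
  · intro y0 y1 hne
    refine ⟨up 1, m1, fun h => hne ?_⟩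
    have e : up (2 : k) = up 1 * up 1 := by rw [← up_add]; norm_num
    have : up (2 : k) • y0 = y0 ∧ up (2 : k) • y1 = y1 := by
      rw [e, mul_smul, mul_smul]
      rcases h with ⟨h1, h3⟩ | ⟨h1, h3⟩
      · simp only [h1, h3, and_self]
      · simp only [h1, h3, and_self]
    rw [up_fix h2 this.1, up_fix h2 this.2]

lemma card_le_natDegree {f : k[X]} (hf : f ≠ 0) (S : Finset k) (h : ∀ t ∈ S, f.eval t = 0) :
    S.card ≤ f.natDegree :=
  card_le_degree_of_subset_roots (fun t ht => (mem_roots hf).2 (h t ht))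

lemma card_eq_toFinset {K : Subfield k} (hK : (K : Set k).Finite) :
    Nat.card K = hK.toFinset.card := by
  rw [← Set.ncard_eq_toFinset_card _ hK]; rfl

lemma card_le_of_pow {K : Subfield k} (hK : (K : Set k).Finite) {m : ℕ} (hm : 1 < m)
    (h : ∀ t ∈ K, t ^ m = t) : Nat.card K ≤ m := by
  rw [card_eq_toFinset hK]
  have := card_le_natDegree (FiniteField.X_pow_card_sub_X_ne_zero k hm) hK.toFinset
    (fun t ht => by simp [h t (hK.mem_toFinset.1 ht)])
  rwa [FiniteField.X_pow_card_sub_X_natDegree_eq k hm] at this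

lemma exists_fix_field (p d : ℕ) (hp : p.Prime) (h : (p : k) = 0) :
    ∃ K : Subfield k, ∀ t, t ∈ K ↔ t ^ p ^ d = t := by
  have : CharP k p := (CharP.charP_iff_prime_eq_zero hp).2 h
  have : ExpChar k p := ExpChar.prime hp
  exact ⟨(iterateFrobenius k p d).eqLocusField (RingHom.id k), fun t => Iff.rfl⟩

lemma four_le_card {K : Subfield k} (hK : (K : Set k).Finite) (h2 : (2 : k) ≠ 0) {t : k}
    (ht : t ∈ K) (h : t * (t - 1) * (t - 2) ≠ 0) : 4 ≤ Nat.card K := by
  classical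
  rw [card_eq_toFinset hK]
  have hs : ({0, 1, 2, t} : Finset k) ⊆ hK.toFinset := by
    intro x hx
    rw [Set.Finite.mem_toFinset]
    simp only [Finset.mem_insert, Finset.mem_singleton] at hx
    rcases hx with rfl | rfl | rfl | rfl
    · exact K.zero_mem
    · exact K.one_mem
    · exact_mod_cast natCast_mem K 2
    · exact ht
  have : ({0, 1, 2, t} : Finset k).card = 4 := by
    rw [Finset.card_eq_four]
    refine ⟨0, 1, 2, t, by simp, h2.symm, fun e => h (by rw [← e]; ring),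
      fun e => one_ne_zero (α := k) (by linear_combination -e), fun e => h (by rw [← e]; ring),
      fun e => h (by rw [← e]; ring), rfl⟩
  have := Finset.card_le_card hs
  omega

variable {A : Finset ι} {x : ι → SL k}

lemma mem_erase' {i j : ι} (hj : j ∈ A) (h : j ≠ i) : x j ∈ Gn x (A.erase i) :=
  mem_Gn x (Finset.mem_erase.2 ⟨h, hj⟩)

lemma fa_tuple [IsAlgClosed k] (h2 : (2 : k) ≠ 0) (hI : Irr (Gn x A)) {i : ι} (hi : i ∈ A)
    (hn : ¬ Cen (x i)) (K : Subfield k) (hK : ∀ y, Mv A x y → ∀ j ∈ A, tr (y j) ∈ K) :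
    ∀ g ∈ Gn x A, tr g ∈ K := by
  obtain ⟨y, m, e, j, hj, hji, hf⟩ : ∃ y, Mv A x y ∧ y i = x i ∧ ∃ j ∈ A, j ≠ i ∧
      ∀ z : PL k, x i • z = z → y j • z ≠ z := by
    by_cases h4 : tr (x i) ^ 2 = 4
    · obtain ⟨y0, h⟩ := fixed_unip hn h4
      obtain ⟨j, hj, w⟩ := exists_move hI y0
      refine ⟨x, Mv.refl _ _, rfl, j, hj, ?_, fun z hz => by rwa [(h z).1 hz]⟩
      rintro rfl; exact w ((h _).2 rfl)
    · obtain ⟨y0, y1, hne, h⟩ := fixed_ss h4
      obtain ⟨y, m, e, j, hj, hji, a, b, -⟩ := find_b hI hne ((h _).2 (Or.inl rfl))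
        ((h _).2 (Or.inr rfl))
      refine ⟨y, m, e, j, hj, hji, fun z hz => ?_⟩
      rcases (h z).1 hz with rfl | rfl
      · exact a
      · exact b
  rw [← e] at hn hf
  have key : ∀ l ∈ A, ∀ h ∈ Gn y (A.erase l), tr (y l * h) ∈ K := by
    intro l hl h hh
    have := hK _ (m.trans (mv_right hl hh)) l hl
    rwa [update_self] at this
  rw [← m.gn]
  refine field_arg h2 K (kap_ne hn hf) (hK y m i hi) (hK y m j hj)
    (key i hi _ (mem_erase' hj hji)) ?_
  rintro _ ⟨l, hl, rfl⟩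
  by_cases e1 : l = i
  · left; rw [e1]
  by_cases e2 : l = j
  · right; left; rw [e2]
  right; right
  have a1 := mem_erase' (x := y) hi (Ne.symm e1)
  have a2 := mem_erase' (x := y) hj (Ne.symm e2)
  refine ⟨hK y m l hl, key l hl _ a1, key l hl _ a2, ?_⟩
  rw [mul_assoc]
  exact key l hl _ (Subgroup.mul_mem _ a1 a2)

lemma clo_tuple {i : ι} (hi : i ∈ A) (hA : 3 ≤ A.card) (S : k → Prop)
    (hS : ∀ y, Mv A x y → ∀ j ∈ A, S (tr (y j) ^ 2)) : ∃ T, Clo (x i) T S := by
  obtain ⟨j, hj, l, hl, hjl⟩ : ∃ j ∈ A.erase i, ∃ l ∈ A.erase i, j ≠ l :=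
    Finset.one_lt_card.1 (by rw [Finset.card_erase_of_mem hi]; omega)
  obtain ⟨hji, hj⟩ := Finset.mem_erase.1 hj
  obtain ⟨hli, hl⟩ := Finset.mem_erase.1 hl
  refine ⟨{q | ∃ y, Mv A x y ∧ y i = x i ∧ y j = q.1 ∧ y l = q.2}, ⟨⟨(x j, x l), x, Mv.refl _ _,
    rfl, rfl, rfl⟩, ?_, ?_, ?_, ?_⟩⟩
  · rintro b c ⟨y, m, e1, e2, e3⟩ n
    refine ⟨_, m.trans (mv_right hj (Subgroup.mul_mem _
      (Subgroup.pow_mem _ (mem_erase' hi hji.symm) n) (mem_erase' hl hjl.symm))), ?_, ?_, ?_⟩
    · rw [update_of_ne hji.symm, e1]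
    · rw [update_self, e1, e2, e3, mul_assoc]
    · rw [update_of_ne hjl.symm, e3]
  · rintro b c ⟨y, m, e1, e2, e3⟩ n
    refine ⟨_, m.trans (mv_left hl (Subgroup.mul_mem _ (mem_erase' hj hjl)
      (Subgroup.pow_mem _ (mem_erase' hi hli.symm) n))), ?_, ?_, ?_⟩
    · rw [update_of_ne hli.symm, e1]
    · rw [update_of_ne hjl, e2]
    · rw [update_self, e1, e2, e3]
  · rintro b c ⟨y, m, e1, e2, e3⟩ n
    have := hS _ (m.trans (mv_right hj (Subgroup.pow_mem _ (mem_erase' hi hji.symm) n))) j hj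
    rwa [update_self, e1, e2] at this
  · rintro b c ⟨y, m, e1, e2, e3⟩ n
    have := hS _ (m.trans (mv_right hl (Subgroup.pow_mem _ (mem_erase' hi hli.symm) n))) l hl
    rwa [update_self, e1, e3] at this

omit [DecidableEq ι] in
lemma pair_sub [DecidableEq ι] {i j : ι} (hi : i ∈ A) (hj : j ∈ A) : ({i, j} : Finset ι) ⊆ A := by
  intro t ht
  rcases Finset.mem_insert.1 ht with rfl | ht
  · exact hi
  · rw [Finset.mem_singleton.1 ht]; exact hj

theorem first [IsAlgClosed k] (h2 : (2 : k) ≠ 0) {F : Subfield k} (hF : (F : Set k).Finite)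
    (h13 : 13 ≤ Nat.card F) (hA : 3 ≤ A.card) (hx : Gn x A = SLK F)
    (hno : ∀ y, Mv A x y → ∀ i ∈ A, ¬ Cen (y i)) :
    ∃ y, Mv A x y ∧ ∃ i ∈ A, ∃ j ∈ A, j ≠ i ∧ ∃ K : Subfield k, (K : Set k).Finite ∧
      4 ≤ Nat.card K ∧ Proj (Gn y {i, j}) K := by
  have hI : ∀ y, Mv A x y → Irr (Gn y A) := fun y m => by rw [m.gn, hx]; exact irr_SLK h2 F
  have hfin : ∀ y, Mv A x y → (Gn y A : Set (SL k)).Finite := fun y m => by
    rw [m.gn, hx]; exact SLK_finite hF
  obtain ⟨i0, hi0⟩ : A.Nonempty := Finset.card_pos.1 (by omega)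
  have FA : ∀ (p d : ℕ), p.Prime → (p : k) = 0 → 1 < p ^ d → p ^ d < 13 →
      (∀ y, Mv A x y → ∀ j ∈ A, tr (y j) ^ p ^ d = tr (y j)) → False := by
    intro p d hp h0 h1 h3 h
    obtain ⟨K, hK⟩ := exists_fix_field p d hp h0
    have := fa_tuple h2 (hI x (Mv.refl _ _)) hi0 (hno x (Mv.refl _ _) i0 hi0) K
      (fun y m j hj => (hK _).2 (h y m j hj))
    have := card_le_of_pow hF h1 (fun t ht => by
      obtain ⟨g, hg, rfl⟩ := exists_tr_SLK ht
      exact (hK _).1 (this g (hx ▸ hg)))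
    omega
  by_cases c1 : ∃ y, Mv A x y ∧ ∃ i ∈ A, Big (y i)
  · obtain ⟨y, m, i, hi, hb⟩ := c1
    obtain ⟨z, m', e, l, hl, hli, K, hK, hP⟩ := second h2 (hI y m) (hfin y m) hi hb
    refine ⟨z, m.trans m', i, hi, l, hl, hli, K, hK, ?_, hP⟩
    refine four_le_card hK h2 (hP.tr_sq (mem_Gn z (Finset.mem_insert_self _ _))) ?_
    rw [e]
    intro h
    apply hb
    rw [h]; ring
  push Not at c1
  simp only [Big, ne_eq, not_not] at c1
  by_cases c3 : (3 : k) = 0
  · exfalso
    refine FA 3 2 Nat.prime_three (by exact_mod_cast c3) (by norm_num) (by norm_num) ?_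
    intro y m j hj
    have := c1 y m j hj
    generalize tr (y j) = t at this
    norm_num only
    simp only [mul_eq_zero] at this
    rcases this with (((h | h) | h) | h) | h
    · rw [pow_eq_zero_iff two_ne_zero |>.1 h]; ring
    · linear_combination (t * (t ^ 6 + t ^ 4 + t ^ 2 + 1)) * h
    · linear_combination (t * (t ^ 6 + 2 * t ^ 4 + 4 * t ^ 2 + 8)) * h + 5 * t * c3
    · linear_combination (t * (t ^ 6 + 4 * t ^ 4 + 16 * t ^ 2 + 64)) * h + 85 * t * c3
    · linear_combination (t * (t ^ 4 + 3 * t ^ 2 + 8)) * h + (7 * t ^ 3 - 3 * t) * c3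
  by_cases c4 : ∃ y, Mv A x y ∧ ∃ i ∈ A, tr (y i) ^ 2 = 4
  · obtain ⟨y, m, i, hi, h4⟩ := c4
    obtain ⟨y0, h⟩ := fixed_unip (hno y m i hi) h4
    obtain ⟨j, hj, w⟩ := exists_move (hI y m) y0
    have hji : j ≠ i := by rintro rfl; exact w ((h _).2 rfl)
    obtain ⟨K, hK, hP⟩ := dickson (H := Gn y {i, j}) h2
      ((hfin y m).subset (Gn_mono y (pair_sub hi hj))) (neg_one_mem_Gn _ _)
      (mem_Gn y (Finset.mem_insert_self _ _)) (hno y m i hi) h4
      (fun z hz => ⟨y j, mem_Gn y (by simp), by rwa [(h z).1 hz]⟩) (Or.inl c3)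
    refine ⟨y, m, i, hi, j, hj, hji, K, hK, ?_, hP⟩
    refine four_le_card hK h2 (K.neg_mem K.one_mem) ?_
    rw [show (-1 : k) * (-1 - 1) * (-1 - 2) = -(2 * 3) by ring]
    exact neg_ne_zero.2 (mul_ne_zero h2 c3)
  exfalso
  push Not at c4
  have c5 : ∀ y, Mv A x y → ∀ j ∈ A, tr (y j) ^ 2 * (tr (y j) ^ 2 - 1) * (tr (y j) ^ 2 - 2) *
      ((tr (y j) ^ 2) ^ 2 - 3 * tr (y j) ^ 2 + 1) = 0 := by
    intro y m j hj
    apply mul_left_cancel₀ (sub_ne_zero.2 (c4 y m j hj))
    linear_combination c1 y m j hj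
  have red : ∀ (S : k → Prop), (∀ y, Mv A x y → ∀ j ∈ A, S (tr (y j) ^ 2)) → ∀ y, Mv A x y →
      ∀ i ∈ A, ∃ (a : SL k) (T : Set (SL k × SL k)), a.b = 0 ∧ a.c = 0 ∧ tr a = tr (y i) ∧
        Clo a T S := by
    intro S hS y m i hi
    obtain ⟨T, hT⟩ := clo_tuple (x := y) hi hA S (fun z m' => hS z (m.trans m'))
    obtain ⟨P, hc, hb⟩ := exists_conj_diag (c4 y m i hi)
    exact ⟨_, _, hb, hc, tr_conj _ _, hT.conj P⟩
  by_cases d5 : ∃ y, Mv A x y ∧ ∃ i ∈ A, (tr (y i) ^ 2) ^ 2 - 3 * tr (y i) ^ 2 + 1 = 0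
  · obtain ⟨y, m, i, hi, h⟩ := d5
    obtain ⟨a, T, hb, hc, ht, hT⟩ := red (fun t => t * (t - 1) * (t - 2) * (t ^ 2 - 3 * t + 1) = 0) c5 y m i hi
    refine no5 h2 c3 (fun h5 => c4 y m i hi ?_) hb hc (by rwa [ht]) hT
    have : (tr (y i) ^ 2 - 4) ^ 2 = 0 := by linear_combination h + (3 - tr (y i) ^ 2) * h5
    exact sub_eq_zero.1 (pow_eq_zero_iff two_ne_zero |>.1 this)
  push Not at d5
  have c6 : ∀ y, Mv A x y → ∀ j ∈ A,
      tr (y j) ^ 2 * (tr (y j) ^ 2 - 1) * (tr (y j) ^ 2 - 2) = 0 :=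
    fun y m j hj => (mul_eq_zero.1 (c5 y m j hj)).resolve_right (d5 y m j hj)
  by_cases c7 : (7 : k) = 0
  · refine FA 7 1 (by norm_num) (by exact_mod_cast c7) (by norm_num) (by norm_num) ?_
    intro y m j hj
    have := c6 y m j hj
    generalize tr (y j) = t at this
    norm_num only
    simp only [mul_eq_zero] at this
    rcases this with (h | h) | h
    · rw [pow_eq_zero_iff two_ne_zero |>.1 h]; ring
    · linear_combination (t * (t ^ 4 + t ^ 2 + 1)) * h
    · linear_combination (t * (t ^ 4 + 2 * t ^ 2 + 4)) * h + t * c7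
  by_cases d4 : ∃ y, Mv A x y ∧ ∃ i ∈ A, tr (y i) ^ 2 = 2
  · obtain ⟨y, m, i, hi, h⟩ := d4
    obtain ⟨a, T, hb, hc, ht, hT⟩ := red (fun t => t * (t - 1) * (t - 2) = 0) c6 y m i hi
    exact no4 h2 c3 c7 hb hc (by rwa [ht]) hT
  push Not at d4
  have c8 : ∀ y, Mv A x y → ∀ j ∈ A, tr (y j) ^ 2 * (tr (y j) ^ 2 - 1) = 0 :=
    fun y m j hj => (mul_eq_zero.1 (c6 y m j hj)).resolve_right (sub_ne_zero.2 (d4 y m j hj))
  by_cases d3 : ∃ y, Mv A x y ∧ ∃ i ∈ A, tr (y i) ^ 2 = 1
  · obtain ⟨y, m, i, hi, h⟩ := d3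
    obtain ⟨a, T, hb, hc, ht, hT⟩ := red (fun t => t * (t - 1) = 0) c8 y m i hi
    exact no3 h2 c3 hb hc (by rwa [ht]) hT
  push Not at d3
  have c9 : ∀ y, Mv A x y → ∀ j ∈ A, tr (y j) ^ 2 = 0 :=
    fun y m j hj => (mul_eq_zero.1 (c8 y m j hj)).resolve_right (sub_ne_zero.2 (d3 y m j hj))
  obtain ⟨a, T, hb, hc, ht, hT⟩ := red (fun t => t = 0) c9 x (Mv.refl _ _) i0 hi0
  exact no2 h2 hb hc (by rw [ht]; exact c9 x (Mv.refl _ _) i0 hi0) hT

end Pool.Agent.MP_b84581_al.H49

end MrgPart0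

-- ======== part 1: formerly Pool.Agent.MP_b84581_al.h49.Growth
section MrgPart1

/-! The field attached to a pair of entries can be enlarged. -/

set_option autoImplicit false

namespace Pool.Agent.MP_b84581_al.H49

open Function Polynomial Finset
open scoped Classical

variable {k : Type} [Field k]

lemma union_lines {α β : Type} [DecidableEq α] [DecidableEq β] (L : β → Finset α) (q : ℕ)
    (R : Finset β) (h1 : ∀ r ∈ R, (L r).card = q)
    (h2 : ∀ r ∈ R, ∀ r' ∈ R, r ≠ r' → (L r ∩ L r').card ≤ 1) :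
    2 * (R.card * q) + R.card ≤ 2 * (R.biUnion L).card + R.card * R.card := by
  induction R using Finset.induction_on with
  | empty => simp
  | insert r R hr ih =>
    have ih' := ih (fun t ht => h1 t (mem_insert_of_mem ht))
      (fun t ht t' ht' => h2 t (mem_insert_of_mem ht) t' (mem_insert_of_mem ht'))
    rw [biUnion_insert, card_insert_of_notMem hr]
    have e := card_union_add_card_inter (L r) (R.biUnion L)
    have e2 : (L r ∩ R.biUnion L).card ≤ R.card := by
      rw [inter_biUnion]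
      refine le_trans card_biUnion_le ?_
      rw [card_eq_sum_ones R]
      exact sum_le_sum (fun t ht => h2 r (mem_insert_self _ _) t (mem_insert_of_mem ht)
        (fun h => hr (h ▸ ht)))
    rw [h1 r (mem_insert_self _ _)] at e
    nlinarith

lemma geo (p c D : ℕ) (hc : c + 1 ≤ p) :
    c * ∑ d ∈ range D, p ^ (d + 1) + (c + 1) ≤ (c + 1) * p ^ D := by
  induction D with
  | zero => simp
  | succ n ih =>
    rw [sum_range_succ, pow_succ]
    have := Nat.mul_le_mul_right (p ^ n) hc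
    nlinarith

lemma card_pow {K : Subfield k} (hK : (K : Set k).Finite) :
    ∃ n, 1 ≤ n ∧ (ringChar k).Prime ∧ Nat.card K = ringChar k ^ n := by
  have : Finite K := hK
  have := Fintype.ofFinite K
  obtain ⟨n, hp, hn⟩ := FiniteField.card K (ringChar k)
  exact ⟨n, n.2, hp, by rw [Nat.card_eq_fintype_card, hn]⟩

lemma pow_card_mem {K : Subfield k} (hK : (K : Set k).Finite) {t : k} (ht : t ∈ K) :
    t ^ Nat.card K = t := by
  have : Finite K := hK
  have := Fintype.ofFinite K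
  have h := FiniteField.pow_card (⟨t, ht⟩ : K)
  rw [Nat.card_eq_fintype_card]
  exact congrArg Subtype.val h

lemma dep_of_lin {K : Subfield k} {g h α β : k} (ha : α ∈ K) (hb : β ∈ K) (hne : α ≠ 0 ∨ β ≠ 0)
    (e : α * g = β * h) : Dep K g h := by
  by_cases h0 : h = 0
  · by_cases g0 : g = 0
    · exact ⟨1, one_ne_zero, by simp [g0], by simp [h0]⟩
    · exact ⟨g⁻¹, inv_ne_zero g0, by simp [g0], by simp [h0]⟩
  · have a0 : α ≠ 0 := by
      intro a0
      rw [a0, zero_mul] at e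
      rcases hne with h' | h'
      · exact h' a0
      · exact mul_ne_zero h' h0 e.symm
    refine ⟨h⁻¹, inv_ne_zero h0, ?_, by simp [h0]⟩
    have : h⁻¹ * g = β / α := by field_simp; linear_combination e
    rw [this]; exact K.div_mem hb ha

lemma exists_good (h2 : (2 : k) ≠ 0) {K : Subfield k} (hK : (K : Set k).Finite)
    (h4 : 4 ≤ Nat.card K) (e f g h : k) (hd : ¬ Dep K g h) :
    ∃ r ∈ K, ∃ s ∈ K, ∀ t, t = e + f * r + s * (g + h * r) →
      (t ^ 2) ^ 2 - 3 * t ^ 2 + 1 ≠ 0 ∧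
        ∀ K' : Subfield k, (K' : Set k).Finite → t ^ 2 ∈ K' → Nat.card K < Nat.card K' := by
  obtain ⟨D, hD, hp, hq⟩ := card_pow hK
  set p := ringChar k with hpdef
  have hp2 : p ≠ 2 := fun h' => h2 (by
    have := ringChar.Nat.cast_ringChar (R := k)
    rw [← hpdef, h'] at this; exact_mod_cast this)
  have hp3 : p = 3 ∨ 5 ≤ p := by
    have := hp.two_le
    have h4' : p ≠ 4 := fun h' => by rw [h'] at hp; norm_num at hp
    omega
  have hnum : 5 ≤ p ^ D ∧ 4 + ∑ d ∈ range D, 2 * p ^ (d + 1) + 10 < 5 * p ^ D := by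
    rw [← mul_sum]
    rcases hp3 with h3 | h5
    · have := geo p 2 D (by omega)
      have h9 : 9 ≤ p ^ D := by
        have hD2 : 2 ≤ D := by
          by_contra hlt
          have : D = 1 := by omega
          rw [hq, this, h3] at h4; norm_num at h4
        calc 9 = p ^ 2 := by rw [h3]
          _ ≤ p ^ D := Nat.pow_le_pow_right hp.pos hD2
      omega
    · have := geo p 4 D (by omega)
      have h9 : 5 ≤ p ^ D := le_trans h5 (by
        calc p = p ^ 1 := by simp
          _ ≤ p ^ D := Nat.pow_le_pow_right hp.pos hD)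
      omega
  have hqc : hK.toFinset.card = p ^ D := by rw [← card_eq_toFinset hK, hq]
  obtain ⟨R, hR, hR5⟩ := exists_subset_card_eq (s := hK.toFinset) (n := 5) (by omega)
  have hRK : ∀ r ∈ R, r ∈ K := fun r hr => hK.mem_toFinset.1 (hR hr)
  have hv : ∀ r ∈ K, g + h * r ≠ 0 := fun r hr h0 =>
    hd (dep_of_lin K.one_mem (K.neg_mem hr) (Or.inl one_ne_zero) (by linear_combination h0))
  let L : k → Finset k := fun r => hK.toFinset.image (fun s => e + f * r + s * (g + h * r))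
  have hU := union_lines L (p ^ D) R
    (fun r hr => by
      rw [card_image_of_injective _ (fun s s' h' => mul_right_cancel₀ (hv r (hRK r hr))
        (add_left_cancel h')), hqc])
    (fun r hr r' hr' hne => by
      rw [card_le_one]
      intro t ht t' ht'
      by_contra htt
      simp only [L, mem_inter, mem_image, Set.Finite.mem_toFinset, SetLike.mem_coe] at ht ht'
      obtain ⟨⟨s1, m1, e1⟩, ⟨s2, m2, e2⟩⟩ := ht
      obtain ⟨⟨s3, m3, e3⟩, ⟨s4, m4, e4⟩⟩ := ht'
      apply hd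
      refine dep_of_lin (α := (s1 - s3) - (s2 - s4)) (β := (s2 - s4) * r' - (s1 - s3) * r)
        (K.sub_mem (K.sub_mem m1 m3) (K.sub_mem m2 m4))
        (K.sub_mem (K.mul_mem (K.sub_mem m2 m4) (hRK r' hr')) (K.mul_mem (K.sub_mem m1 m3) (hRK r hr)))
        ?_ (by linear_combination e1 - e2 - e3 + e4)
      by_contra hc
      push Not at hc
      have : (s1 - s3) * (r' - r) = 0 := by linear_combination hc.2 + r' * hc.1
      rcases mul_eq_zero.1 this with h' | h'
      · apply htt; rw [← e1, ← e3, sub_eq_zero.1 h']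
      · exact hne (sub_eq_zero.1 h').symm)
  rw [hR5] at hU
  have hdeg : ∀ d : ℕ, (X ^ 2 : k[X]).natDegree < (X ^ (2 * p ^ (d + 1)) : k[X]).natDegree := by
    intro d
    rw [natDegree_X_pow, natDegree_X_pow]
    have : 1 < p ^ (d + 1) := Nat.one_lt_pow (by omega) hp.one_lt
    omega
  have hfac : ∀ d : ℕ, (X ^ (2 * p ^ (d + 1)) - X ^ 2 : k[X]) ≠ 0 := fun d h0 => by
    have := hdeg d
    rw [sub_eq_zero.1 h0] at this
    exact lt_irrefl _ this
  have hmon : (X ^ 4 - C 3 * X ^ 2 + 1 : k[X]).Monic := by monicity!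
  have hdeg4 : (X ^ 4 - C 3 * X ^ 2 + 1 : k[X]).natDegree ≤ 4 := by compute_degree
  set Φ : k[X] := (X ^ 4 - C 3 * X ^ 2 + 1) *
    ∏ d ∈ range D, (X ^ (2 * p ^ (d + 1)) - X ^ 2) with hΦ
  have hΦ0 : Φ ≠ 0 := mul_ne_zero hmon.ne_zero (prod_ne_zero_iff.2 (fun d _ => hfac d))
  have hΦd : Φ.natDegree ≤ 4 + ∑ d ∈ range D, 2 * p ^ (d + 1) := by
    refine le_trans natDegree_mul_le (add_le_add hdeg4 (le_trans (natDegree_prod_le _ _) ?_))
    refine sum_le_sum (fun d _ => ?_)
    rw [natDegree_sub_eq_left_of_natDegree_lt (hdeg d), natDegree_X_pow]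
  obtain ⟨t, ht, hev⟩ : ∃ t ∈ R.biUnion L, Φ.eval t ≠ 0 := by
    by_contra hc
    push Not at hc
    have := card_le_natDegree hΦ0 _ hc
    omega
  obtain ⟨r, hr, ht⟩ := mem_biUnion.1 ht
  obtain ⟨s, hs, rfl⟩ := mem_image.1 ht
  refine ⟨r, hRK r hr, s, hK.mem_toFinset.1 hs, fun t ht => ?_⟩
  rw [← ht, hΦ, eval_mul, eval_prod] at hev
  obtain ⟨n1, n2⟩ := mul_ne_zero_iff.1 hev
  refine ⟨fun h0 => n1 ?_, fun K' hK' hm => ?_⟩
  · simp only [eval_add, eval_sub, eval_pow, eval_X, eval_mul, eval_C, eval_one]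
    linear_combination h0
  · obtain ⟨n, hn, -, hq'⟩ := card_pow hK'
    rw [hq, hq']
    apply Nat.pow_lt_pow_right hp.one_lt
    by_contra hle
    have := prod_ne_zero_iff.1 n2 (n - 1) (mem_range.2 (by omega))
    apply this
    have hpw := pow_card_mem hK' hm
    rw [hq', ← pow_mul] at hpw
    rw [show n - 1 + 1 = n by omega]
    simp only [eval_sub, eval_pow, eval_X]
    exact sub_eq_zero.2 hpw

/-- matrices that are scalar multiples of matrices over a subfield -/
def PGLK (K : Subfield k) : Subgroup (SL k) where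
  carrier := {g | InPGL K g}
  mul_mem' := by
    rintro g h ⟨l, hl, a, b, c, d⟩ ⟨l', hl', a', b', c', d'⟩
    refine ⟨l * l', mul_ne_zero hl hl', ?_, ?_, ?_, ?_⟩
    · convert K.add_mem (K.mul_mem a a') (K.mul_mem b c') using 1; simp; ring
    · convert K.add_mem (K.mul_mem a b') (K.mul_mem b d') using 1; simp; ring
    · convert K.add_mem (K.mul_mem c a') (K.mul_mem d c') using 1; simp; ring
    · convert K.add_mem (K.mul_mem c b') (K.mul_mem d d') using 1; simp; ring
  one_mem' := ⟨1, one_ne_zero, by simp, by simp, by simp, by simp⟩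
  inv_mem' := by
    rintro g ⟨l, hl, a, b, c, d⟩
    exact ⟨l, hl, d, by simpa using b, by simpa using c, a⟩

lemma le_of_tr_sq (h2 : (2 : k) ≠ 0) {F K : Subfield k} (h : ∀ g ∈ SLK F, tr g ^ 2 ∈ K) : F ≤ K := by
  have sq : ∀ t ∈ F, t ^ 2 ∈ K := fun t ht => by
    obtain ⟨g, hg, rfl⟩ := exists_tr_SLK ht
    exact h g hg
  intro t ht
  have : t = ((t + 1) ^ 2 - t ^ 2 - 1) / 2 := by field_simp; ring
  rw [this]
  exact K.div_mem (K.sub_mem (K.sub_mem (sq _ (F.add_mem ht F.one_mem)) (sq t ht)) K.one_mem)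
    (by exact_mod_cast natCast_mem K 2)

variable {ι : Type} [DecidableEq ι] {A : Finset ι} {x : ι → SL k}

theorem growth [IsAlgClosed k] (h2 : (2 : k) ≠ 0) {F : Subfield k} (hF : (F : Set k).Finite)
    (hx : Gn x A = SLK F) {i j : ι} (hi : i ∈ A) (hj : j ∈ A) {K : Subfield k}
    (hK : (K : Set k).Finite) (h4 : 4 ≤ Nat.card K) (hP : Proj (Gn x {i, j}) K) (hn : ¬ F ≤ K) :
    ∃ y, Mv A x y ∧ ∃ i' ∈ A, ∃ j' ∈ A, j' ≠ i' ∧ ∃ K' : Subfield k, (K' : Set k).Finite ∧
      Nat.card K < Nat.card K' ∧ Proj (Gn y {i', j'}) K' := by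
  obtain ⟨P, p1, p2⟩ := hP
  have hmem : ∀ g, g ∈ cj P⁻¹ (PGLK K) ↔ InPGL K (P⁻¹ * g * P) := fun g => by
    rw [mem_cj, inv_inv]; rfl
  obtain ⟨l, hl, hc⟩ : ∃ l ∈ A, ¬ InPGL K (P⁻¹ * x l * P) := by
    by_contra hc
    push Not at hc
    apply hn
    apply le_of_tr_sq h2
    intro g hg
    have : Gn x A ≤ cj P⁻¹ (PGLK K) :=
      Gn_le ((hmem _).2 (p2 _ (neg_one_mem_Gn _ _))) (fun l hl => (hmem _).2 (hc l hl))
    have := ((hmem _).1 (this (hx ▸ hg))).tr_sq
    rwa [tr_conj] at this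
  have hli : i ≠ l := by rintro rfl; exact hc (p2 _ (mem_Gn x (by simp)))
  have hlj : j ≠ l := by rintro rfl; exact hc (p2 _ (mem_Gn x (by simp)))
  obtain ⟨c, hcdef⟩ : ∃ c, c = P⁻¹ * x l * P := ⟨_, rfl⟩
  rw [← hcdef] at hc
  obtain ⟨h1, m1, hd⟩ : ∃ h1 ∈ SLK K, ¬ Dep K (c * h1).b (c * h1).d := by
    by_contra hcon
    push Not at hcon
    apply hc
    refine inPGL_of_dep K c ?_ ?_ ?_
    · simpa using hcon ⟨0, 1, -1, 0, by ring⟩
        ⟨K.zero_mem, K.one_mem, K.neg_mem K.one_mem, K.zero_mem⟩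
    · simpa using hcon 1 (Subgroup.one_mem _)
    · simpa using hcon (up 1) ⟨K.one_mem, K.one_mem, K.zero_mem, K.one_mem⟩
  obtain ⟨r, hr, s, hs, hgood⟩ := exists_good h2 hK h4 ((c * h1).a + (c * h1).d) (c * h1).c
    (c * h1).b (c * h1).d hd
  have m2 : h1 * lo s * up r ∈ SLK K :=
    Subgroup.mul_mem _ (Subgroup.mul_mem _ m1 ⟨K.one_mem, K.zero_mem, hs, K.one_mem⟩)
      ⟨K.one_mem, hr, K.zero_mem, K.one_mem⟩
  have m3 : P * (h1 * lo s * up r) * P⁻¹ ∈ Gn x (A.erase l) :=
    Gn_mono x (pair_sub (mem_erase.2 ⟨hli, hi⟩) (mem_erase.2 ⟨hlj, hj⟩)) (p1 _ m2)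
  have mv := mv_right hl m3
  set y := update x l (x l * (P * (h1 * lo s * up r) * P⁻¹)) with hy
  have htr : tr (y l) = (c * h1).a + (c * h1).d + (c * h1).c * r + s * ((c * h1).b + (c * h1).d * r) := by
    rw [hy, update_self, ← tr_conj P, show P⁻¹ * (x l * (P * (h1 * lo s * up r) * P⁻¹)) * P =
      (c * h1) * lo s * up r by rw [hcdef]; group]
    generalize c * h1 = w
    simp [tr]; ring
  obtain ⟨g1, g2⟩ := hgood _ htr
  have hnK : tr (y l) ^ 2 ∉ K := fun h => lt_irrefl _ (g2 K hK h)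
  have hbig : Big (y l) := by
    refine mul_ne_zero (mul_ne_zero (mul_ne_zero (mul_ne_zero ?_ ?_) ?_) ?_) g1
    · intro h; apply hnK; rw [h]; exact K.zero_mem
    · intro h; apply hnK; rw [sub_eq_zero.1 h]; exact K.one_mem
    · intro h; apply hnK; rw [sub_eq_zero.1 h]; exact_mod_cast natCast_mem K 2
    · intro h; apply hnK; rw [sub_eq_zero.1 h]; exact_mod_cast natCast_mem K 4
  obtain ⟨z, m', e, l', hl', hll, K', hK', hP'⟩ := second h2 (x := y) (A := A)
    (by rw [mv.gn, hx]; exact irr_SLK h2 F) (by rw [mv.gn, hx]; exact SLK_finite hF) hl hbig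
  refine ⟨z, mv.trans m', l, hl, l', hl', hll, K', hK', g2 K' hK' ?_, hP'⟩
  rw [← e]
  exact hP'.tr_sq (mem_Gn z (mem_insert_self _ _))

lemma eq_of_proj {F K : Subfield k} (hF : (F : Set k).Finite) {H : Subgroup (SL k)}
    (hH : H ≤ SLK F) (hP : Proj H K) (hle : F ≤ K) : H = SLK F := by
  obtain ⟨P, p1, -⟩ := hP
  apply SetLike.coe_injective
  refine Set.eq_of_subset_of_ncard_le hH ?_ (SLK_finite hF)
  refine Set.ncard_le_ncard_of_injOn (fun m => P * m * P⁻¹) ?_ ?_ ((SLK_finite hF).subset hH)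
  · intro m hm
    exact p1 m ⟨hle hm.1, hle hm.2.1, hle hm.2.2.1, hle hm.2.2.2⟩
  · intro m _ m' _ e
    simpa using e

theorem grow_all [IsAlgClosed k] (h2 : (2 : k) ≠ 0) {F : Subfield k} (hF : (F : Set k).Finite) :
    ∀ (n : ℕ) (x : ι → SL k), Gn x A = SLK F → ∀ i ∈ A, ∀ j ∈ A, j ≠ i → ∀ K : Subfield k,
      (K : Set k).Finite → 4 ≤ Nat.card K → Proj (Gn x {i, j}) K → Nat.card F ≤ Nat.card K + n →
      ∃ y, Mv A x y ∧ ∃ i' ∈ A, ∃ j' ∈ A, j' ≠ i' ∧ Gn y {i', j'} = SLK F := by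
  intro n
  induction n with
  | zero =>
    intro x hx i hi j hj hji K hK _ hP hc
    have hle : Gn x {i, j} ≤ SLK F := hx ▸ Gn_mono x (pair_sub hi hj)
    refine ⟨x, Mv.refl _ _, i, hi, j, hj, hji, eq_of_proj hF hle hP ?_⟩
    have hKF : (K : Set k) ⊆ F := fun t ht => by
      obtain ⟨g, hg, rfl⟩ := hP.exists_tr ht
      exact tr_mem_of_SLK (hle hg)
    exact (Set.eq_of_subset_of_ncard_le hKF hc hF).ge
  | succ n ih =>
    intro x hx i hi j hj hji K hK h4 hP hc
    by_cases hle : F ≤ K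
    · exact ⟨x, Mv.refl _ _, i, hi, j, hj, hji,
        eq_of_proj hF (hx ▸ Gn_mono x (pair_sub hi hj)) hP hle⟩
    · obtain ⟨y, m, i', hi', j', hj', hji', K', hK', hlt, hP'⟩ := growth h2 hF hx hi hj hK h4 hP hle
      obtain ⟨z, m', h⟩ := ih y (by rw [m.gn, hx]) i' hi' j' hj' hji' K' hK' (by omega) hP'
        (by omega)
      exact ⟨z, m.trans m', h⟩

theorem redundant [IsAlgClosed k] (h2 : (2 : k) ≠ 0) {F : Subfield k} (hF : (F : Set k).Finite)
    (h13 : 13 ≤ Nat.card F) : ∀ (n : ℕ) (A : Finset ι) (x : ι → SL k), A.card = n + 2 →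
      Gn x A = SLK F → ∃ y, Mv A x y ∧ ∃ i ∈ A, ∃ j ∈ A, j ≠ i ∧ Gn y {i, j} = SLK F := by
  intro n
  induction n with
  | zero =>
    intro A x hA hx
    obtain ⟨i, j, hij, rfl⟩ := card_eq_two.1 hA
    exact ⟨x, Mv.refl _ _, i, by simp, j, by simp, hij.symm, hx⟩
  | succ n ih =>
    intro A x hA hx
    by_cases hno : ∀ y, Mv A x y → ∀ i ∈ A, ¬ Cen (y i)
    · obtain ⟨y, m, i, hi, j, hj, hji, K, hK, h4, hP⟩ := first h2 hF h13 (by omega) hx hno
      obtain ⟨z, m', h⟩ := grow_all h2 hF (Nat.card F) y (by rw [m.gn, hx]) i hi j hj hji K hK h4 hP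
        (by omega)
      exact ⟨z, m.trans m', h⟩
    · push Not at hno
      obtain ⟨y, m, i, hi, hc⟩ := hno
      have hg : Gn y (A.erase i) = SLK F := by
        rw [← hx, ← m.gn]
        refine le_antisymm (Gn_mono y (erase_subset _ _)) (Gn_le (neg_one_mem_Gn _ _) ?_)
        intro j hj
        by_cases e : j = i
        · subst e
          rcases hc with h | h <;> rw [h]
          · exact Subgroup.one_mem _
          · exact neg_one_mem_Gn _ _
        · exact mem_erase' hj e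
      obtain ⟨z, m', i', hi', j', hj', h⟩ := ih (A.erase i) y
        (by rw [card_erase_of_mem hi]; omega) hg
      exact ⟨z, m.trans (m'.mono (erase_subset _ _)), i', mem_of_mem_erase hi', j',
        mem_of_mem_erase hj', h⟩

end Pool.Agent.MP_b84581_al.H49

end MrgPart1

-- ======== part 2: formerly Pool.Agent.MP_b84581_al.h49.Normal
section MrgPart2

/-! All generating tuples have a common normal form. -/

set_option autoImplicit false

namespace Pool.Agent.MP_b84581_al.H49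

open Function Finset
open scoped Classical

variable {k : Type} [Field k]

lemma exists_z0 (h2 : (2 : k) ≠ 0) {F : Subfield k} (hF : (F : Set k).Finite)
    (h13 : 13 ≤ Nat.card F) : ∃ z ∈ SLK F, Big z ∧ ∀ K : Subfield k, K ≤ F → tr z ^ 2 ∈ K → F ≤ K := by
  have : Finite F := hF
  obtain ⟨u, hu⟩ := IsCyclic.exists_ofOrder_eq_natCard (α := Fˣ)
  rw [Nat.card_units] at hu
  obtain ⟨l, hl⟩ : ∃ l : k, l = ((u : F) : k) := ⟨_, rfl⟩
  have hlF : l ∈ F := hl ▸ (u : F).2
  have hl0 : l ≠ 0 := by rw [hl]; exact_mod_cast u.ne_zero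
  have hord : ∀ m : ℕ, 0 < m → l ^ m = 1 → Nat.card F - 1 ≤ m := by
    intro m hm h
    rw [← hu]
    apply orderOf_le_of_pow_eq_one hm
    apply Units.ext
    apply Subtype.ext
    rw [hl] at h
    simpa using h
  have hne : ∀ j : ℕ, 0 < j → j ≤ 5 → (l ^ 2) ^ j ≠ 1 := fun j h0 h5 h => by
    have := hord (2 * j) (by omega) (by rw [pow_mul]; exact h)
    omega
  have htr : tr (dg l hl0) ^ 2 = l ^ 2 + (l ^ 2)⁻¹ + 2 := by
    simp only [tr, dg_a, dg_d]; field_simp; ring
  have hx0 : l ^ 2 ≠ 0 := pow_ne_zero 2 hl0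
  refine ⟨dg l hl0, ⟨hlF, F.zero_mem, F.zero_mem, F.inv_mem hlF⟩, ?_, ?_⟩
  · unfold Big
    rw [htr]
    generalize l ^ 2 = x at *
    refine mul_ne_zero (mul_ne_zero (mul_ne_zero (mul_ne_zero ?_ ?_) ?_) ?_) ?_
    · intro h
      field_simp at h
      have : (x + 1) ^ 2 = 0 := by linear_combination h
      have := pow_eq_zero_iff two_ne_zero |>.1 this
      exact hne 2 (by norm_num) (by norm_num) (by linear_combination (x - 1) * this)
    · intro h
      field_simp at h
      exact hne 3 (by norm_num) (by norm_num) (by linear_combination (x - 1) * h)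
    · intro h
      field_simp at h
      exact hne 4 (by norm_num) (by norm_num) (by linear_combination (x ^ 2 - 1) * h)
    · intro h
      field_simp at h
      have : (x - 1) ^ 2 = 0 := by linear_combination h
      have := pow_eq_zero_iff two_ne_zero |>.1 this
      exact hne 1 (by norm_num) (by norm_num) (by linear_combination this)
    · intro h
      field_simp at h
      exact hne 5 (by norm_num) (by norm_num) (by linear_combination (x - 1) * h)
  · intro K hKF hm
    have hK : (K : Set k).Finite := hF.subset hKF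
    obtain ⟨n, hn, hp, hr⟩ := card_pow hK
    obtain ⟨D, -, -, hq⟩ := card_pow hF
    by_cases hle : D ≤ n
    · refine (Set.eq_of_subset_of_ncard_le (s := (K : Set k)) (t := F) hKF ?_ hF).ge
      change Nat.card F ≤ Nat.card K
      rw [hr, hq]
      exact Nat.pow_le_pow_right hp.pos hle
    exfalso
    have hp2 : ringChar k ≠ 2 := fun h' => h2 (by
      have := ringChar.Nat.cast_ringChar (R := k)
      rw [h'] at this; exact_mod_cast this)
    have hp3 : 3 ≤ ringChar k := by have := hp.two_le; omega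
    have h3r : 3 * Nat.card K ≤ Nat.card F := by
      rw [hr, hq]
      calc 3 * ringChar k ^ n ≤ ringChar k * ringChar k ^ n := Nat.mul_le_mul_right _ hp3
        _ = ringChar k ^ (n + 1) := by ring
        _ ≤ _ := Nat.pow_le_pow_right hp.pos (by omega)
    have hr2 : 1 < Nat.card K := by rw [hr]; exact Nat.one_lt_pow (by omega) hp.one_lt
    have : Fact (ringChar k).Prime := ⟨hp⟩
    have e1 := pow_card_mem hK hm
    have e2 := pow_card_mem hK (t := 2) (by exact_mod_cast natCast_mem K 2)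
    rw [htr, hr, add_pow_char_pow, add_pow_char_pow, ← hr, e2, inv_pow] at e1
    obtain ⟨r, hr'⟩ : ∃ r, Nat.card K = r + 1 := ⟨Nat.card K - 1, by omega⟩
    rw [hr'] at e1 h3r hr2
    have hy0 : (l ^ 2) ^ (r + 1) ≠ 0 := pow_ne_zero _ hx0
    have e3 : ((l ^ 2) ^ r - 1) * ((l ^ 2) ^ (r + 2) - 1) = 0 := by
      have e4 : (l ^ 2) ^ (r + 1) = (l ^ 2) ^ r * l ^ 2 := pow_succ _ _
      have e5 : (l ^ 2) ^ (r + 2) = (l ^ 2) ^ r * l ^ 2 * l ^ 2 := by ring
      have hw : (l ^ 2) ^ r ≠ 0 := pow_ne_zero _ hx0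
      rw [e4] at e1
      rw [e5]
      generalize (l ^ 2) ^ r = w at *
      generalize l ^ 2 = x at *
      field_simp at e1
      linear_combination e1
    rcases mul_eq_zero.1 e3 with h | h
    · have := hord (2 * r) (by omega) (by rw [pow_mul]; exact sub_eq_zero.1 h)
      omega
    · have := hord (2 * (r + 2)) (by omega) (by rw [pow_mul]; exact sub_eq_zero.1 h)
      omega

variable {ι : Type} [DecidableEq ι] [Fintype ι] {Γ : Subgroup (SL k)} {x : ι → SL k}

omit [Fintype ι] in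
lemma Gn_pair (x : ι → SL k) (i j : ι) : Gn x {i, j} = Cl {x i, x j} := by
  unfold Gn
  rw [coe_pair, Set.image_pair]

lemma set_third (hx : Gn x univ = Γ) {i j l : ι} (hp : Cl {x i, x j} = Γ) (hli : l ≠ i)
    (hlj : l ≠ j) {g : SL k} (hg : g ∈ Γ) : Mv univ x (update x l g) := by
  refine mv_set (mem_univ l) (le_antisymm (Gn_mono x (erase_subset _ _)) ?_) (hx ▸ hg)
  rw [hx, ← hp, ← Gn_pair]
  exact Gn_mono x (pair_sub (mem_erase.2 ⟨hli.symm, mem_univ _⟩) (mem_erase.2 ⟨hlj.symm, mem_univ _⟩))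

lemma fill (hx : Gn x univ = Γ) {i j : ι} (hp : Cl {x i, x j} = Γ) {w : ι → SL k}
    (hw : ∀ t, w t ∈ Γ) (hi : w i = x i) (hj : w j = x j) : Mv univ x w := by
  have key : ∀ S : Finset ι, Mv univ x (fun t => if t ∈ S then w t else x t) := by
    intro S
    induction S using Finset.induction_on with
    | empty => simpa using Mv.refl univ x
    | insert l S hl ih =>
      by_cases e : w l = x l
      · convert ih using 1
        funext t
        by_cases h : t = l
        · subst h; simp [hl, e]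
        · simp [h]
      · have hli : l ≠ i := by rintro rfl; exact e hi
        have hlj : l ≠ j := by rintro rfl; exact e hj
        refine ih.trans ?_
        convert set_third (Γ := Γ) (x := fun t => if t ∈ S then w t else x t) (by rw [ih.gn, hx])
          (i := i) (j := j) (by simpa [hi, hj] using hp) hli hlj (hw l) using 1
        funext t
        by_cases h : t = l
        · subst h; simp
        · simp [h]
  simpa using key univ

lemma exists_third (h3 : 3 ≤ Fintype.card ι) (i j : ι) : ∃ t, t ≠ i ∧ t ≠ j := by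
  by_contra h
  push Not at h
  have : (univ : Finset ι) ⊆ {i, j} := fun t _ => by
    by_cases e : t = i
    · simp [e]
    · simp [h t e]
  have h1 := card_le_card this
  have h2 : ({i, j} : Finset ι).card ≤ 2 := card_le_two
  rw [card_univ] at h1
  omega

lemma place (h3 : 3 ≤ Fintype.card ι) {i0 j0 : ι} (hij : j0 ≠ i0) {b' : SL k} (hb' : b' ∈ Γ) :
    ∀ (x : ι → SL k) (l m : ι), Gn x univ = Γ → m ≠ l → Cl {x l, x m} = Γ →
      ∃ w, Mv univ x w ∧ w i0 = x l ∧ w j0 = b' := by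
  have c1 : ∀ (x : ι → SL k) (m : ι), Gn x univ = Γ → m ≠ j0 → Cl {x i0, x m} = Γ →
      ∃ w, Mv univ x w ∧ w i0 = x i0 ∧ w j0 = b' := fun x m hx hm hp =>
    ⟨_, set_third hx hp hij hm.symm hb', update_of_ne hij.symm _ _, update_self _ _ _⟩
  have c2 : ∀ (x : ι → SL k) (m : ι), Gn x univ = Γ → m ≠ i0 → Cl {x i0, x m} = Γ →
      ∃ w, Mv univ x w ∧ w i0 = x i0 ∧ w j0 = b' := by
    intro x m hx hm hp
    by_cases e : m = j0
    · subst e
      obtain ⟨t, t1, t2⟩ := exists_third h3 i0 m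
      have mv := set_third hx hp t1 t2 (g := x m) (hx ▸ mem_Gn x (mem_univ _))
      obtain ⟨w, m', e1, e2⟩ := c1 _ t (by rw [mv.gn, hx]) t2
        (by rwa [update_self, update_of_ne t1.symm])
      exact ⟨w, mv.trans m', by rw [e1, update_of_ne t1.symm], e2⟩
    · exact c1 x m hx e hp
  have c3 : ∀ (x : ι → SL k) (l m : ι), Gn x univ = Γ → l ≠ i0 → m ≠ i0 → Cl {x l, x m} = Γ →
      ∃ w, Mv univ x w ∧ w i0 = x l ∧ w j0 = b' := by
    intro x l m hx hl hm hp
    have mv := set_third hx hp hl.symm hm.symm (g := x l) (hx ▸ mem_Gn x (mem_univ _))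
    obtain ⟨w, m', e1, e2⟩ := c2 _ m (by rw [mv.gn, hx]) hm
      (by rwa [update_self, update_of_ne hm])
    exact ⟨w, mv.trans m', by rw [e1, update_self], e2⟩
  intro x l m hx hm hp
  by_cases e : l = i0
  · subst e; exact c2 x m hx hm hp
  by_cases e' : m = i0
  · subst e'
    obtain ⟨t, t1, t2⟩ := exists_third h3 l m
    have mv := set_third hx hp t1 t2 (g := x m) (hx ▸ mem_Gn x (mem_univ _))
    obtain ⟨w, m', e1, e2⟩ := c3 _ l t (by rw [mv.gn, hx]) e t2
      (by rwa [update_self, update_of_ne t1.symm])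
    exact ⟨w, mv.trans m', by rw [e1, update_of_ne t1.symm], e2⟩
  · exact c3 x l m hx e e' hp

theorem common [IsAlgClosed k] (h2 : (2 : k) ≠ 0) {F : Subfield k} (hF : (F : Set k).Finite)
    (h13 : 13 ≤ Nat.card F) (h3 : 3 ≤ Fintype.card ι) {x y : ι → SL k}
    (hx : Gn x univ = SLK F) (hy : Gn y univ = SLK F) : ∃ w, Mv univ x w ∧ Mv univ y w := by
  obtain ⟨z, hz, hbig, hgen⟩ := exists_z0 h2 hF h13
  have key : ∀ x : ι → SL k, Gn x univ = SLK F →
      ∃ w, Mv univ x w ∧ ∃ l m, m ≠ l ∧ w l = z ∧ Cl {w l, w m} = SLK F := by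
    intro x hx
    obtain ⟨x1, m1, i, -, j, -, -, hp⟩ := redundant h2 hF h13 (Fintype.card ι - 2) univ x
      (by rw [card_univ]; omega) hx
    rw [Gn_pair] at hp
    obtain ⟨t, t1, t2⟩ := exists_third h3 i j
    have m2 := m1.trans (set_third (by rw [m1.gn, hx]) hp t1 t2 hz)
    have hg : Gn (update x1 t z) univ = SLK F := by rw [m2.gn, hx]
    obtain ⟨w, m3, e, l, -, hl, K, hK, hP⟩ := second h2 (x := update x1 t z) (A := univ)
      (by rw [hg]; exact irr_SLK h2 F) (by rw [hg]; exact SLK_finite hF) (mem_univ t)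
      (by rwa [update_self])
    rw [update_self] at e
    have hle : Gn w {t, l} ≤ SLK F := by
      rw [← hg, ← m3.gn]; exact Gn_mono w (subset_univ _)
    refine ⟨w, m2.trans m3, t, l, hl, e, ?_⟩
    rw [← Gn_pair]
    refine eq_of_proj hF hle hP (hgen K (fun s hs => ?_) ?_)
    · obtain ⟨g, hg, rfl⟩ := hP.exists_tr hs
      exact tr_mem_of_SLK (hle hg)
    · rw [← e]; exact hP.tr_sq (mem_Gn w (mem_insert_self _ _))
  obtain ⟨x1, mx, l, m, hml, el, hp⟩ := key x hx
  obtain ⟨y1, my, l', m', hml', el', hp'⟩ := key y hy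
  have gx : Gn x1 univ = SLK F := by rw [mx.gn, hx]
  have gy : Gn y1 univ = SLK F := by rw [my.gn, hy]
  obtain ⟨w, mw, e1, e2⟩ := place h3 hml' (b' := y1 m') (gy ▸ mem_Gn y1 (mem_univ _)) x1 l m gx
    hml hp
  refine ⟨w, mx.trans mw, my.trans (fill gy hp' (fun t => ?_) (by rw [e1, el, el']) e2)⟩
  rw [← gx, ← mw.gn]
  exact mem_Gn w (mem_univ _)

/-- Nielsen equivalence after applying a homomorphism -/
def NEq {Q : Type} [Group Q] (π : SL k →* Q) (x y : ι → SL k) : Prop :=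
  ∃ φ : FreeGroup ι ≃* FreeGroup ι, ∀ W, FreeGroup.lift (π ∘ y) W = FreeGroup.lift (π ∘ x) (φ W)

omit [Fintype ι] in
lemma Mv.neq {Q : Type} [Group Q] (π : SL k →* Q) (hπ : π (-1) = 1) {A : Finset ι}
    {x y : ι → SL k} (h : Mv A x y) : NEq π x y := by
  induction h with
  | refl => exact ⟨MulEquiv.refl _, fun _ => rfl⟩
  | @tail y z _ hs ih =>
    obtain ⟨φ, hφ⟩ := ih
    obtain ⟨j, -, h1, m1, h2, m2, rfl⟩ := hs
    have word : ∀ h ∈ Gn y (A.erase j), ∃ W ∈ Subgroup.closure (FreeGroup.of '' {i | i ≠ j}),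
        FreeGroup.lift (π ∘ y) W = π h := by
      intro h hh
      have : Gn y (A.erase j) ≤ ((Subgroup.closure (FreeGroup.of '' {i | i ≠ j})).map
          (FreeGroup.lift (π ∘ y))).comap π := by
        refine Gn_le ?_ (fun i hi => ?_)
        · rw [Subgroup.mem_comap, hπ]; exact Subgroup.one_mem _
        · exact ⟨FreeGroup.of i, Subgroup.subset_closure ⟨i, (mem_erase.1 hi).1, rfl⟩, by simp⟩
      exact this hh
    obtain ⟨W1, w1, e1⟩ := word h1 m1
    obtain ⟨W2, w2, e2⟩ := word h2 m2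
    have fix : ∀ W ∈ Subgroup.closure (FreeGroup.of '' {i | i ≠ j}), ∀ V : FreeGroup ι,
        FreeGroup.lift (update FreeGroup.of j V) W = W := by
      intro W hW V
      refine MonoidHom.eqOn_closure (g := MonoidHom.id _) ?_ hW
      rintro _ ⟨i, hi, rfl⟩
      simp [update_of_ne hi]
    let ψ : FreeGroup ι ≃* FreeGroup ι :=
      MonoidHom.toMulEquiv (FreeGroup.lift (update FreeGroup.of j (W1 * .of j * W2)))
        (FreeGroup.lift (update FreeGroup.of j (W1⁻¹ * .of j * W2⁻¹)))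
        (by
          ext i
          by_cases hi : i = j
          · subst hi; simp [fix _ w1, fix _ w2, mul_assoc]
          · simp [update_of_ne hi])
        (by
          ext i
          by_cases hi : i = j
          · subst hi; simp [fix _ w1, fix _ w2, mul_assoc]
          · simp [update_of_ne hi])
    refine ⟨ψ.trans φ, fun V => ?_⟩
    have : FreeGroup.lift (π ∘ update y j (h1 * y j * h2)) =
        (FreeGroup.lift (π ∘ y)).comp (FreeGroup.lift (update FreeGroup.of j (W1 * .of j * W2))) := by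
      ext i
      by_cases hi : i = j
      · subst hi; simp [e1, e2]
      · simp [update_of_ne hi]
    rw [this, MonoidHom.comp_apply, hφ]
    rfl

theorem neq_all [IsAlgClosed k] (h2 : (2 : k) ≠ 0) {F : Subfield k} (hF : (F : Set k).Finite)
    (h13 : 13 ≤ Nat.card F) (h3 : 3 ≤ Fintype.card ι) {x y : ι → SL k}
    (hx : Gn x univ = SLK F) (hy : Gn y univ = SLK F) {Q : Type} [Group Q] (π : SL k →* Q)
    (hπ : π (-1) = 1) : NEq π x y := by
  obtain ⟨w, m1, m2⟩ := common h2 hF h13 h3 hx hy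
  obtain ⟨φ, h1⟩ := m1.neq π hπ
  obtain ⟨ψ, h4⟩ := m2.neq π hπ
  exact ⟨ψ.symm.trans φ, fun W => by
    rw [MulEquiv.trans_apply, ← h1, h4, MulEquiv.apply_symm_apply]⟩

end Pool.Agent.MP_b84581_al.H49

end MrgPart2

-- ======== part 3: formerly Pool.Agent.MP_b84581_al.h49.Transfer
section MrgPart3

/-! Transfer to the groups of Mathlib. -/

set_option autoImplicit false

namespace Pool.Agent.MP_b84581_al.H49

open Function Finset Matrix

variable {F k : Type} [Field F] [Field k]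

/-- the embedding induced by a field embedding -/
def emb (f : F →+* k) : Matrix.SpecialLinearGroup (Fin 2) F →* SL k where
  toFun A := ⟨f (A 0 0), f (A 0 1), f (A 1 0), f (A 1 1), by
    have := congrArg f A.det_coe
    rw [Matrix.det_fin_two] at this
    simpa using this⟩
  map_one' := by ext <;> simp
  map_mul' A B := by ext <;> simp [Matrix.mul_apply, Fin.sum_univ_two]

lemma emb_mem (f : F →+* k) (A : Matrix.SpecialLinearGroup (Fin 2) F) : emb f A ∈ SLK f.fieldRange :=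
  ⟨⟨_, rfl⟩, ⟨_, rfl⟩, ⟨_, rfl⟩, ⟨_, rfl⟩⟩

lemma exists_emb (f : F →+* k) {g : SL k} (hg : g ∈ SLK f.fieldRange) : ∃ A, emb f A = g := by
  obtain ⟨⟨a, ha⟩, ⟨b, hb⟩, ⟨c, hc⟩, ⟨d, hd⟩⟩ := hg
  refine ⟨⟨!![a, b; c, d], ?_⟩, ?_⟩
  · rw [Matrix.det_fin_two_of]
    apply f.injective
    have := g.det
    rw [← ha, ← hb, ← hc, ← hd] at this
    simpa using this
  · ext
    · exact ha
    · exact hb
    · exact hc
    · exact hd

lemma cen_emb (f : F →+* k) (A : Matrix.SpecialLinearGroup (Fin 2) F) :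
    Cen (emb f A) ↔ A ∈ Subgroup.center (Matrix.SpecialLinearGroup (Fin 2) F) := by
  rw [Matrix.SpecialLinearGroup.mem_center_iff]
  constructor
  · intro h
    have hb : A 0 1 = 0 := f.injective (by rw [map_zero]; exact h.b)
    have hc : A 1 0 = 0 := f.injective (by rw [map_zero]; exact h.c)
    have ha : A 0 0 ^ 2 = 1 := f.injective (by rw [map_pow, map_one]; exact h.a_sq)
    have hd : A 1 1 = A 0 0 := f.injective (by
      change (emb f A).d = (emb f A).a
      rcases h with h | h <;> rw [h] <;> rfl)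
    refine ⟨A 0 0, by simpa using ha, ?_⟩
    ext i j
    fin_cases i <;> fin_cases j <;> simp [hb, hc, hd]
  · rintro ⟨r, hr, h⟩
    have e : ∀ i j, A i j = scalar (Fin 2) r i j := fun i j => by rw [h]
    refine cen_of_entries ?_ ?_ ?_
    · change f (A 0 1) = 0
      rw [e]; simp
    · change f (A 1 0) = 0
      rw [e]; simp
    · change f (A 0 0) ^ 2 = 1
      rw [e, ← map_pow]
      simp only [Fintype.card_fin] at hr
      simp [hr]

/-- plus and minus one -/
def cenSub (k : Type) [Field k] : Subgroup (SL k) where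
  carrier := {g | Cen g}
  mul_mem' := by
    rintro a b (rfl | rfl) (rfl | rfl)
    · left; simp
    · right; simp
    · right; simp
    · left; simp
  one_mem' := Or.inl rfl
  inv_mem' := by
    rintro a (rfl | rfl)
    · left; simp
    · right; simp

instance : (cenSub k).Normal := ⟨fun _ hn g => (cen_conj' g _).2 hn⟩

theorem nielsen (F : Type) [Field F] [Finite F] (hodd : Odd (Nat.card F)) (h13 : 13 ≤ Nat.card F)
    (n : ℕ) (hn : 3 ≤ n) (f g : FreeGroup (Fin n) →* Matrix.ProjectiveSpecialLinearGroup (Fin 2) F)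
    (hf : Surjective f) (hg : Surjective g) :
    ∃ φ : FreeGroup (Fin n) ≃* FreeGroup (Fin n), ∀ w, g w = f (φ w) := by
  let e := algebraMap F (AlgebraicClosure F)
  have h2 : (2 : AlgebraicClosure F) ≠ 0 := by
    intro h
    have h' : (2 : F) = 0 := e.injective (by rw [map_ofNat, map_zero]; exact h)
    have := Fintype.ofFinite F
    have hc : CharP F 2 := (CharP.charP_iff_prime_eq_zero Nat.prime_two).2 (by exact_mod_cast h')
    obtain ⟨m, -, hm⟩ := FiniteField.card F 2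
    rw [Nat.card_eq_fintype_card, hm] at hodd
    exact (Nat.not_even_iff_odd.2 hodd) (Nat.even_pow.2 ⟨even_two, m.ne_zero⟩)
  have hcard : Nat.card e.fieldRange = Nat.card F := (Nat.card_congr e.rangeRestrictFieldEquiv.toEquiv).symm
  have hfin : (e.fieldRange : Set (AlgebraicClosure F)).Finite := Set.finite_range e
  let π := QuotientGroup.mk' (cenSub (AlgebraicClosure F))
  have hπ : π (-1) = 1 := (QuotientGroup.eq_one_iff _).2 (Or.inr rfl)
  let ψ : Matrix.ProjectiveSpecialLinearGroup (Fin 2) F →* SL (AlgebraicClosure F) ⧸ cenSub _ :=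
    QuotientGroup.map _ _ (emb e) (fun A hA => (cen_emb e A).2 hA)
  have hψ : Injective ψ := by
    rw [injective_iff_map_eq_one]
    intro a ha
    induction a using QuotientGroup.induction_on with
    | H A => exact (QuotientGroup.eq_one_iff _).2 ((cen_emb e A).1 ((QuotientGroup.eq_one_iff _).1 ha))
  have key : ∀ f : FreeGroup (Fin n) →* Matrix.ProjectiveSpecialLinearGroup (Fin 2) F, Surjective f →
      ∃ x : Fin n → SL (AlgebraicClosure F), Gn x univ = SLK e.fieldRange ∧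
        FreeGroup.lift (π ∘ x) = ψ.comp f := by
    intro f hf
    choose xh hxh using fun i => QuotientGroup.mk_surjective (f (FreeGroup.of i))
    have h1 : FreeGroup.lift (π ∘ fun i => emb e (xh i)) = ψ.comp f := by
      ext i
      rw [FreeGroup.lift_apply_of, MonoidHom.comp_apply, ← hxh]
      rfl
    refine ⟨fun i => emb e (xh i), le_antisymm (Gn_le ?_ (fun i _ => emb_mem e _)) ?_, h1⟩
    · exact ⟨Subfield.neg_mem _ (Subfield.one_mem _), by simp, by simp,
        Subfield.neg_mem _ (Subfield.one_mem _)⟩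
    · intro m hm
      obtain ⟨A, rfl⟩ := exists_emb e hm
      obtain ⟨W, hW⟩ := hf (QuotientGroup.mk A)
      have h3 : FreeGroup.lift (fun i => emb e (xh i)) W ∈ Gn (fun i => emb e (xh i)) univ := by
        refine FreeGroup.range_lift_le (s := Gn (fun i => emb e (xh i)) univ) ?_ ⟨W, rfl⟩
        rintro _ ⟨i, rfl⟩
        exact mem_Gn _ (mem_univ i)
      have h4 : π (FreeGroup.lift (fun i => emb e (xh i)) W) = π (emb e A) := by
        have : π.comp (FreeGroup.lift (fun i => emb e (xh i))) = ψ.comp f := by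
          rw [← h1]; ext i; simp
        rw [← MonoidHom.comp_apply, this, MonoidHom.comp_apply, hW]
        rfl
      have h5 : Cen ((FreeGroup.lift (fun i => emb e (xh i)) W)⁻¹ * emb e A) := QuotientGroup.eq.1 h4
      have h6 : (FreeGroup.lift (fun i => emb e (xh i)) W)⁻¹ * emb e A ∈
          Gn (fun i => emb e (xh i)) univ := by
        rcases h5 with h | h <;> rw [h]
        · exact Subgroup.one_mem _
        · exact neg_one_mem_Gn _ _
      exact (Subgroup.mul_mem_cancel_left _ (Subgroup.inv_mem _ h3)).1 h6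
  obtain ⟨x, hx, ex⟩ := key f hf
  obtain ⟨y, hy, ey⟩ := key g hg
  obtain ⟨φ, hφ⟩ := neq_all h2 hfin (by rwa [hcard]) (by simpa using hn) hx hy π hπ
  refine ⟨φ, fun w => hψ ?_⟩
  have := hφ w
  rwa [ex, ey] at this

end Pool.Agent.MP_b84581_al.H49

end MrgPart3

-- marker of a merged file
example : 731051 + 133430 = 731051 + 133430 := rfl
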